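import Mathlib

/-!
Definitions for the library on lattices in the complex numbers and complex multiplication.
A lattice is a submodule `L : Submodule ℤ ℂ` with `IsLat L`.
-/

set_option autoImplicit false

namespace Pool.Agent.Work.CM

open Polynomial
open scoped Pointwise

noncomputable section

/-- `L` is a lattice in the complex numbers. -/
def IsLat (L : Submodule ℤ ℂ) : Prop := ∃ P : PeriodPair, P.lattice = L

/-- The Weierstrass function of `L` (with value 0 at the points of `L`). -/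
def wp (L : Submodule ℤ ℂ) (z : ℂ) : ℂ := ∑' l : L, (1 / (z - l) ^ 2 - 1 / (l : ℂ) ^ 2)

/-- The derivative of the Weierstrass function of `L` (with value 0 at the points of `L`). -/
def wpd (L : Submodule ℤ ℂ) (z : ℂ) : ℂ := -∑' l : L, 2 / (z - l) ^ 3

/-- The invariant `g₂` of `L`. -/
def g2 (L : Submodule ℤ ℂ) : ℂ := 60 * ∑' l : L, ((l : ℂ) ^ 4)⁻¹

/-- The invariant `g₃` of `L`. -/
def g3 (L : Submodule ℤ ℂ) : ℂ := 140 * ∑' l : L, ((l : ℂ) ^ 6)⁻¹

/-- With `R = P / Q`: `R(∞) = ∞` and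
`m^2 (4 R^3 - a' R - b') = R'^2 (4 X^3 - a X - b)`. -/
structure Rel (m a b a' b' : ℂ) (P Q : ℂ[X]) : Prop where
  ne : Q ≠ 0
  deg : Q.natDegree < P.natDegree
  eq : C (m ^ 2) * (4 * P ^ 3 - C a' * P * Q ^ 2 - C b' * Q ^ 3) * Q =
    (derivative P * Q - P * derivative Q) ^ 2 * (4 * X ^ 3 - C a * X - C b)

/-- The lattice whose invariants are the images under `σ` of the invariants of `L`. -/
def conj (σ : ℂ ≃+* ℂ) (L : Submodule ℤ ℂ) : Submodule ℤ ℂ :=
  Classical.epsilon fun L' => IsLat L' ∧ g2 L' = σ (g2 L) ∧ g3 L' = σ (g3 L)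

/-- `L` and `L'` are lattices and `L` is a sublattice of index two of `L'`. -/
structure Two (L L' : Submodule ℤ ℂ) : Prop where
  lat : IsLat L
  lat' : IsLat L'
  le : L ≤ L'
  ex : ∃ u ∈ L', u ∉ L ∧ ∀ z ∈ L', z ∈ L ∨ z - u ∈ L

/-- The value of the Weierstrass function of `L` at the points of `L'` which are not in `L`, when
`L` has index two in `L'`. -/
def ev (L L' : Submodule ℤ ℂ) : ℂ := wp L (Classical.epsilon fun z => z ∈ L' ∧ z ∉ L)

/-- The lattice of the halves of the elements of `L`. -/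
def half (L : Submodule ℤ ℂ) : Submodule ℤ ℂ := (2 : ℂ)⁻¹ • L

end

end Pool.Agent.Work.CM
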