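import Mathlib
import Pool.Agent.Work.CM.Defs

/-!
Basic facts on the Weierstrass function of a lattice, from Mathlib.
-/

set_option autoImplicit false

namespace Pool.Agent.Work.CM

open Filter Topology

variable {L : Submodule ℤ ℂ}

theorem IsLat.isClosed (h : IsLat L) : IsClosed (L : Set ℂ) := by
  obtain ⟨P, rfl⟩ := h
  exact P.isClosed_lattice

theorem IsLat.discrete (h : IsLat L) : DiscreteTopology L := by
  obtain ⟨P, rfl⟩ := h
  infer_instance

theorem IsLat.isZLattice (h : IsLat L) :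
    ∃ (_ : DiscreteTopology L), IsZLattice ℝ L := by
  obtain ⟨P, rfl⟩ := h
  exact ⟨inferInstance, inferInstance⟩

theorem IsLat.countable (h : IsLat L) : (L : Set ℂ).Countable := by
  obtain ⟨P, rfl⟩ := h
  have : Countable P.lattice := P.latticeEquivProd.toEquiv.injective.countable
  exact Set.countable_coe_iff.1 this

/-- a point of the complement has a neighbourhood in the complement -/
theorem IsLat.compl_mem_nhds (h : IsLat L) {z : ℂ} (hz : z ∉ L) : (L : Set ℂ)ᶜ ∈ 𝓝 z :=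
  h.isClosed.isOpen_compl.mem_nhds hz

/-- a point of the lattice has a punctured neighbourhood in the complement -/
theorem IsLat.compl_mem_nhdsNE (h : IsLat L) (z : ℂ) : (L : Set ℂ)ᶜ ∈ 𝓝[≠] z := by
  obtain ⟨P, rfl⟩ := h
  have h1 := P.compl_lattice_sdiff_singleton_mem_nhds z
  filter_upwards [mem_nhdsWithin_of_mem_nhds h1, self_mem_nhdsWithin] with w hw hw'
  intro hwl
  exact hw ⟨hwl, hw'⟩

theorem IsLat.analyticOnNhd (h : IsLat L) : AnalyticOnNhd ℂ (wp L) (L : Set ℂ)ᶜ := by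
  obtain ⟨P, rfl⟩ := h
  exact P.analyticOnNhd_weierstrassP

theorem IsLat.analyticOnNhd' (h : IsLat L) : AnalyticOnNhd ℂ (wpd L) (L : Set ℂ)ᶜ := by
  obtain ⟨P, rfl⟩ := h
  exact P.analyticOnNhd_derivWeierstrassP

theorem IsLat.deriv_wp (h : IsLat L) : deriv (wp L) = wpd L := by
  obtain ⟨P, rfl⟩ := h
  exact P.deriv_weierstrassP

theorem IsLat.hasDerivAt (h : IsLat L) {z : ℂ} (hz : z ∉ L) :
    HasDerivAt (wp L) (wpd L z) z := by
  rw [← h.deriv_wp]
  exact (h.analyticOnNhd z hz).differentiableAt.hasDerivAt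

theorem IsLat.wp_neg (h : IsLat L) (z : ℂ) : wp L (-z) = wp L z := by
  obtain ⟨P, rfl⟩ := h
  exact P.weierstrassP_neg z

theorem IsLat.wpd_neg (h : IsLat L) (z : ℂ) : wpd L (-z) = -wpd L z := by
  obtain ⟨P, rfl⟩ := h
  exact P.derivWeierstrassP_neg z

theorem IsLat.wp_add (h : IsLat L) (z : ℂ) {l : ℂ} (hl : l ∈ L) : wp L (z + l) = wp L z := by
  obtain ⟨P, rfl⟩ := h
  exact P.weierstrassP_add_coe z ⟨l, hl⟩

theorem IsLat.wpd_add (h : IsLat L) (z : ℂ) {l : ℂ} (hl : l ∈ L) : wpd L (z + l) = wpd L z := by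
  obtain ⟨P, rfl⟩ := h
  exact P.derivWeierstrassP_add_coe z ⟨l, hl⟩

theorem IsLat.wp_of_mem (h : IsLat L) {z : ℂ} (hz : z ∈ L) : wp L z = 0 := by
  obtain ⟨P, rfl⟩ := h
  exact P.weierstrassP_coe ⟨z, hz⟩

theorem IsLat.ode (h : IsLat L) {z : ℂ} (hz : z ∉ L) :
    wpd L z ^ 2 = 4 * wp L z ^ 3 - g2 L * wp L z - g3 L := by
  obtain ⟨P, rfl⟩ := h
  exact P.derivWeierstrassP_sq z hz

/-- the principal part at zero -/
theorem IsLat.exists_local (h : IsLat L) : ∃ f : ℂ → ℂ, AnalyticAt ℂ f 0 ∧ f 0 = 0 ∧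
    ∀ z, wp L z = 1 / z ^ 2 + f z := by
  obtain ⟨P, rfl⟩ := h
  refine ⟨P.weierstrassPExcept 0, P.analyticAt_weierstrassPExcept 0,
    P.weierstrassPExcept_zero 0, fun z => ?_⟩
  have h1 := P.weierstrassPExcept_add ⟨0, zero_mem _⟩ z
  show P.weierstrassP z = _
  rw [← h1]
  simp
  ring

/-- the principal part at a point of the lattice -/
theorem IsLat.exists_local' (h : IsLat L) {l : ℂ} (hl : l ∈ L) : ∃ f : ℂ → ℂ, AnalyticAt ℂ f l ∧
    f l = 0 ∧ ∀ z, wp L z = 1 / (z - l) ^ 2 + f z := by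
  obtain ⟨f, hf, hf0, hfz⟩ := h.exists_local
  refine ⟨fun z => f (z - l), ?_, by simpa using hf0, fun z => ?_⟩
  · exact AnalyticAt.fun_comp (g := f) (by simpa using hf) (by fun_prop)
  · rw [← hfz, ← h.wp_add (z - l) hl, sub_add_cancel]

theorem IsLat.tendsto (h : IsLat L) {l : ℂ} (hl : l ∈ L) :
    Tendsto (wp L) (𝓝[≠] l) (Bornology.cobounded ℂ) := by
  obtain ⟨P, rfl⟩ := h
  have h1 := P.order_weierstrassP l hl
  exact tendsto_cobounded_of_meromorphicOrderAt_neg (by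
    show meromorphicOrderAt P.weierstrassP l < 0
    rw [h1]
    decide)

end Pool.Agent.Work.CM
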