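import Mathlib
import Pool.Agent.Work.CM.Bas

/-!
# Module HOM: homotheties

`m • L` is the set of the `m * l` (`Submodule.mem_smul_pointwise_iff_exists`). `IsLat.smul`: the
`PeriodPair` with periods `m ω₁`, `m ω₂`. The other statements: reindex the sums by the bijection
`l ↦ m l` (`Equiv.tsum_eq`), and pull out the constant (`tsum_mul_left`, valid in a field without
summability).
-/

set_option autoImplicit false

namespace Pool.Agent.Work.CM

open Filter Topology Polynomial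
open scoped Pointwise

variable {L L' : Submodule ℤ ℂ}

theorem mem_smul_iff {m : ℂ} (hm : m ≠ 0) {z : ℂ} : m * z ∈ m • L ↔ z ∈ L := by
  rw [Submodule.mem_smul_pointwise_iff_exists]
  constructor
  · rintro ⟨s, hs, h⟩
    rw [smul_eq_mul] at h
    rwa [← mul_left_cancel₀ hm h]
  · intro h
    exact ⟨z, h, rfl⟩

private theorem mem_smul_iff' {m : ℂ} {z : ℂ} : z ∈ m • L ↔ ∃ s ∈ L, m * s = z := by
  rw [Submodule.mem_smul_pointwise_iff_exists]
  rfl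

/-- reindexing -/
private noncomputable def smulEquiv (L : Submodule ℤ ℂ) {m : ℂ} (hm : m ≠ 0) :
    L ≃ (m • L : Submodule ℤ ℂ) where
  toFun l := ⟨m * l, (mem_smul_iff hm).2 l.2⟩
  invFun l := ⟨m⁻¹ * l, by
    obtain ⟨s, hs, h⟩ := mem_smul_iff'.1 l.2
    rw [← h, ← mul_assoc, inv_mul_cancel₀ hm, one_mul]
    exact hs⟩
  left_inv l := by
    ext
    show m⁻¹ * (m * (l : ℂ)) = l
    rw [← mul_assoc, inv_mul_cancel₀ hm, one_mul]
  right_inv l := by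
    ext
    show m * (m⁻¹ * (l : ℂ)) = l
    rw [← mul_assoc, mul_inv_cancel₀ hm, one_mul]

private theorem tsum_smul (L : Submodule ℤ ℂ) {m : ℂ} (hm : m ≠ 0) (f : ℂ → ℂ) :
    ∑' l : (m • L : Submodule ℤ ℂ), f l = ∑' l : L, f (m * l) :=
  ((smulEquiv L hm).tsum_eq fun l : (m • L : Submodule ℤ ℂ) => f l).symm

theorem IsLat.smul (h : IsLat L) {m : ℂ} (hm : m ≠ 0) : IsLat (m • L) := by
  obtain ⟨P, rfl⟩ := h
  have hind : LinearIndependent ℝ ![m * P.ω₁, m * P.ω₂] := by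
    rw [LinearIndependent.pair_iff]
    intro s t hst
    have h1 : m * (s • P.ω₁ + t • P.ω₂) = 0 := by
      rw [← hst]
      simp only [Complex.real_smul]
      ring
    have h2 : s • P.ω₁ + t • P.ω₂ = 0 := by
      rcases mul_eq_zero.1 h1 with h3 | h3
      · exact absurd h3 hm
      · exact h3
    exact LinearIndependent.pair_iff.1 P.indep s t h2
  refine ⟨⟨m * P.ω₁, m * P.ω₂, hind⟩, ?_⟩
  ext z
  rw [PeriodPair.mem_lattice, mem_smul_iff']
  constructor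
  · rintro ⟨a, b, h⟩
    refine ⟨a * P.ω₁ + b * P.ω₂, PeriodPair.mem_lattice.2 ⟨a, b, rfl⟩, ?_⟩
    rw [← h]
    ring
  · rintro ⟨s, hs, h⟩
    obtain ⟨a, b, h'⟩ := PeriodPair.mem_lattice.1 hs
    refine ⟨a, b, ?_⟩
    rw [← h, ← h']
    ring

theorem wp_smul {m : ℂ} (hm : m ≠ 0) (z : ℂ) : wp (m • L) (m * z) = (m ^ 2)⁻¹ * wp L z := by
  unfold wp
  rw [tsum_smul L hm fun l => 1 / (m * z - l) ^ 2 - 1 / l ^ 2, ← tsum_mul_left]
  refine tsum_congr fun l => ?_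
  rw [← mul_sub, mul_pow, mul_pow, one_div, one_div, one_div, one_div, mul_inv, mul_inv]
  ring

theorem wpd_smul {m : ℂ} (hm : m ≠ 0) (z : ℂ) : wpd (m • L) (m * z) = (m ^ 3)⁻¹ * wpd L z := by
  unfold wpd
  rw [tsum_smul L hm fun l => 2 / (m * z - l) ^ 3, mul_neg, ← tsum_mul_left]
  congr 1
  refine tsum_congr fun l => ?_
  rw [← mul_sub, mul_pow, div_eq_mul_inv, div_eq_mul_inv, mul_inv]
  ring

theorem g2_smul {m : ℂ} (hm : m ≠ 0) : g2 (m • L) = (m ^ 4)⁻¹ * g2 L := by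
  unfold g2
  rw [tsum_smul L hm fun l => (l ^ 4)⁻¹]
  have h : ∀ l : L, ((m * (l : ℂ)) ^ 4)⁻¹ = (m ^ 4)⁻¹ * ((l : ℂ) ^ 4)⁻¹ := fun l => by
    rw [mul_pow, mul_inv]
  rw [tsum_congr h, tsum_mul_left]
  ring

theorem g3_smul {m : ℂ} (hm : m ≠ 0) : g3 (m • L) = (m ^ 6)⁻¹ * g3 L := by
  unfold g3
  rw [tsum_smul L hm fun l => (l ^ 6)⁻¹]
  have h : ∀ l : L, ((m * (l : ℂ)) ^ 6)⁻¹ = (m ^ 6)⁻¹ * ((l : ℂ) ^ 6)⁻¹ := fun l => by
    rw [mul_pow, mul_inv]
  rw [tsum_congr h, tsum_mul_left]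
  ring

end Pool.Agent.Work.CM
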