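import Mathlib
import Pool.Agent.Work.CM.Bas
import Pool.Agent.Work.CM.Hom

/-!
# Module REP: sublattices, finite index, homotheties

* `exists_reps`: `L` has finite index in `L'`. (Both are lattices of rank 2: `L = P.lattice`,
  `L' = P'.lattice`; the quotient is finite, e.g. every `z ∈ L'` is modulo `L` in the compact
  fundamental domain of `L` (`ZSpan.floor`, `ZSpan.fract`), and a compact set contains finitely many
  points of `L'`; or `N • L' ≤ L` for some `N ≥ 1` by Cramer's rule since `L` has full rank.)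
* `exists_mul_mem`: hence every `z ∈ L'` has a multiple `N z ∈ L`, `N ≥ 1`.
* `isLat_of_sandwich`: a submodule `X` with `m • A ≤ X ≤ B` is discrete and of full real span, so it is
  a lattice: `X` is a submodule of the free `ℤ`-module `B` of rank 2, so it is free of rank at most 2
  (`Submodule.basisOfPid` or so) and it contains two elements independent over `ℝ`, so its basis has two
  elements, independent over `ℝ`: gives the `PeriodPair`.
* homotheties: reindex the sums by `l ↦ m l` (`Equiv.tsum_eq`).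
-/

set_option autoImplicit false

namespace Pool.Agent.Work.CM

open Filter Topology Polynomial
open scoped Pointwise

variable {L L' : Submodule ℤ ℂ}

/-- one multiple for all -/
private theorem exists_mul_all (h : IsLat L) (h' : IsLat L') (hle : L ≤ L') :
    ∃ N : ℕ, N ≠ 0 ∧ ∀ z ∈ L', (N : ℂ) * z ∈ L := by
  obtain ⟨P, rfl⟩ := h
  obtain ⟨P', rfl⟩ := h'
  obtain ⟨a, b, h1⟩ := PeriodPair.mem_lattice.1 (hle P.ω₁_mem_lattice)
  obtain ⟨c, d, h2⟩ := PeriodPair.mem_lattice.1 (hle P.ω₂_mem_lattice)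
  set D : ℤ := a * d - b * c with hD
  have e1 : (D : ℂ) * P'.ω₁ = d * P.ω₁ - b * P.ω₂ := by
    rw [← h1, ← h2, hD]
    push_cast
    ring
  have e2 : (D : ℂ) * P'.ω₂ = -c * P.ω₁ + a * P.ω₂ := by
    rw [← h1, ← h2, hD]
    push_cast
    ring
  have hD0 : D ≠ 0 := by
    intro h0
    rw [h0, Int.cast_zero, zero_mul] at e1 e2
    have i1 := LinearIndependent.pair_iff.1 P.indep (d : ℝ) (-b : ℝ) (by
      rw [Complex.real_smul, Complex.real_smul]
      push_cast
      linear_combination -e1)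
    have i2 := LinearIndependent.pair_iff.1 P.indep (-c : ℝ) (a : ℝ) (by
      rw [Complex.real_smul, Complex.real_smul]
      push_cast
      linear_combination -e2)
    have ha : (a : ℂ) = 0 := by exact_mod_cast i2.2
    have hb : (b : ℂ) = 0 := by
      have := i1.2
      rw [neg_eq_zero] at this
      exact_mod_cast this
    have : P.ω₁ = 0 := by
      rw [← h1, ha, hb]
      ring
    exact P.indep.ne_zero 0 this
  refine ⟨D.natAbs, Int.natAbs_ne_zero.2 hD0, ?_⟩
  intro z hz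
  have h3 : (D : ℂ) * z ∈ P.lattice := by
    obtain ⟨m, n, rfl⟩ := PeriodPair.mem_lattice.1 hz
    rw [PeriodPair.mem_lattice]
    refine ⟨m * d - n * c, -m * b + n * a, ?_⟩
    push_cast
    linear_combination -(m : ℂ) * e1 - n * e2
  rcases Int.natAbs_eq D with h4 | h4
  · have h5 : ((D.natAbs : ℕ) : ℂ) = D := by
      rw [← Int.cast_natCast, ← h4]
    rw [h5]
    exact h3
  · have h5 : ((D.natAbs : ℕ) : ℂ) = -D := by
      have : (D.natAbs : ℤ) = -D := by omega
      rw [← Int.cast_natCast, this]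
      push_cast
      ring
    rw [h5, neg_mul]
    exact neg_mem h3

theorem exists_reps (h : IsLat L) (h' : IsLat L') (hle : L ≤ L') :
    ∃ T : Finset ℂ, (∀ t ∈ T, t ∈ L' ∧ t ∉ L) ∧ ∀ z ∈ L', z ∈ L ∨ ∃ t ∈ T, z - t ∈ L := by
  classical
  obtain ⟨N, hN, hmul⟩ := exists_mul_all h h' hle
  obtain ⟨P', rfl⟩ := h'
  refine ⟨(((Finset.range N ×ˢ Finset.range N).image
    fun q : ℕ × ℕ => (q.1 : ℂ) * P'.ω₁ + (q.2 : ℂ) * P'.ω₂)).filter fun t => t ∉ L, ?_, ?_⟩
  · intro t ht
    rw [Finset.mem_filter, Finset.mem_image] at ht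
    obtain ⟨⟨q, -, rfl⟩, ht⟩ := ht
    refine ⟨?_, ht⟩
    rw [PeriodPair.mem_lattice]
    exact ⟨q.1, q.2, by push_cast; rfl⟩
  · intro z hz
    obtain ⟨x, y, rfl⟩ := PeriodPair.mem_lattice.1 hz
    have hN' : (N : ℤ) ≠ 0 := by exact_mod_cast hN
    have hNp : (0 : ℤ) < N := by omega
    obtain ⟨i, hi⟩ := Int.eq_ofNat_of_zero_le (Int.emod_nonneg x hN')
    obtain ⟨j, hj⟩ := Int.eq_ofNat_of_zero_le (Int.emod_nonneg y hN')
    have hi' : i < N := by
      have := Int.emod_lt_of_pos x hNp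
      omega
    have hj' : j < N := by
      have := Int.emod_lt_of_pos y hNp
      omega
    have hx : (x : ℂ) = N * (x / N : ℤ) + i := by
      have h0 := Int.mul_ediv_add_emod x N
      rw [hi] at h0
      have h00 := congrArg (fun k : ℤ => (k : ℂ)) h0.symm
      simpa using h00
    have hy : (y : ℂ) = N * (y / N : ℤ) + j := by
      have h0 := Int.mul_ediv_add_emod y N
      rw [hj] at h0
      have h00 := congrArg (fun k : ℤ => (k : ℂ)) h0.symm
      simpa using h00
    have hdiff : (x : ℂ) * P'.ω₁ + y * P'.ω₂ - ((i : ℂ) * P'.ω₁ + (j : ℂ) * P'.ω₂) ∈ L := by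
      have h1 := hmul (((x / N : ℤ) : ℂ) * P'.ω₁ + ((y / N : ℤ) : ℂ) * P'.ω₂)
        (PeriodPair.mem_lattice.2 ⟨_, _, rfl⟩)
      have h2 : (x : ℂ) * P'.ω₁ + y * P'.ω₂ - ((i : ℂ) * P'.ω₁ + (j : ℂ) * P'.ω₂) =
          (N : ℂ) * (((x / N : ℤ) : ℂ) * P'.ω₁ + ((y / N : ℤ) : ℂ) * P'.ω₂) := by
        linear_combination P'.ω₁ * hx + P'.ω₂ * hy
      rw [h2]
      exact h1
    by_cases ht : (i : ℂ) * P'.ω₁ + (j : ℂ) * P'.ω₂ ∈ L
    · left
      have := add_mem hdiff ht
      rwa [sub_add_cancel] at this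
    · right
      refine ⟨(i : ℂ) * P'.ω₁ + (j : ℂ) * P'.ω₂, ?_, hdiff⟩
      rw [Finset.mem_filter, Finset.mem_image]
      exact ⟨⟨(i, j), by simp [hi', hj'], rfl⟩, ht⟩

theorem exists_mul_mem (h : IsLat L) (h' : IsLat L') (hle : L ≤ L') {z : ℂ} (hz : z ∈ L') :
    ∃ N : ℕ, N ≠ 0 ∧ (N : ℂ) * z ∈ L := by
  obtain ⟨N, hN, hmul⟩ := exists_mul_all h h' hle
  exact ⟨N, hN, hmul z hz⟩

theorem isLat_of_sandwich {A B X : Submodule ℤ ℂ} (hA : IsLat A) (hB : IsLat B) {m : ℂ}
    (hm : m ≠ 0) (h1 : m • A ≤ X) (h2 : X ≤ B) : IsLat X := by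
  have hd : DiscreteTopology B := hB.discrete
  have hdX : DiscreteTopology X := DiscreteTopology.of_subset hd h2
  obtain ⟨hdA, hzA⟩ := (hA.smul hm).isZLattice
  have hzX : IsZLattice ℝ X := by
    constructor
    rw [eq_top_iff, ← hzA.span_top]
    exact Submodule.span_mono h1
  have hfree : Module.Free ℤ X := ZLattice.module_free ℝ X
  have hfin : Module.Finite ℤ X := ZLattice.module_finite ℝ X
  have hrank : Module.finrank ℤ X = 2 := by
    rw [ZLattice.rank ℝ X, Complex.finrank_real_complex]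
  let bX : Module.Basis (Fin 2) ℤ X := Module.finBasisOfFinrankEq ℤ X hrank
  let c := bX.ofZLatticeBasis ℝ X
  have hc : ∀ i, c i = (bX i : ℂ) := fun i => bX.ofZLatticeBasis_apply ℝ X i
  have hind : LinearIndependent ℝ ![(bX 0 : ℂ), (bX 1 : ℂ)] := by
    have h3 := c.linearIndependent
    have h4 : (c : Fin 2 → ℂ) = ![(bX 0 : ℂ), (bX 1 : ℂ)] := by
      funext i
      fin_cases i
      · exact hc 0
      · exact hc 1
    rwa [h4] at h3
  refine ⟨⟨bX 0, bX 1, hind⟩, ?_⟩
  ext z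
  rw [PeriodPair.mem_lattice]
  constructor
  · rintro ⟨a, b, rfl⟩
    have h8 : ((a • (bX 0 : X) + b • (bX 1 : X) : X) : ℂ) ∈ X := (a • bX 0 + b • bX 1).2
    simpa using h8
  · intro hz
    have h5 := bX.sum_repr ⟨z, hz⟩
    rw [Fin.sum_univ_two] at h5
    refine ⟨bX.repr ⟨z, hz⟩ 0, bX.repr ⟨z, hz⟩ 1, ?_⟩
    have h6 := congrArg (Subtype.val) h5
    simpa using h6

end Pool.Agent.Work.CM
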