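import Mathlib
import Pool.Agent.Work.CM.Bas

/-!
# Module LIO: the theorem of Liouville for elliptic functions

`f` is bounded near `0`, hence near every point of `L` by periodicity, so it extends to an entire
function. Let `c = limUnder (𝓝[≠] 0) f` and `F z = if z ∈ L then c else f z`; near `0`,
`F = Function.update f 0 c` on a neighbourhood (points of `L` are isolated), which is analytic by the
removable singularity theorem; `F` is `L`-periodic, so it is analytic everywhere. Its range is compact
(`IsZLattice.isCompact_range_of_periodic`), so it is constant.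
-/

set_option autoImplicit false

namespace Pool.Agent.Work.CM

open Filter Topology Polynomial
open scoped Pointwise

variable {L L' : Submodule ℤ ℂ}

theorem IsLat.const_of_bounded (h : IsLat L) {f : ℂ → ℂ} (hf : AnalyticOnNhd ℂ f (L : Set ℂ)ᶜ)
    (hper : ∀ z, ∀ l ∈ L, f (z + l) = f z) {C : ℝ} (hb : ∀ᶠ z in 𝓝[≠] (0 : ℂ), ‖f z‖ ≤ C) :
    ∃ c, ∀ z ∉ L, f z = c := by
  classical
  set c : ℂ := limUnder (𝓝[≠] (0 : ℂ)) f with hc
  let F : ℂ → ℂ := fun z => if z ∈ L then c else f z
  have hFper : ∀ z, ∀ l ∈ L, F (z + l) = F z := by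
    intro z l hl
    by_cases hz : z ∈ L
    · have : z + l ∈ L := add_mem hz hl
      simp [F, hz, this]
    · have : z + l ∉ L := fun h' => hz (by simpa using sub_mem h' hl)
      simp [F, hz, this, hper z l hl]
  have h1 : ∀ᶠ z in 𝓝[≠] (0 : ℂ), ‖f z‖ ≤ C ∧ z ∉ L := hb.and (h.compl_mem_nhdsNE 0)
  obtain ⟨s, hs, hs'⟩ := mem_nhdsWithin_iff_exists_mem_nhds_inter.1 h1
  have h2 : DifferentiableOn ℂ (Function.update f 0 c) s := by
    refine Complex.differentiableOn_update_limUnder_of_bddAbove hs ?_ ?_
    · intro z hz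
      exact (hf z (hs' ⟨hz.1, hz.2⟩).2).differentiableAt.differentiableWithinAt
    · refine ⟨C, ?_⟩
      rintro _ ⟨z, hz, rfl⟩
      exact (hs' ⟨hz.1, hz.2⟩).1
  have h3 : DifferentiableAt ℂ F 0 := by
    have h4 : DifferentiableAt ℂ (Function.update f 0 c) 0 := h2.differentiableAt hs
    refine h4.congr_of_eventuallyEq ?_
    filter_upwards [hs] with z hz
    by_cases hz0 : z = 0
    · subst hz0
      simp [F]
    · have := (hs' ⟨hz, hz0⟩).2
      simp [F, this, Function.update_of_ne hz0]
  have hFd : Differentiable ℂ F := by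
    intro z
    by_cases hz : z ∈ L
    · have h5 : F = fun w => F (w - z) := by
        funext w
        rw [← hFper (w - z) z hz, sub_add_cancel]
      rw [h5]
      have h6 : DifferentiableAt ℂ F (z - z) := by rw [sub_self]; exact h3
      exact DifferentiableAt.fun_comp' (f := fun w : ℂ => w - z) z h6 (by fun_prop)
    · refine (hf z hz).differentiableAt.congr_of_eventuallyEq ?_
      filter_upwards [h.compl_mem_nhds hz] with w hw
      have : w ∉ L := hw
      simp [F, this]
  obtain ⟨hd, hz⟩ := h.isZLattice
  refine ⟨F 0, fun z hz' => ?_⟩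
  have h7 := hFd.apply_eq_apply_of_bounded
    (IsZLattice.isCompact_range_of_periodic L F hFd.continuous fun z w hw => hFper z w hw).isBounded
    z 0
  rw [← h7]
  simp [F, hz']

end Pool.Agent.Work.CM
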