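import Mathlib
import Pool.Agent.Work.CM.Bas

/-!
# Module IDENT: identity theorem on the complement of a countable closed set

`Sᶜ` is preconnected for countable `S` (`Set.Countable.isPathConnected_compl_of_one_lt_rank`,
`IsPathConnected.isConnected.isPreconnected`; the real rank of `ℂ` is 2), then
`AnalyticOnNhd.eqOn_of_preconnected_of_eventuallyEq`.
-/

set_option autoImplicit false

namespace Pool.Agent.Work.CM

open Filter Topology Polynomial
open scoped Pointwise

variable {L L' : Submodule ℤ ℂ}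

theorem ident {S : Set ℂ} (hc : S.Countable) {f g : ℂ → ℂ} (hf : AnalyticOnNhd ℂ f Sᶜ)
    (hg : AnalyticOnNhd ℂ g Sᶜ) {z0 : ℂ} (hz : z0 ∉ S) (h : f =ᶠ[𝓝 z0] g) :
    ∀ z ∉ S, f z = g z := by
  have hconn : IsPreconnected (Sᶜ : Set ℂ) :=
    (hc.isPathConnected_compl_of_one_lt_rank
      (by rw [Complex.rank_real_complex]; exact Cardinal.one_lt_two)).isConnected.isPreconnected
  intro z hz'
  exact hf.eqOn_of_preconnected_of_eventuallyEq hg hconn hz h hz'

/-- zero divisors -/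
theorem zero_or_zero {S : Set ℂ} (hc : S.Countable) (hS : IsClosed S) {f g : ℂ → ℂ}
    (hf : AnalyticOnNhd ℂ f Sᶜ) (hg : AnalyticOnNhd ℂ g Sᶜ) (h : ∀ z ∉ S, f z * g z = 0) :
    (∀ z ∉ S, f z = 0) ∨ ∀ z ∉ S, g z = 0 := by
  by_cases hf0 : ∀ z ∉ S, f z = 0
  · exact Or.inl hf0
  · right
    push Not at hf0
    obtain ⟨z0, hz0, hne⟩ := hf0
    have h1 : ∀ᶠ z in 𝓝 z0, f z ≠ 0 := (hf z0 hz0).continuousAt.eventually_ne hne
    have h2 : ∀ᶠ z in 𝓝 z0, z ∈ Sᶜ := hS.isOpen_compl.mem_nhds hz0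
    have h3 : g =ᶠ[𝓝 z0] fun _ => 0 := by
      filter_upwards [h1, h2] with z hz1 hz2
      rcases mul_eq_zero.1 (h z hz2) with h4 | h4
      · exact absurd h4 hz1
      · exact h4
    exact ident hc hg (fun z _ => analyticAt_const) hz0 h3

end Pool.Agent.Work.CM
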