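import Mathlib
import Pool.Agent.Work.CM.Ident

/-!
# Module BAS2: the second derivative

Differentiate `ode` on the open set `Lᶜ`: `2 wpd * wpd' = (12 wp^2 - g2) wpd`, i.e.
`(2 wpd' - 12 wp^2 + g2) * wpd = 0` with `wpd' = deriv (wpd L)`, analytic on `Lᶜ`. By `zero_or_zero`
one factor vanishes on `Lᶜ`; `wpd` does not: `wp` would be locally constant on the preconnected
set `Lᶜ` (use `ident` with a constant function), against `IsLat.tendsto` at `0`.
-/

set_option autoImplicit false

namespace Pool.Agent.Work.CM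

open Filter Topology Polynomial
open scoped Pointwise

variable {L L' : Submodule ℤ ℂ}

/-- the Weierstrass function is not locally constant -/
theorem IsLat.not_const (h : IsLat L) {z0 : ℂ} (hz : z0 ∉ L) (c : ℂ) :
    ¬ ∀ᶠ z in 𝓝 z0, wp L z = c := by
  intro hc
  have h1 : ∀ z ∉ L, wp L z = c := ident (S := (L : Set ℂ)) h.countable (f := wp L)
    (g := fun _ => c) h.analyticOnNhd (fun z _ => analyticAt_const) hz hc
  have h2 : Tendsto (wp L) (𝓝[≠] (0 : ℂ)) (𝓝 c) := by
    refine tendsto_const_nhds.congr' ?_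
    filter_upwards [h.compl_mem_nhdsNE 0] with z hz
    exact (h1 z hz).symm
  have h3 := h.tendsto (zero_mem L)
  rw [← tendsto_norm_atTop_iff_cobounded] at h3
  exact not_tendsto_nhds_of_tendsto_atTop h3 _ h2.norm

theorem IsLat.hasDerivAt' (h : IsLat L) {z : ℂ} (hz : z ∉ L) :
    HasDerivAt (wpd L) (6 * wp L z ^ 2 - g2 L / 2) z := by
  have hd : ∀ z ∉ L, HasDerivAt (wpd L) (deriv (wpd L) z) z := fun z hz =>
    (h.analyticOnNhd' z hz).differentiableAt.hasDerivAt
  have key : ∀ z ∉ L, (2 * deriv (wpd L) z - 12 * wp L z ^ 2 + g2 L) * wpd L z = 0 := by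
    intro z hz
    have h1 : HasDerivAt (fun w => wpd L w ^ 2) (2 * wpd L z ^ 1 * deriv (wpd L) z) z := by
      have h0 := (hd z hz).fun_pow 2
      simpa using h0
    have h2 : HasDerivAt (fun w => 4 * wp L w ^ 3 - g2 L * wp L w - g3 L)
        (4 * (3 * wp L z ^ 2 * wpd L z) - g2 L * wpd L z) z := by
      have h3 := (((((h.hasDerivAt hz).fun_pow 3).const_mul 4).fun_sub
        ((h.hasDerivAt hz).const_mul (g2 L))).sub_const (g3 L))
      simpa using h3
    have h4 : (fun w => wpd L w ^ 2) =ᶠ[𝓝 z] fun w => 4 * wp L w ^ 3 - g2 L * wp L w - g3 L := by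
      filter_upwards [h.compl_mem_nhds hz] with w hw
      exact h.ode hw
    have h5 := h1.unique (h2.congr_of_eventuallyEq h4)
    linear_combination h5
  have hor := zero_or_zero (S := (L : Set ℂ)) h.countable h.isClosed
    (f := fun z => 2 * deriv (wpd L) z - 12 * wp L z ^ 2 + g2 L) (g := wpd L)
    (fun z hz => ((analyticAt_const.mul (h.analyticOnNhd' z hz).deriv).sub
      (analyticAt_const.mul ((h.analyticOnNhd z hz).pow 2))).add analyticAt_const)
    h.analyticOnNhd' key
  rcases hor with hor | hor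
  · have h6 := hor z hz
    have h7 : deriv (wpd L) z = 6 * wp L z ^ 2 - g2 L / 2 := by
      have : (2 : ℂ) * deriv (wpd L) z = 2 * (6 * wp L z ^ 2 - g2 L / 2) := by
        linear_combination h6
      exact mul_left_cancel₀ two_ne_zero this
    rw [← h7]
    exact hd z hz
  · exfalso
    refine h.not_const hz (wp L z) ?_
    obtain ⟨ε, hε, hball⟩ := Metric.mem_nhds_iff.1 (h.compl_mem_nhds hz)
    filter_upwards [Metric.ball_mem_nhds z hε] with w hw
    refine (convex_ball z ε).is_const_of_fderivWithin_eq_zero (𝕜 := ℂ) ?_ ?_ hw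
      (Metric.mem_ball_self hε)
    · intro u hu
      exact (h.analyticOnNhd u (hball hu)).differentiableAt.differentiableWithinAt
    · intro u hu
      rw [fderivWithin_of_isOpen Metric.isOpen_ball hu]
      have h8 := (h.hasDerivAt (hball hu))
      rw [hor u (hball hu)] at h8
      have h9 := h8.hasFDerivAt.fderiv
      rw [h9]
      ext
      simp

end Pool.Agent.Work.CM
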