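import Mathlib

/-!
Behaviour at infinity of a quotient of two complex polynomials.
-/

set_option autoImplicit false

namespace Pool.Agent.Work.CM

open Filter Topology Polynomial

private theorem eval_rev (P : ℂ[X]) {x : ℂ} (hx : x ≠ 0) :
    P.eval x = P.reverse.eval x⁻¹ * x ^ P.natDegree := by
  have h1 : Invertible x := invertibleOfNonzero hx
  have h2 := Polynomial.eval₂_reverse_mul_pow (RingHom.id ℂ) x P
  rw [invOf_eq_inv] at h2
  exact h2.symm

private theorem rev_tendsto (P : ℂ[X]) :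
    Tendsto (fun x : ℂ => P.reverse.eval x⁻¹) (Bornology.cobounded ℂ) (𝓝 P.leadingCoeff) := by
  have h1 : Tendsto (fun y : ℂ => P.reverse.eval y) (𝓝 0) (𝓝 (P.reverse.eval 0)) :=
    P.reverse.continuous.tendsto 0
  have h2 : P.reverse.eval 0 = P.leadingCoeff := by
    rw [← Polynomial.coeff_zero_eq_eval_zero, Polynomial.coeff_zero_reverse]
  rw [h2] at h1
  exact h1.comp tendsto_inv₀_cobounded

theorem eventually_eval_ne {Q : ℂ[X]} (hQ : Q ≠ 0) :
    ∀ᶠ x in Bornology.cobounded ℂ, Q.eval x ≠ 0 := by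
  have h1 := (rev_tendsto Q).eventually_ne (leadingCoeff_ne_zero.2 hQ)
  filter_upwards [h1, Bornology.eventually_ne_cobounded (0 : ℂ)] with x h2 h3
  rw [eval_rev Q h3]
  exact mul_ne_zero h2 (pow_ne_zero _ h3)

theorem ratio_tendsto {P Q : ℂ[X]} (hQ : Q ≠ 0) (hdeg : Q.natDegree < P.natDegree) :
    Tendsto (fun x => P.eval x / Q.eval x) (Bornology.cobounded ℂ) (Bornology.cobounded ℂ) := by
  have hP : P ≠ 0 := by
    rintro rfl
    simp at hdeg
  have h1 : Tendsto (fun x : ℂ => P.reverse.eval x⁻¹ / Q.reverse.eval x⁻¹) (Bornology.cobounded ℂ)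
      (𝓝 (P.leadingCoeff / Q.leadingCoeff)) :=
    (rev_tendsto P).div (rev_tendsto Q) (leadingCoeff_ne_zero.2 hQ)
  have h2 : 0 < ‖P.leadingCoeff / Q.leadingCoeff‖ :=
    norm_pos_iff.2 (div_ne_zero (leadingCoeff_ne_zero.2 hP) (leadingCoeff_ne_zero.2 hQ))
  rw [← tendsto_norm_atTop_iff_cobounded]
  have h3 : Tendsto (fun x : ℂ => ‖x‖ ^ (P.natDegree - Q.natDegree)) (Bornology.cobounded ℂ) atTop :=
    (tendsto_pow_atTop (by omega)).comp tendsto_norm_cobounded_atTop
  have h4 := h1.norm.pos_mul_atTop h2 h3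
  refine h4.congr' ?_
  filter_upwards [Bornology.eventually_ne_cobounded (0 : ℂ)] with x hx
  rw [eval_rev P hx, eval_rev Q hx]
  have h5 : x ^ P.natDegree = x ^ (P.natDegree - Q.natDegree) * x ^ Q.natDegree := by
    rw [← pow_add]
    congr 1
    omega
  rw [h5, ← mul_assoc, mul_div_mul_right _ _ (pow_ne_zero _ hx), ← norm_pow, ← norm_mul]
  congr 1
  ring

theorem ratio_tendsto_of_le {P Q : ℂ[X]} (hQ : Q ≠ 0) (hdeg : P.natDegree ≤ Q.natDegree) :
    ∃ c, Tendsto (fun x => P.eval x / Q.eval x) (Bornology.cobounded ℂ) (𝓝 c) := by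
  have h1 : Tendsto (fun x : ℂ => P.reverse.eval x⁻¹ / Q.reverse.eval x⁻¹) (Bornology.cobounded ℂ)
      (𝓝 (P.leadingCoeff / Q.leadingCoeff)) :=
    (rev_tendsto P).div (rev_tendsto Q) (leadingCoeff_ne_zero.2 hQ)
  have h3 : Tendsto (fun x : ℂ => x⁻¹ ^ (Q.natDegree - P.natDegree)) (Bornology.cobounded ℂ)
      (𝓝 (0 ^ (Q.natDegree - P.natDegree))) :=
    (tendsto_inv₀_cobounded).pow _
  refine ⟨_, (h1.mul h3).congr' ?_⟩
  filter_upwards [Bornology.eventually_ne_cobounded (0 : ℂ)] with x hx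
  rw [eval_rev P hx, eval_rev Q hx]
  have h5 : x ^ Q.natDegree = x ^ (Q.natDegree - P.natDegree) * x ^ P.natDegree := by
    rw [← pow_add]
    congr 1
    omega
  rw [h5, ← mul_assoc, mul_div_mul_right _ _ (pow_ne_zero _ hx), inv_pow, div_mul_eq_div_div]
  rw [← div_eq_mul_inv]

end Pool.Agent.Work.CM
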