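import Mathlib
import Pool.Agent.Work.CM.Lio

/-!
# Module SUR: the Weierstrass function is surjective

If `wp L z ≠ c` for all `z ∉ L`, then `f z = 1 / (wp L z - c)` (on `Lᶜ`) is analytic, periodic, and
tends to `0` at `0` (`IsLat.tendsto`), so it is bounded near `0` and constant off `L` by
`IsLat.const_of_bounded`; the constant is its limit `0` at `0`; but `f z ≠ 0`.
-/

set_option autoImplicit false

namespace Pool.Agent.Work.CM

open Filter Topology Polynomial
open scoped Pointwise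

variable {L L' : Submodule ℤ ℂ}

theorem IsLat.exists_notMem (h : IsLat L) : ∃ z, z ∉ L :=
  (h.compl_mem_nhdsNE 0 |> Filter.nonempty_of_mem)

theorem IsLat.surj (h : IsLat L) (c : ℂ) : ∃ z, z ∉ L ∧ wp L z = c := by
  by_contra hcon
  push Not at hcon
  have h1 : Tendsto (fun z => (wp L z - c)⁻¹) (𝓝[≠] (0 : ℂ)) (𝓝 0) := by
    have h2 : Tendsto (fun z => wp L z - c) (𝓝[≠] (0 : ℂ)) (Bornology.cobounded ℂ) := by
      have h3 := h.tendsto (zero_mem L)
      rw [← tendsto_norm_atTop_iff_cobounded] at h3 ⊢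
      refine tendsto_atTop_mono (fun z => ?_) (tendsto_atTop_add_const_right _ (-‖c‖) h3)
      have := norm_sub_norm_le (wp L z) c
      linarith
    exact tendsto_inv₀_cobounded.comp h2
  have h4 : ∀ᶠ z in 𝓝[≠] (0 : ℂ), ‖(wp L z - c)⁻¹‖ ≤ 1 := by
    have h5 : Tendsto (fun z => ‖(wp L z - c)⁻¹‖) (𝓝[≠] (0 : ℂ)) (𝓝 0) := by
      simpa using h1.norm
    exact (h5.eventually (gt_mem_nhds zero_lt_one)).mono fun z hz => le_of_lt hz
  obtain ⟨d, hd⟩ := h.const_of_bounded (f := fun z => (wp L z - c)⁻¹)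
    (fun z hz => ((h.analyticOnNhd z hz).sub analyticAt_const).inv (sub_ne_zero.2 (hcon z hz)))
    (fun z l hl => by simp only [h.wp_add z hl]) h4
  have h6 : d = 0 := by
    refine tendsto_nhds_unique (f := fun _ : ℂ => d) (l := 𝓝[≠] (0 : ℂ)) tendsto_const_nhds
      (h1.congr' ?_)
    filter_upwards [h.compl_mem_nhdsNE 0] with z hz
    exact hd z hz
  obtain ⟨z, hz⟩ := h.exists_notMem
  have h7 := hd z hz
  rw [h6] at h7
  exact hcon z hz (sub_eq_zero.1 (inv_eq_zero.1 h7))

end Pool.Agent.Work.CM
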