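import Mathlib
import Pool.Agent.Work.CM.Bas2
import Pool.Agent.Work.CM.Sur
import Pool.Agent.Work.CM.Ratio

/-!
# Module ROF: the algebraic relation from the functional relation

`eq`: it is enough to show that the two sides agree at all `x` with `Q(x) ≠ 0` (infinitely many, so the
polynomials agree, `Polynomial.eq_of_infinite_eval_eq`). Given `x`, take `z ∉ L` with `wp L z = x`
(`IsLat.surj`). Then `m z ∉ L'`: otherwise for `y → z`, `y ≠ z`, `wp L' (m y) → ∞`
(`IsLat.tendsto` for `L'`) and `Q(wp L y) → Q(x) ≠ 0` but the product `P(wp L y)` is bounded. Near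
`z`: `wp L' (m y) = P(wp L y) / Q(wp L y)` (the set where `m y ∉ L'` is open); differentiate
(`IsLat.hasDerivAt`): `m wpd L' (m z) = R'(x) wpd L z`, `R'(x) = (P' Q - P Q')(x) / Q(x)^2`. Square, use
`IsLat.ode` for `L'` at `m z` and `L` at `z`, multiply by `Q(x)^4`.

`deg`: as `z → 0`, `z ≠ 0`: `wp L z → ∞`, `wp L' (m z) → ∞`, so `P(x)/Q(x) → ∞` along
`x = wp L z → ∞`; if `deg P ≤ deg Q` then `P(x)/Q(x)` is bounded as `x → ∞` (cobounded filter).
-/

set_option autoImplicit false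

namespace Pool.Agent.Work.CM

open Filter Topology Polynomial
open scoped Pointwise

variable {L L' : Submodule ℤ ℂ}

private theorem mul_nhdsNE {m : ℂ} (hm : m ≠ 0) (z : ℂ) :
    Tendsto (fun y => m * y) (𝓝[≠] z) (𝓝[≠] (m * z)) := by
  rw [tendsto_nhdsWithin_iff]
  constructor
  · have : Continuous fun y : ℂ => m * y := by fun_prop
    exact (this.tendsto z).mono_left nhdsWithin_le_nhds
  · filter_upwards [self_mem_nhdsWithin] with y hy hc
    exact hy (mul_left_cancel₀ hm hc)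

private theorem deg_of_fun (h : IsLat L) (h' : IsLat L') {m : ℂ} (hm : m ≠ 0) {P Q : ℂ[X]}
    (hQ : Q ≠ 0)
    (hf : ∀ z, m * z ∉ L' → Q.eval (wp L z) * wp L' (m * z) = P.eval (wp L z)) :
    Q.natDegree < P.natDegree := by
  by_contra hcon
  obtain ⟨c, hc⟩ := ratio_tendsto_of_le hQ (not_lt.1 hcon)
  have h1 : Tendsto (fun z => P.eval (wp L z) / Q.eval (wp L z)) (𝓝[≠] 0) (𝓝 c) :=
    hc.comp (h.tendsto (zero_mem L))
  have h0 : m * 0 ∈ L' := by
    rw [mul_zero]
    exact zero_mem L'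
  have h3 : Tendsto (fun y => wp L' (m * y)) (𝓝[≠] 0) (Bornology.cobounded ℂ) :=
    (h'.tendsto h0).comp (mul_nhdsNE hm 0)
  have h4 : (fun y => P.eval (wp L y) / Q.eval (wp L y)) =ᶠ[𝓝[≠] 0] fun y => wp L' (m * y) := by
    filter_upwards [(mul_nhdsNE hm 0).eventually (h'.compl_mem_nhdsNE (m * 0)),
      (h.tendsto (zero_mem L)).eventually (eventually_eval_ne hQ)] with y h5 h6
    rw [← hf y h5, mul_div_cancel_left₀ _ h6]
  exact h3.not_tendsto (Metric.disjoint_nhds_cobounded _).symm (h1.congr' h4)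

private theorem eq_of_fun (h : IsLat L) (h' : IsLat L') {m : ℂ} (hm : m ≠ 0) {P Q : ℂ[X]}
    (hf : ∀ z, m * z ∉ L' → Q.eval (wp L z) * wp L' (m * z) = P.eval (wp L z)) {x : ℂ}
    (hx : Q.eval x ≠ 0) :
    (C (m ^ 2) * (4 * P ^ 3 - C (g2 L') * P * Q ^ 2 - C (g3 L') * Q ^ 3) * Q).eval x =
    ((derivative P * Q - P * derivative Q) ^ 2 * (4 * X ^ 3 - C (g2 L) * X - C (g3 L))).eval x := by
  obtain ⟨z, hz, rfl⟩ := h.surj x
  have hpol : ∀ p : ℂ[X], ContinuousAt (fun z => p.eval (wp L z)) z := fun p =>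
    ContinuousAt.comp (g := fun x => p.eval x) p.continuous.continuousAt
      (h.analyticOnNhd z hz).continuousAt
  have hmz : m * z ∉ L' := by
    intro hmz
    have h1 : ContinuousAt (fun y => P.eval (wp L y) / Q.eval (wp L y)) z :=
      (hpol P).div (hpol Q) hx
    have h3 : Tendsto (fun y => wp L' (m * y)) (𝓝[≠] z) (Bornology.cobounded ℂ) :=
      (h'.tendsto hmz).comp (mul_nhdsNE hm z)
    have h4 : (fun y => P.eval (wp L y) / Q.eval (wp L y)) =ᶠ[𝓝[≠] z]
        fun y => wp L' (m * y) := by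
      filter_upwards [(mul_nhdsNE hm z).eventually (h'.compl_mem_nhdsNE (m * z)),
        nhdsWithin_le_nhds ((hpol Q).eventually_ne hx)] with y h6 h7
      rw [← hf y h6, mul_div_cancel_left₀ _ h7]
    have h5 : Tendsto (fun y => P.eval (wp L y) / Q.eval (wp L y)) (𝓝[≠] z)
        (𝓝 (P.eval (wp L z) / Q.eval (wp L z))) :=
      h1.tendsto.mono_left nhdsWithin_le_nhds
    exact h3.not_tendsto (Metric.disjoint_nhds_cobounded _).symm (h5.congr' h4)
  have hnear : ∀ᶠ y in 𝓝 z, m * y ∉ L' := by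
    have : Continuous fun y : ℂ => m * y := by fun_prop
    exact (this.tendsto z).eventually (h'.compl_mem_nhds hmz)
  have h1 := h.hasDerivAt hz
  have h2 : HasDerivAt (fun z => P.eval (wp L z)) ((derivative P).eval (wp L z) * wpd L z) z :=
    (P.hasDerivAt (wp L z)).comp z h1
  have h3 : HasDerivAt (fun z => Q.eval (wp L z)) ((derivative Q).eval (wp L z) * wpd L z) z :=
    (Q.hasDerivAt (wp L z)).comp z h1
  have hlin : HasDerivAt (fun z : ℂ => m * z) m z := by
    simpa using (hasDerivAt_id z).const_mul m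
  have h4 : HasDerivAt (fun z => wp L' (m * z)) (wpd L' (m * z) * m) z :=
    (h'.hasDerivAt hmz).comp z hlin
  have h5 : HasDerivAt (fun z => Q.eval (wp L z) * wp L' (m * z))
      ((derivative P).eval (wp L z) * wpd L z) z :=
    h2.congr_of_eventuallyEq (hnear.mono fun y hy => hf y hy)
  have h6 := h5.unique (h3.fun_mul h4)
  have h7 := hf z hmz
  have h8 := h.ode hz
  have h9 := h'.ode hmz
  simp only [eval_mul, eval_sub, eval_pow, eval_C, eval_X, eval_ofNat]
  rw [← h8]
  -- (P' Q - P Q') wpd = m Q^2 wpd'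
  have h10 : (eval (wp L z) (derivative P) * eval (wp L z) Q -
      eval (wp L z) P * eval (wp L z) (derivative Q)) * wpd L z =
      m * eval (wp L z) Q ^ 2 * wpd L' (m * z) := by
    rw [← h7]
    linear_combination eval (wp L z) Q * h6
  calc m ^ 2 * (4 * eval (wp L z) P ^ 3 - g2 L' * eval (wp L z) P * eval (wp L z) Q ^ 2 -
        g3 L' * eval (wp L z) Q ^ 3) * eval (wp L z) Q
      = (m * eval (wp L z) Q ^ 2 * wpd L' (m * z)) ^ 2 := by
        rw [mul_pow, h9, ← h7]
        ring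
    _ = _ := by
        rw [← h10]
        ring

theorem rel_of_fun (h : IsLat L) (h' : IsLat L') {m : ℂ} (hm : m ≠ 0)
    (hmap : ∀ l ∈ L, m * l ∈ L') {P Q : ℂ[X]} (hQ : Q ≠ 0)
    (hf : ∀ z, m * z ∉ L' → Q.eval (wp L z) * wp L' (m * z) = P.eval (wp L z)) :
    Rel m (g2 L) (g3 L) (g2 L') (g3 L') P Q := by
  refine ⟨hQ, deg_of_fun h h' hm hQ hf, ?_⟩
  refine Polynomial.eq_of_infinite_eval_eq _ _ ?_
  refine Set.Infinite.mono (s := {x | Q.eval x ≠ 0}) ?_ ?_
  · intro x hx
    exact eq_of_fun h h' hm hf hx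
  · have h1 : {x : ℂ | Q.eval x = 0}.Finite := by
      refine Set.Finite.subset Q.roots.toFinset.finite_toSet ?_
      intro x hx
      rw [Finset.mem_coe, Multiset.mem_toFinset, mem_roots hQ]
      exact hx
    exact h1.infinite_compl

end Pool.Agent.Work.CM
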