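import Mathlib
import Pool.Agent.Work.CM.Defs

/-!
# Module ODE: uniqueness for `y'' = A y^2 + B`

Let `h = f - g`, analytic at `z0`, with `h z0 = 0`, `h' z0 = 0` and `h'' = A (f + g) h` near `z0`.
The order of `h''` is the order of `h` minus 2 and at least the order of `h`, so the order is infinite.
-/

set_option autoImplicit false

namespace Pool.Agent.Work.CM

open Filter Topology Polynomial
open scoped Pointwise

variable {L L' : Submodule ℤ ℂ}

theorem ode_unique {A B : ℂ} {f g f' g' : ℂ → ℂ} {z0 : ℂ} (hf : AnalyticAt ℂ f z0)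
    (hg : AnalyticAt ℂ g z0) (hf1 : ∀ᶠ z in 𝓝 z0, HasDerivAt f (f' z) z)
    (hf2 : ∀ᶠ z in 𝓝 z0, HasDerivAt f' (A * f z ^ 2 + B) z)
    (hg1 : ∀ᶠ z in 𝓝 z0, HasDerivAt g (g' z) z)
    (hg2 : ∀ᶠ z in 𝓝 z0, HasDerivAt g' (A * g z ^ 2 + B) z)
    (h0 : f z0 = g z0) (h1 : f' z0 = g' z0) : f =ᶠ[𝓝 z0] g := by
  let h : ℂ → ℂ := fun z => f z - g z
  have hh : AnalyticAt ℂ h z0 := hf.sub hg
  have hh0 : h z0 = 0 := by simp [h, h0]
  have hd1 : deriv h =ᶠ[𝓝 z0] fun z => f' z - g' z := by
    filter_upwards [hf1, hg1] with z hz hz'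
    exact (hz.sub hz').deriv
  have hh1 : deriv h z0 = 0 := by
    rw [hd1.self_of_nhds]
    simp only [h1, sub_self]
  have hd2 : deriv (deriv h) =ᶠ[𝓝 z0] fun z => (A * (f z + g z)) * h z := by
    have h3 : deriv (deriv h) =ᶠ[𝓝 z0] deriv (fun z => f' z - g' z) := hd1.deriv
    filter_upwards [h3, hf2, hg2] with z hz hz1 hz2
    have h4 : deriv (fun z => f' z - g' z) z = (A * f z ^ 2 + B) - (A * g z ^ 2 + B) :=
      (hz1.sub hz2).deriv
    rw [hz, h4]
    simp only [h]
    ring
  have e1 : analyticOrderAt (deriv h) z0 + 1 = analyticOrderAt h z0 := by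
    have := hh.analyticOrderAt_deriv_add_one
    simpa [hh0] using this
  have e2 : analyticOrderAt (deriv (deriv h)) z0 + 1 = analyticOrderAt (deriv h) z0 := by
    have := hh.deriv.analyticOrderAt_deriv_add_one
    simpa [hh1] using this
  have e3 : analyticOrderAt (deriv (deriv h)) z0 =
      analyticOrderAt (fun z => A * (f z + g z)) z0 + analyticOrderAt h z0 := by
    rw [analyticOrderAt_congr hd2]
    exact analyticOrderAt_mul (analyticAt_const.mul (hf.add hg)) hh
  have e4 : analyticOrderAt h z0 = ⊤ := by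
    rw [e3, e1.symm] at e2
    by_contra hne
    have hne' : analyticOrderAt (deriv h) z0 ≠ ⊤ := by
      intro h'
      rw [h'] at e1
      exact hne (by rw [← e1]; rfl)
    obtain ⟨n, hn⟩ := ENat.ne_top_iff_exists.1 hne'
    rw [← hn] at e2
    cases hk : analyticOrderAt (fun z => A * (f z + g z)) z0 with
    | top => rw [hk] at e2; simp at e2
    | coe k =>
      rw [hk] at e2
      norm_cast at e2
      omega
  rw [analyticOrderAt_eq_top] at e4
  filter_upwards [e4] with z hz
  exact sub_eq_zero.1 hz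

end Pool.Agent.Work.CM
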