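import Mathlib
import Pool.Agent.Work.CM.Bas2
import Pool.Agent.Work.CM.Ode

/-!
# Module INJ: injectivity of the Weierstrass function up to sign, its critical points

* `eq_shift`: if `wp L z = wp L w` and `wpd L z = wpd L w` with `z, w ∉ L` then `z - w ∈ L`.
  The functions `u ↦ wp L (z + u)` and `u ↦ wp L (w + u)` satisfy `y'' = 6 y^2 - g2 / 2` near `0`
  (`IsLat.hasDerivAt`, `IsLat.hasDerivAt'`) with the same initial values, so they agree near `0`
  (`ode_unique`), so they agree off the countable set `(L - z) ∪ (L - w)` (`ident`). For `u` near `-z`,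
  `u ≠ -z`, the first one tends to infinity (`IsLat.tendsto` at `0`), so `w - z ∈ L`, otherwise the
  second one is continuous at `-z`.
* `inj`: `wpd L z ^ 2 = wpd L w ^ 2` by `IsLat.ode`, so `wpd L z = ± wpd L w`; use `eq_shift` for
  `(z, w)` or `(z, -w)`.
* `crit`: if `wpd L z = 0` then `wp L z = wp L (-z)`, `wpd L z = wpd L (-z)`; `eq_shift` gives
  `2 z ∈ L`. Conversely `wpd_half`: `wpd L z = wpd L (z - 2 z) = wpd L (-z) = - wpd L z`.
* `nondeg`: if `wpd L z = 0` and `6 wp L z ^ 2 - g2 L / 2 = 0` then the constant function `wp L z`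
  satisfies the same equation with the same initial values, so `wp L` is constant near `z`
  (`ode_unique`), against `IsLat.not_const`.
-/

set_option autoImplicit false

namespace Pool.Agent.Work.CM

open Filter Topology Polynomial
open scoped Pointwise

variable {L L' : Submodule ℤ ℂ}

private theorem countable_shift (h : IsLat L) (z : ℂ) : {u : ℂ | z + u ∈ L}.Countable :=
  h.countable.preimage (add_right_injective z)

private theorem analytic_shift (h : IsLat L) {z u : ℂ} (hu : z + u ∉ L) :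
    AnalyticAt ℂ (fun u => wp L (z + u)) u :=
  AnalyticAt.fun_comp (g := wp L) (f := fun u => z + u) (h.analyticOnNhd (z + u) hu) (by fun_prop)

private theorem near_shift (h : IsLat L) {z : ℂ} (hz : z ∉ L) : ∀ᶠ u in 𝓝 (0 : ℂ), z + u ∉ L := by
  have h1 : Tendsto (fun u : ℂ => z + u) (𝓝 0) (𝓝 z) := by
    have : Continuous fun u : ℂ => z + u := by fun_prop
    simpa using this.tendsto 0
  exact h1.eventually (h.compl_mem_nhds hz)

theorem IsLat.eq_shift (h : IsLat L) {z w : ℂ} (hz : z ∉ L) (hw : w ∉ L) (h0 : wp L z = wp L w)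
    (h1 : wpd L z = wpd L w) : z - w ∈ L := by
  by_contra hzw
  have hde : ∀ {a : ℂ}, a ∉ L → ∀ᶠ u in 𝓝 (0 : ℂ),
      HasDerivAt (fun u => wp L (a + u)) (wpd L (a + u)) u := by
    intro a ha
    filter_upwards [near_shift h ha] with u hu
    exact HasDerivAt.comp_const_add a u (h.hasDerivAt hu)
  have hde2 : ∀ {a : ℂ}, a ∉ L → ∀ᶠ u in 𝓝 (0 : ℂ),
      HasDerivAt (fun u => wpd L (a + u)) (6 * wp L (a + u) ^ 2 + (- g2 L / 2)) u := by
    intro a ha
    filter_upwards [near_shift h ha] with u hu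
    have h2 := HasDerivAt.comp_const_add a u (h.hasDerivAt' hu)
    have h3 : 6 * wp L (a + u) ^ 2 + (- g2 L / 2) = 6 * wp L (a + u) ^ 2 - g2 L / 2 := by ring
    rw [h3]
    exact h2
  have hloc : (fun u => wp L (z + u)) =ᶠ[𝓝 (0 : ℂ)] fun u => wp L (w + u) :=
    ode_unique (analytic_shift h (by simpa using hz)) (analytic_shift h (by simpa using hw))
      (hde hz) (hde2 hz) (hde hw) (hde2 hw) (by simpa using h0) (by simpa using h1)
  have hS : ({u : ℂ | z + u ∈ L} ∪ {u : ℂ | w + u ∈ L}).Countable :=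
    (countable_shift h z).union (countable_shift h w)
  have hglob := ident hS (f := fun u => wp L (z + u)) (g := fun u => wp L (w + u))
    (fun u hu => analytic_shift h fun hc => hu (Or.inl hc))
    (fun u hu => analytic_shift h fun hc => hu (Or.inr hc))
    (z0 := 0) (by
      rintro (hc | hc)
      · exact hz (by simpa using hc)
      · exact hw (by simpa using hc)) hloc
  have hwz : w + -z ∉ L := by
    intro hc
    apply hzw
    have := neg_mem hc
    rwa [neg_add, neg_neg, add_comm, ← sub_eq_add_neg] at this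
  have ht1 : Tendsto (fun u : ℂ => z + u) (𝓝[≠] (-z)) (𝓝[≠] 0) := by
    rw [tendsto_nhdsWithin_iff]
    constructor
    · have : Continuous fun u : ℂ => z + u := by fun_prop
      have h2 := this.tendsto (-z)
      rw [add_neg_cancel] at h2
      exact h2.mono_left nhdsWithin_le_nhds
    · filter_upwards [self_mem_nhdsWithin] with u hu hc
      apply hu
      have : z + u = 0 := hc
      exact eq_neg_of_add_eq_zero_right this
  have ht2 : Tendsto (fun u : ℂ => wp L (z + u)) (𝓝[≠] (-z)) (Bornology.cobounded ℂ) :=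
    (h.tendsto (zero_mem L)).comp ht1
  have ht3 : Tendsto (fun u : ℂ => wp L (w + u)) (𝓝[≠] (-z)) (𝓝 (wp L (w + -z))) :=
    ((analytic_shift h hwz).continuousAt.tendsto).mono_left nhdsWithin_le_nhds
  have hev : (fun u : ℂ => wp L (z + u)) =ᶠ[𝓝[≠] (-z)] fun u => wp L (w + u) := by
    have h2 : ∀ᶠ u in 𝓝[≠] (-z), z + u ∉ L := ht1.eventually (h.compl_mem_nhdsNE 0)
    have h3 : ∀ᶠ u in 𝓝[≠] (-z), w + u ∉ L := by
      have hc : Continuous fun u : ℂ => w + u := by fun_prop
      exact ((hc.tendsto (-z)).mono_left nhdsWithin_le_nhds).eventually (h.compl_mem_nhds hwz)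
    filter_upwards [h2, h3] with u hu1 hu2
    apply hglob
    rintro (hc | hc)
    · exact hu1 hc
    · exact hu2 hc
  have ht4 := ht3.congr' hev.symm
  exact ht2.not_tendsto (Metric.disjoint_nhds_cobounded _).symm ht4

theorem IsLat.inj (h : IsLat L) {z w : ℂ} (hz : z ∉ L) (hw : w ∉ L) (h0 : wp L z = wp L w) :
    z - w ∈ L ∨ z + w ∈ L := by
  have h1 : wpd L z ^ 2 = wpd L w ^ 2 := by rw [h.ode hz, h.ode hw, h0]
  rcases sq_eq_sq_iff_eq_or_eq_neg.1 h1 with h2 | h2
  · exact Or.inl (h.eq_shift hz hw h0 h2)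
  · right
    have hw' : -w ∉ L := fun hc => hw (by simpa using neg_mem hc)
    have h3 := h.eq_shift hz hw' (by rw [h0, h.wp_neg]) (by rw [h2, h.wpd_neg])
    rwa [sub_neg_eq_add] at h3

theorem IsLat.crit (h : IsLat L) {z : ℂ} (hz : z ∉ L) (h0 : wpd L z = 0) : 2 * z ∈ L := by
  have hz' : -z ∉ L := fun hc => hz (by simpa using neg_mem hc)
  have h3 := h.eq_shift hz hz' (by rw [h.wp_neg]) (by rw [h.wpd_neg, h0, neg_zero])
  rwa [sub_neg_eq_add, ← two_mul] at h3

theorem IsLat.wpd_half (h : IsLat L) {z : ℂ} (hz : 2 * z ∈ L) : wpd L z = 0 := by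
  have h1 := h.wpd_add (-z) hz
  rw [show -z + 2 * z = z by ring, h.wpd_neg] at h1
  have h2 : (2 : ℂ) * wpd L z = 0 := by linear_combination h1
  rcases mul_eq_zero.1 h2 with h3 | h3
  · exact absurd h3 two_ne_zero
  · exact h3

theorem IsLat.nondeg (h : IsLat L) {z : ℂ} (hz : z ∉ L) (h0 : wpd L z = 0) :
    6 * wp L z ^ 2 - g2 L / 2 ≠ 0 := by
  intro h1
  apply h.not_const hz (wp L z)
  have hnear : ∀ᶠ u in 𝓝 z, u ∉ L := h.compl_mem_nhds hz
  refine ode_unique (A := 6) (B := - g2 L / 2) (f' := wpd L) (g' := fun _ => 0)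
    (h.analyticOnNhd z hz) analyticAt_const ?_ ?_ ?_ ?_ rfl h0
  · filter_upwards [hnear] with u hu
    exact h.hasDerivAt hu
  · filter_upwards [hnear] with u hu
    have h3 : 6 * wp L u ^ 2 + (- g2 L / 2) = 6 * wp L u ^ 2 - g2 L / 2 := by ring
    rw [h3]
    exact h.hasDerivAt' hu
  · exact Eventually.of_forall fun u => hasDerivAt_const u _
  · refine Eventually.of_forall fun u => ?_
    have h3 : 6 * wp L z ^ 2 + (- g2 L / 2) = 0 := by linear_combination h1
    show HasDerivAt (fun _ => (0 : ℂ)) (6 * wp L z ^ 2 + (- g2 L / 2)) u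
    rw [h3]
    exact hasDerivAt_const u (0 : ℂ)

end Pool.Agent.Work.CM
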