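import Mathlib
import Pool.Agent.Work.CM.Inj

/-!
# Module TW1: sublattices of index two

`z ∈ L'`, `z ∉ L`. `two_mem`: `u` from `h.ex`; apply `h.ex` to `u + u`: if `2u ∉ L` then
`2u - u = u ∈ L`, no; so `2u ∈ L`, and `z - u ∈ L` gives `2z ∈ L`. `ev_eq`: two points of `L'` not in `L`
differ by an element of `L` (`IsLat.wp_add`); `Classical.epsilon_spec`. `wpd_eq`: `IsLat.wpd_half`.
`cubic`: `IsLat.ode`. `ne0`: `IsLat.nondeg`.
-/

set_option autoImplicit false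

namespace Pool.Agent.Work.CM

open Filter Topology Polynomial
open scoped Pointwise

variable {L L' : Submodule ℤ ℂ}

theorem Two.two_mem (h : Two L L') {z : ℂ} (hz : z ∈ L') : 2 * z ∈ L := by
  obtain ⟨u, hu, hu', hx⟩ := h.ex
  have h2u : u + u ∈ L := by
    rcases hx (u + u) (add_mem hu hu) with h1 | h1
    · exact h1
    · exact absurd (by simpa using h1) hu'
  rcases hx z hz with h1 | h1
  · rw [two_mul]
    exact add_mem h1 h1
  · have h3 := add_mem (add_mem h1 h1) h2u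
    have h4 : 2 * z = z - u + (z - u) + (u + u) := by ring
    rw [h4]
    exact h3

theorem Two.sub_mem (h : Two L L') {z w : ℂ} (hz : z ∈ L') (hz' : z ∉ L) (hw : w ∈ L')
    (hw' : w ∉ L) : z - w ∈ L := by
  obtain ⟨u, hu, hu', hx⟩ := h.ex
  have h1 := (hx z hz).resolve_left hz'
  have h2 := (hx w hw).resolve_left hw'
  have h3 : z - w = (z - u) - (w - u) := by ring
  rw [h3]
  exact _root_.sub_mem h1 h2

theorem Two.ev_eq (h : Two L L') {z : ℂ} (hz : z ∈ L') (hz' : z ∉ L) : wp L z = ev L L' := by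
  have h1 : (Classical.epsilon fun z => z ∈ L' ∧ z ∉ L) ∈ L' ∧
      (Classical.epsilon fun z => z ∈ L' ∧ z ∉ L) ∉ L :=
    Classical.epsilon_spec (p := fun z => z ∈ L' ∧ z ∉ L) ⟨z, hz, hz'⟩
  unfold ev
  have h2 := h.sub_mem hz hz' h1.1 h1.2
  rw [← h.lat.wp_add (Classical.epsilon fun z => z ∈ L' ∧ z ∉ L) h2]
  congr 1
  ring

theorem Two.wpd_eq (h : Two L L') {z : ℂ} (hz : z ∈ L') (hz' : z ∉ L) : wpd L z = 0 :=
  h.lat.wpd_half (h.two_mem hz)

theorem Two.cubic (h : Two L L') : 4 * ev L L' ^ 3 - g2 L * ev L L' - g3 L = 0 := by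
  obtain ⟨u, hu, hu', hx⟩ := h.ex
  rw [← h.ev_eq hu hu', ← h.lat.ode hu', h.wpd_eq hu hu']
  ring

theorem Two.ne0 (h : Two L L') : 12 * ev L L' ^ 2 - g2 L ≠ 0 := by
  obtain ⟨u, hu, hu', hx⟩ := h.ex
  intro h0
  refine h.lat.nondeg hu' (h.wpd_eq hu hu') ?_
  rw [h.ev_eq hu hu']
  linear_combination h0 / 2

end Pool.Agent.Work.CM
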