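import Mathlib
import Pool.Agent.Work.CM.Tw1
import Pool.Agent.Work.CM.Lio
import Pool.Agent.Work.CM.Rof

/-!
# Module TW2: the isogeny of degree two

`u ∈ L'`, `u ∉ L`, `e = ev L L' = wp L u`, `c = 3 e^2 - g2 L / 4`.

* `wp_ne`: `z ∉ L'`: if `wp L z = e = wp L u` then `z - u ∈ L` or `z + u ∈ L` (`IsLat.inj`), so `z ∈ L'`.
* `translate`: for `z ∉ L'`: `(wp L (z + u) - e) (wp L z - e) = c`. The function
  `f z = (wp L (z + u) - e) (wp L z - e)` is `L`-periodic and even (`2u ∈ L`), analytic off `L'`; near `0`: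
  `wp L z - e = 1/z^2 + O(1)` and `wp L (z + u) - e = (wp'' (u) / 2) z^2 + O(z^3)` with
  `wp''(u) = 6 e^2 - g2 L / 2 = 2 c` (`IsLat.hasDerivAt'`, `Two.wpd_eq`), so `f → c` at `0`; `f` is
  symmetric: `f (z + u) = f z`, so it is periodic for `L'` and bounded near `0`: constant off `L'` by
  `IsLat.const_of_bounded` (for the lattice `L'`).
* `wp_eq`: `g z = wp L' z - wp L z - wp L (z + u) + e` (`z ∉ L'`) is periodic for `L'`, analytic off `L'`,
  and tends to `0` at `0` (`IsLat.exists_local` for `L` and `L'`), so it is `0` off `L'`. With `translate`: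
  `wp L (z + u) - e = c / (wp L z - e)`.
* `rel`: `rel_of_fun` with `m = 1`.
-/

set_option autoImplicit false

namespace Pool.Agent.Work.CM

open Filter Topology Polynomial
open scoped Pointwise

variable {L L' : Submodule ℤ ℂ}

/-- second order expansion at a zero of order two -/
private theorem tw2_lim {g : ℂ → ℂ} (hg : AnalyticAt ℂ g 0) (h0 : g 0 = 0) (h1 : deriv g 0 = 0)
    {c : ℂ} (h2 : HasDerivAt (deriv g) (2 * c) 0) :
    Tendsto (fun z => g z / z ^ 2) (𝓝[≠] 0) (𝓝 c) := by
  obtain ⟨p, hp⟩ := hg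
  set h := dslope g 0 with hh
  have hha : AnalyticAt ℂ h 0 := ⟨_, hp.has_fpower_series_dslope_fslope⟩
  have hgz : ∀ z, g z = z * h z := by
    intro z
    have h3 := sub_smul_dslope g 0 z
    rw [h0, sub_zero, sub_zero, smul_eq_mul] at h3
    exact h3.symm
  have hh0 : h 0 = 0 := by rw [hh, dslope_same, h1]
  have hd : deriv g =ᶠ[𝓝 0] fun z => h z + z * deriv h z := by
    filter_upwards [hha.eventually_analyticAt] with z hz
    have h4 : HasDerivAt (fun z => z * h z) (1 * h z + z * deriv h z) z :=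
      (hasDerivAt_id z).mul hz.differentiableAt.hasDerivAt
    have h5 : g = fun z => z * h z := funext hgz
    rw [h5, h4.deriv, one_mul]
  have hd2 : HasDerivAt (fun z => h z + z * deriv h z) (2 * deriv h 0) 0 := by
    have h6 : HasDerivAt (fun z => z * deriv h z) (1 * deriv h 0 + 0 * deriv (deriv h) 0) 0 :=
      (hasDerivAt_id (0 : ℂ)).mul hha.deriv.differentiableAt.hasDerivAt
    exact (hha.differentiableAt.hasDerivAt.fun_add h6).congr_deriv (by ring)
  have hc : deriv h 0 = c := by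
    have h8 := (h2.congr_of_eventuallyEq hd.symm).unique hd2
    have h9 := mul_left_cancel₀ two_ne_zero h8
    exact h9.symm
  have hs := hasDerivAt_iff_tendsto_slope.1 hha.differentiableAt.hasDerivAt
  rw [hc] at hs
  refine hs.congr' ?_
  filter_upwards [self_mem_nhdsWithin] with z hz
  have hz' : z ≠ 0 := hz
  rw [slope_def_field, hh0, hgz z]
  field_simp
  ring

theorem Two.wp_ne (h : Two L L') {z : ℂ} (hz : z ∉ L') : wp L z ≠ ev L L' := by
  obtain ⟨u, hu, hu', -⟩ := h.ex
  intro h0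
  rw [← h.ev_eq hu hu'] at h0
  have hz' : z ∉ L := fun h1 => hz (h.le h1)
  rcases h.lat.inj hz' hu' h0 with h1 | h1
  · exact hz (by simpa using add_mem (h.le h1) hu)
  · exact hz (by simpa using _root_.sub_mem (h.le h1) hu)

/-- the translate of the Weierstrass function is periodic in the same way -/
private theorem tw2_per (h : Two L L') {u : ℂ} (hu : u ∈ L') (hu' : u ∉ L) (z : ℂ) {l : ℂ}
    (hl : l ∈ L') : (wp L (z + l) = wp L z ∧ wp L (z + l + u) = wp L (z + u)) ∨
      (wp L (z + l) = wp L (z + u) ∧ wp L (z + l + u) = wp L z) := by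
  by_cases hl' : l ∈ L
  · left
    refine ⟨h.lat.wp_add z hl', ?_⟩
    have h1 : z + l + u = z + u + l := by ring
    rw [h1, h.lat.wp_add _ hl']
  · right
    have h1 := h.sub_mem hl hl' hu hu'
    have h2 := h.two_mem hu
    refine ⟨?_, ?_⟩
    · have h3 : z + l = z + u + (l - u) := by ring
      rw [h3, h.lat.wp_add _ h1]
    · have h3 : z + l + u = z + (l - u + 2 * u) := by ring
      rw [h3, h.lat.wp_add _ (add_mem h1 h2)]

private theorem tw2_shift (h : Two L L') {u : ℂ} (hu : u ∈ L') {z : ℂ} (hz : z ∉ L') :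
    z ∉ L ∧ z + u ∉ L := by
  refine ⟨fun h1 => hz (h.le h1), fun h1 => hz ?_⟩
  simpa using _root_.sub_mem (h.le h1) hu

private theorem tw2_an (h : Two L L') {u : ℂ} (hu : u ∈ L') {z : ℂ} (hz : z ∉ L') :
    AnalyticAt ℂ (wp L) z ∧ AnalyticAt ℂ (fun z => wp L (z + u)) z := by
  obtain ⟨h1, h2⟩ := tw2_shift h hu hz
  refine ⟨h.lat.analyticOnNhd z h1, ?_⟩
  exact AnalyticAt.fun_comp (g := wp L) (f := fun z => z + u) (h.lat.analyticOnNhd (z + u) h2)
    (by fun_prop)

private theorem tw2_g (h : Two L L') {u : ℂ} (hu : u ∈ L') (hu' : u ∉ L) :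
    AnalyticAt ℂ (fun z => wp L (z + u) - ev L L') 0 ∧
    Tendsto (fun z => (wp L (z + u) - ev L L') / z ^ 2) (𝓝[≠] 0)
      (𝓝 (3 * ev L L' ^ 2 - g2 L / 4)) := by
  have hd : ∀ z, z + u ∉ L → HasDerivAt (fun z => wp L (z + u) - ev L L') (wpd L (z + u)) z := by
    intro z hz
    exact ((h.lat.hasDerivAt hz).comp_add_const z u).sub_const _
  have hnear : ∀ᶠ z in 𝓝 (0 : ℂ), z + u ∉ L := by
    have h1 : Tendsto (fun z : ℂ => z + u) (𝓝 0) (𝓝 u) := by
      have h2 : Continuous fun z : ℂ => z + u := by fun_prop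
      simpa using h2.tendsto 0
    exact h1.eventually (h.lat.compl_mem_nhds hu')
  have hg : AnalyticAt ℂ (fun z => wp L (z + u) - ev L L') 0 := by
    have h3 : AnalyticAt ℂ (fun z => wp L (z + u)) 0 :=
      AnalyticAt.fun_comp (g := wp L) (f := fun z => z + u)
        (by simpa using h.lat.analyticOnNhd u hu') (by fun_prop)
    exact h3.sub analyticAt_const
  refine ⟨hg, tw2_lim hg ?_ ?_ ?_⟩
  · show wp L (0 + u) - ev L L' = 0
    rw [zero_add, h.ev_eq hu hu', sub_self]
  · rw [(hd 0 (by simpa using hu')).deriv, zero_add, h.wpd_eq hu hu']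
  · have h4 : deriv (fun z => wp L (z + u) - ev L L') =ᶠ[𝓝 0] fun z => wpd L (z + u) := by
      filter_upwards [hnear] with z hz
      exact (hd z hz).deriv
    have h5 : HasDerivAt (fun z => wpd L (z + u)) (6 * wp L u ^ 2 - g2 L / 2) 0 := by
      have h6 := h.lat.hasDerivAt' hu'
      have h7 : HasDerivAt (wpd L) (6 * wp L u ^ 2 - g2 L / 2) (0 + u) := by simpa using h6
      exact h7.comp_add_const 0 u
    have h8 := h5.congr_of_eventuallyEq h4
    rw [h.ev_eq hu hu'] at h8
    exact h8.congr_deriv (by ring)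

theorem Two.translate (h : Two L L') {u : ℂ} (hu : u ∈ L') (hu' : u ∉ L) {z : ℂ} (hz : z ∉ L') :
    (wp L (z + u) - ev L L') * (wp L z - ev L L') = 3 * ev L L' ^ 2 - g2 L / 4 := by
  obtain ⟨hga, hgl⟩ := tw2_g h hu hu'
  obtain ⟨φ, hφ, hφ0, hφz⟩ := h.lat.exists_local
  have hlim : Tendsto (fun z => (wp L (z + u) - ev L L') * (wp L z - ev L L')) (𝓝[≠] 0)
      (𝓝 (3 * ev L L' ^ 2 - g2 L / 4)) := by
    have h1 : Tendsto (fun z => 1 + z ^ 2 * (φ z - ev L L')) (𝓝[≠] 0) (𝓝 1) := by
      have h2 : ContinuousAt (fun z => 1 + z ^ 2 * (φ z - ev L L')) 0 := by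
        have := hφ.continuousAt
        fun_prop
      have h3 := h2.tendsto
      simp only [ne_eq, OfNat.ofNat_ne_zero, not_false_eq_true, zero_pow, zero_mul, add_zero] at h3
      exact h3.mono_left nhdsWithin_le_nhds
    have h4 := hgl.mul h1
    rw [mul_one] at h4
    refine h4.congr' ?_
    filter_upwards [self_mem_nhdsWithin] with z hz
    have hz' : z ≠ 0 := hz
    rw [hφz z]
    field_simp
    ring
  obtain ⟨K, hK⟩ := h.lat'.const_of_bounded
    (f := fun z => (wp L (z + u) - ev L L') * (wp L z - ev L L'))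
    (fun z hz => ((tw2_an h hu hz).2.sub analyticAt_const).mul
      ((tw2_an h hu hz).1.sub analyticAt_const))
    (fun z l hl => by
      show (wp L (z + l + u) - ev L L') * (wp L (z + l) - ev L L') = _
      rcases tw2_per h hu hu' z hl with ⟨h1, h2⟩ | ⟨h1, h2⟩
      · rw [h1, h2]
      · rw [h1, h2, mul_comm])
    (C := ‖3 * ev L L' ^ 2 - g2 L / 4‖ + 1)
    (by
      have h5 := hlim.norm.eventually (eventually_lt_nhds (lt_add_one _))
      filter_upwards [h5] with z hz using hz.le)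
  have hKc : K = 3 * ev L L' ^ 2 - g2 L / 4 := by
    refine tendsto_nhds_unique ?_ hlim
    refine Tendsto.congr' ?_ tendsto_const_nhds
    filter_upwards [h.lat'.compl_mem_nhdsNE 0] with z hz
    exact (hK z hz).symm
  rw [← hKc]
  exact hK z hz

theorem Two.wp_eq (h : Two L L') {z : ℂ} (hz : z ∉ L') :
    wp L' z = wp L z + (3 * ev L L' ^ 2 - g2 L / 4) / (wp L z - ev L L') := by
  obtain ⟨u, hu, hu', -⟩ := h.ex
  obtain ⟨hga, -⟩ := tw2_g h hu hu'
  obtain ⟨φ, hφ, hφ0, hφz⟩ := h.lat.exists_local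
  obtain ⟨ψ, hψ, hψ0, hψz⟩ := h.lat'.exists_local
  have hlim : Tendsto (fun z => wp L' z - wp L z - (wp L (z + u) - ev L L')) (𝓝[≠] 0) (𝓝 0) := by
    have h2 : ContinuousAt (fun z => ψ z - φ z - (wp L (z + u) - ev L L')) 0 :=
      (hψ.continuousAt.sub hφ.continuousAt).sub hga.continuousAt
    have h3 := h2.tendsto
    simp only [hψ0, hφ0, zero_add, h.ev_eq hu hu', sub_self] at h3
    refine (h3.mono_left nhdsWithin_le_nhds).congr fun z => ?_
    rw [hφz z, hψz z]
    ring
  obtain ⟨K, hK⟩ := h.lat'.const_of_bounded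
    (f := fun z => wp L' z - wp L z - (wp L (z + u) - ev L L'))
    (fun z hz => ((h.lat'.analyticOnNhd z hz).sub (tw2_an h hu hz).1).sub
      ((tw2_an h hu hz).2.sub analyticAt_const))
    (fun z l hl => by
      show wp L' (z + l) - wp L (z + l) - (wp L (z + l + u) - ev L L') = _
      rw [h.lat'.wp_add z hl]
      rcases tw2_per h hu hu' z hl with ⟨h1, h2⟩ | ⟨h1, h2⟩
      · rw [h1, h2]
      · rw [h1, h2]
        ring)
    (C := 1)
    (by
      have h5 := hlim.norm.eventually (eventually_lt_nhds (b := (1 : ℝ)) (by simp))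
      filter_upwards [h5] with z hz using hz.le)
  have hKc : K = 0 := by
    refine tendsto_nhds_unique ?_ hlim
    refine Tendsto.congr' ?_ tendsto_const_nhds
    filter_upwards [h.lat'.compl_mem_nhdsNE 0] with z hz
    exact (hK z hz).symm
  have h6 := hK z hz
  rw [hKc] at h6
  have h6' : wp L' z - wp L z - (wp L (z + u) - ev L L') = 0 := h6
  have h7 := h.translate hu hu' hz
  have h8 : wp L z - ev L L' ≠ 0 := sub_ne_zero.2 (h.wp_ne hz)
  rw [← h7, mul_div_assoc, div_self h8, mul_one]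
  linear_combination h6'

theorem Two.rel (h : Two L L') : Rel 1 (g2 L) (g3 L) (g2 L') (g3 L')
    (X ^ 2 - C (ev L L') * X + C (3 * ev L L' ^ 2 - g2 L / 4)) (X - C (ev L L')) := by
  refine rel_of_fun h.lat h.lat' one_ne_zero (fun l hl => by rw [one_mul]; exact h.le hl)
    (X_sub_C_ne_zero _) fun z hz => ?_
  rw [one_mul] at hz
  rw [one_mul, h.wp_eq hz]
  have h8 : wp L z - ev L L' ≠ 0 := sub_ne_zero.2 (h.wp_ne hz)
  simp only [eval_sub, eval_X, eval_C, eval_add, eval_mul, eval_pow]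
  field_simp

end Pool.Agent.Work.CM
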