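import Mathlib
import Pool.Agent.Work.CM.Tw2
import Pool.Agent.Work.CM.Hom

/-!
# Module TW4: the dual isogeny, and the next one

* `Two.half_two`: `L' ≤ half L` since `2 L' ≤ L` (`Two.two_mem`); `half L` modulo `L` is a Klein four
  group (`IsLat.quad`).
* `Two.ev_half`: let `y ∈ half L`, `y ∉ L'`, `u ∈ L'`, `u ∉ L`. `e = ev L L' = wp L u`, `e2 = wp L y`,
  `e3 = wp L (y + u)` are three different (`IsLat.inj`) roots of `4 X^3 - g2 X - g3` (`IsLat.ode`,
  `IsLat.wpd_half`), so `e + e2 + e3 = 0`; `wp L' y = wp L y + wp L (y + u) - e = -2 e` (`Two.wp_eq`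
  and `Two.translate`), and `Two.ev_eq` for `L' ≤ half L`.
* `Two.next`: `z ∈ L''`, `z ∉ L'`, `X = wp L z`, `c = 3 e^2 - g2 L / 4`. `wp L' z = X + c / (X - e)`
  (`Two.wp_eq`); differentiate this formula at `z` (it holds on the open set `L'ᶜ`):
  `wpd L' z = wpd L z (1 - c / (X - e)^2)`, and `wpd L' z = 0` (`Two.wpd_eq`). If `wpd L z = 0` then
  `2 z ∈ L` (`IsLat.crit`), `z ∈ half L`, and `L'' = half L`. So `(X - e)^2 = c`,
  `ev L' L'' - e = (X - e) + c / (X - e) = 2 (X - e)`, and the square is `4 c`.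
-/

set_option autoImplicit false

namespace Pool.Agent.Work.CM

open Filter Topology Polynomial
open scoped Pointwise

variable {L L' : Submodule ℤ ℂ}

theorem mem_half {z : ℂ} : z ∈ half L ↔ 2 * z ∈ L := by
  have h := mem_smul_iff (L := L) (m := (2 : ℂ)⁻¹) (by norm_num) (z := 2 * z)
  rw [← mul_assoc, inv_mul_cancel₀ two_ne_zero, one_mul] at h
  exact h

private theorem tw4_mem2 {z w : ℂ} (h : z - w ∈ L) (hw : w ∈ L) : z ∈ L := by
  simpa using add_mem h hw

/-- the half lattice modulo the lattice is a Klein four group -/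
theorem IsLat.quad0 (h : IsLat L) : ∃ p q : ℂ, p ∈ half L ∧ q ∈ half L ∧ p ∉ L ∧ q ∉ L ∧
    p + q ∉ L ∧ ∀ z ∈ half L, z ∈ L ∨ z - p ∈ L ∨ z - q ∈ L ∨ z - (p + q) ∈ L := by
  obtain ⟨P, rfl⟩ := h
  have hind : ∀ a b : ℤ, (a : ℂ) * P.ω₁ + b * P.ω₂ = 0 → a = 0 ∧ b = 0 := by
    intro a b hab
    have h1 : (a : ℝ) • P.ω₁ + (b : ℝ) • P.ω₂ = 0 := by
      simpa [Complex.real_smul] using hab
    obtain ⟨h2, h3⟩ := LinearIndependent.pair_iff.1 P.indep a b h1
    exact ⟨by exact_mod_cast h2, by exact_mod_cast h3⟩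
  have hmem : ∀ a b : ℤ, ((a : ℂ) * P.ω₁ + b * P.ω₂) / 2 ∈ P.lattice → 2 ∣ a ∧ 2 ∣ b := by
    intro a b hab
    obtain ⟨c, d, hcd⟩ := PeriodPair.mem_lattice.1 hab
    have h1 : ((a - 2 * c : ℤ) : ℂ) * P.ω₁ + ((b - 2 * d : ℤ) : ℂ) * P.ω₂ = 0 := by
      push_cast
      linear_combination (-2) * hcd
    obtain ⟨h2, h3⟩ := hind _ _ h1
    exact ⟨⟨c, by omega⟩, ⟨d, by omega⟩⟩
  refine ⟨P.ω₁ / 2, P.ω₂ / 2, ?_, ?_, ?_, ?_, ?_, ?_⟩
  · exact mem_half.2 (PeriodPair.mem_lattice.2 ⟨1, 0, by push_cast; ring⟩)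
  · exact mem_half.2 (PeriodPair.mem_lattice.2 ⟨0, 1, by push_cast; ring⟩)
  · intro hm
    have := hmem 1 0 (by convert hm using 1; push_cast; ring)
    omega
  · intro hm
    have := hmem 0 1 (by convert hm using 1; push_cast; ring)
    omega
  · intro hm
    have := hmem 1 1 (by convert hm using 1; push_cast; ring)
    omega
  · intro z hz
    obtain ⟨a, b, hab⟩ := PeriodPair.mem_lattice.1 (mem_half.1 hz)
    obtain ⟨a', ha'⟩ := Int.even_or_odd' a
    obtain ⟨b', hb'⟩ := Int.even_or_odd' b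
    rcases ha' with ha' | ha' <;> rcases hb' with hb' | hb' <;> subst ha' <;> subst hb' <;>
      push_cast at hab
    · left
      exact PeriodPair.mem_lattice.2 ⟨a', b', by linear_combination hab / 2⟩
    · right; right; left
      exact PeriodPair.mem_lattice.2 ⟨a', b', by linear_combination hab / 2⟩
    · right; left
      exact PeriodPair.mem_lattice.2 ⟨a', b', by linear_combination hab / 2⟩
    · right; right; right
      exact PeriodPair.mem_lattice.2 ⟨a', b', by linear_combination hab / 2⟩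

/-- the half lattice modulo the lattice is a Klein four group, with one given generator -/
theorem IsLat.quad (h : IsLat L) {w : ℂ} (hw : w ∈ half L) (hw' : w ∉ L) :
    ∃ v : ℂ, v ∈ half L ∧ v ∉ L ∧ v + w ∉ L ∧
      ∀ z ∈ half L, z ∈ L ∨ z - w ∈ L ∨ z - v ∈ L ∨ z - (v + w) ∈ L := by
  obtain ⟨p, q, hp, hq, hp', hq', hpq, hall⟩ := h.quad0
  have hp2 := mem_half.1 hp
  have hq2 := mem_half.1 hq
  have key : ∀ {a b : ℂ}, b ∈ L → a - b ∈ L → a ∈ L := fun hb hab => tw4_mem2 hab hb
  rcases hall w hw with h1 | h1 | h1 | h1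
  · exact absurd h1 hw'
  · refine ⟨q, hq, hq', fun h2 => hpq ?_, fun z hz => ?_⟩
    · have := sub_mem h2 h1
      have e : q + w - (w - p) = p + q := by ring
      rwa [e] at this
    · rcases hall z hz with h2 | h2 | h2 | h2
      · exact Or.inl h2
      · right; left
        have := sub_mem h2 h1
        have e : z - p - (w - p) = z - w := by ring
        rwa [e] at this
      · right; right; left
        exact h2
      · right; right; right
        have := sub_mem h2 h1
        have e : z - (p + q) - (w - p) = z - (q + w) := by ring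
        rwa [e] at this
  · refine ⟨p, hp, hp', fun h2 => hpq ?_, fun z hz => ?_⟩
    · have := sub_mem h2 h1
      have e : p + w - (w - q) = p + q := by ring
      rwa [e] at this
    · rcases hall z hz with h2 | h2 | h2 | h2
      · exact Or.inl h2
      · right; right; left
        exact h2
      · right; left
        have := sub_mem h2 h1
        have e : z - q - (w - q) = z - w := by ring
        rwa [e] at this
      · right; right; right
        have := sub_mem h2 h1
        have e : z - (p + q) - (w - q) = z - (p + w) := by ring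
        rwa [e] at this
  · refine ⟨p, hp, hp', fun h2 => hq' ?_, fun z hz => ?_⟩
    · have := sub_mem (sub_mem h2 h1) hp2
      have e : p + w - (w - (p + q)) - 2 * p = q := by ring
      rwa [e] at this
    · rcases hall z hz with h2 | h2 | h2 | h2
      · exact Or.inl h2
      · right; right; left
        exact h2
      · right; right; right
        have := sub_mem (sub_mem h2 h1) hp2
        have e : z - q - (w - (p + q)) - 2 * p = z - (p + w) := by ring
        rwa [e] at this
      · right; left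
        have := sub_mem h2 h1
        have e : z - (p + q) - (w - (p + q)) = z - w := by ring
        rwa [e] at this

theorem Two.half_two (h : Two L L') : Two L' (half L) := by
  obtain ⟨w, hw, hw', hx⟩ := h.ex
  obtain ⟨v, hv, hv', hvw, hall⟩ := h.lat.quad (mem_half.2 (h.two_mem hw)) hw'
  refine ⟨h.lat', h.lat.smul (by norm_num), fun z hz => mem_half.2 (h.two_mem hz), v, hv, ?_, ?_⟩
  · intro hvL
    apply hvw
    have h1 := add_mem (h.sub_mem hvL hv' hw hw') (h.two_mem hw)
    have e : v - w + 2 * w = v + w := by ring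
    rwa [e] at h1
  · intro z hz
    rcases hall z hz with h2 | h2 | h2 | h2
    · exact Or.inl (h.le h2)
    · exact Or.inl (tw4_mem2 (h.le h2) hw)
    · exact Or.inr (h.le h2)
    · right
      have := add_mem (h.le h2) hw
      have e : z - (v + w) + w = z - v := by ring
      rwa [e] at this

theorem Two.ev_half (h : Two L L') : ev L' (half L) = -2 * ev L L' := by
  obtain ⟨u, hu, hu', hx⟩ := h.ex
  have hh := h.half_two
  obtain ⟨v, hv, hv', hxv⟩ := hh.ex
  have hvL : v ∉ L := fun h1 => hv' (h.le h1)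
  have hvu' : v + u ∉ L' := fun h1 => hv' (by simpa using _root_.sub_mem h1 hu)
  have hvuL : v + u ∉ L := fun h1 => hvu' (h.le h1)
  have hvuh : v + u ∈ half L := add_mem hv (hh.le hu)
  have he : wp L u = ev L L' := h.ev_eq hu hu'
  have c1 : 4 * ev L L' ^ 3 - g2 L * ev L L' - g3 L = 0 := h.cubic
  have c2 : 4 * wp L v ^ 3 - g2 L * wp L v - g3 L = 0 := by
    rw [← h.lat.ode hvL, h.lat.wpd_half (mem_half.1 hv)]
    ring
  have c3 : 4 * wp L (v + u) ^ 3 - g2 L * wp L (v + u) - g3 L = 0 := by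
    rw [← h.lat.ode hvuL, h.lat.wpd_half (mem_half.1 hvuh)]
    ring
  have n1 : wp L v ≠ ev L L' := h.wp_ne hv'
  have n2 : wp L (v + u) ≠ ev L L' := h.wp_ne hvu'
  have n3 : wp L v ≠ wp L (v + u) := by
    intro h1
    rcases h.lat.inj hvL hvuL h1 with h2 | h2
    · have e : v - (v + u) = -u := by ring
      rw [e] at h2
      exact hu' (by simpa using h2)
    · have h3 := _root_.sub_mem h2 (mem_half.1 hv)
      have e : v + (v + u) - 2 * v = u := by ring
      rw [e] at h3
      exact hu' h3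
  have htr := h.translate hu hu' hv'
  have hwp := h.wp_eq hv'
  rw [← htr, mul_div_assoc, div_self (sub_ne_zero.2 n1), mul_one] at hwp
  rw [← hh.ev_eq hv hv', hwp]
  have s1 : 4 * (ev L L' ^ 2 + ev L L' * wp L v + wp L v ^ 2) - g2 L = 0 := by
    have : (wp L v - ev L L') * (4 * (ev L L' ^ 2 + ev L L' * wp L v + wp L v ^ 2) - g2 L) = 0 := by
      linear_combination c2 - c1
    exact (mul_eq_zero.1 this).resolve_left (sub_ne_zero.2 n1)
  have s2 : 4 * (ev L L' ^ 2 + ev L L' * wp L (v + u) + wp L (v + u) ^ 2) - g2 L = 0 := by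
    have : (wp L (v + u) - ev L L') *
        (4 * (ev L L' ^ 2 + ev L L' * wp L (v + u) + wp L (v + u) ^ 2) - g2 L) = 0 := by
      linear_combination c3 - c1
    exact (mul_eq_zero.1 this).resolve_left (sub_ne_zero.2 n2)
  have s3 : ev L L' + wp L v + wp L (v + u) = 0 := by
    have : (wp L v - wp L (v + u)) * (ev L L' + wp L v + wp L (v + u)) = 0 := by
      linear_combination (s1 - s2) / 4
    exact (mul_eq_zero.1 this).resolve_left (sub_ne_zero.2 n3)
  linear_combination s3

theorem Two.eq_of_mem {A B : Submodule ℤ ℂ} (hA : Two L A) (hB : Two L B) {z : ℂ} (hz : z ∈ A)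
    (hz' : z ∈ B) (hz0 : z ∉ L) : A = B := by
  have key : ∀ {A B : Submodule ℤ ℂ}, Two L A → Two L B → z ∈ A → z ∈ B → A ≤ B := by
    intro A B hA hB hz hz' a ha
    by_cases haL : a ∈ L
    · exact hB.le haL
    · exact tw4_mem2 (hB.le (hA.sub_mem ha haL hz hz0)) hz'
  exact le_antisymm (key hA hB hz hz') (key hB hA hz' hz)

theorem Two.next {L'' : Submodule ℤ ℂ} (h : Two L L') (h' : Two L' L'') (hne : L'' ≠ half L) :
    (ev L' L'' - ev L L') ^ 2 = 12 * ev L L' ^ 2 - g2 L := by
  obtain ⟨z, hz, hz', hx⟩ := h'.ex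
  have hzL : z ∉ L := fun h1 => hz' (h.le h1)
  have n1 : wp L z - ev L L' ≠ 0 := sub_ne_zero.2 (h.wp_ne hz')
  set e := ev L L' with he
  set c := 3 * e ^ 2 - g2 L / 4 with hc
  have hwp := h.wp_eq hz'
  have hd1 : HasDerivAt (wp L') (wpd L' z) z := h'.lat.hasDerivAt hz'
  have hd2 : HasDerivAt (fun w => wp L w + c / (wp L w - e))
      (wpd L z + (0 * (wp L z - e) - c * wpd L z) / (wp L z - e) ^ 2) z :=
    (h.lat.hasDerivAt hzL).fun_add
      ((hasDerivAt_const z c).fun_div ((h.lat.hasDerivAt hzL).sub_const e) n1)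
  have heq : (wp L') =ᶠ[𝓝 z] fun w => wp L w + c / (wp L w - e) := by
    filter_upwards [h'.lat.compl_mem_nhds hz'] with w hw
    exact h.wp_eq hw
  have hd3 := hd1.unique (hd2.congr_of_eventuallyEq heq)
  rw [h'.wpd_eq hz hz'] at hd3
  have hwd : wpd L z ≠ 0 := by
    intro h0
    have h2 := h.lat.crit hzL h0
    exact hne (h'.eq_of_mem h.half_two hz (mem_half.2 h2) hz')
  have h4 : (wp L z - e) ^ 2 = c := by
    have h5 : wpd L z * ((wp L z - e) ^ 2 - c) = 0 := by
      field_simp at hd3
      linear_combination -hd3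
    exact sub_eq_zero.1 ((mul_eq_zero.1 h5).resolve_left hwd)
  have h6 : wp L' z = wp L z + (wp L z - e) := by
    rw [hwp, ← he, ← hc, ← h4]
    congr 1
    field_simp
  rw [← h'.ev_eq hz hz', h6]
  linear_combination 4 * h4

end Pool.Agent.Work.CM
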