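import Mathlib
import Pool.Agent.Work.CM.Tw4
import Pool.Agent.Work.CM.Rep

/-!
# Module TW5: the three superlattices of index two

`half L` modulo `L` is a group with four elements, of exponent two. A superlattice of index two is
`L ∪ (u + L)` with `u ∈ half L`, `u ∉ L`.

* `Two.mk'`: for `u ∈ half L`, `u ∉ L`, the span of `L` and `u` is a superlattice of index two.
* `Two.ev_ne`: `a ∈ A`, `a ∉ L`, `b ∈ B`, `b ∉ L`; `wp L a = wp L b` would give `a - b ∈ L` or
  `a + b ∈ L` (`IsLat.inj`), so `b ∈ A` and `A = B` (`Two.eq_of_mem`).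
* `IsLat.exists_two`, `Two.third`: among the three classes.
* `Two.ev_sum`: three different roots of the cubic `4 X^3 - g2 X - g3` (`Two.cubic`), whose coefficient
  of `X^2` is zero.
-/

set_option autoImplicit false

namespace Pool.Agent.Work.CM

open Filter Topology Polynomial
open scoped Pointwise

variable {L L' : Submodule ℤ ℂ}

private theorem tw5_lat (h : IsLat L) {u : ℂ} (hu : u ∈ half L) :
    IsLat (L ⊔ Submodule.span ℤ {u}) := by
  have hL : L ≤ half L := fun z hz => mem_half.2 (by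
    rw [two_mul]
    exact add_mem hz hz)
  refine isLat_of_sandwich (m := (1 : ℂ)) h (h.smul (m := (2 : ℂ)⁻¹) (by norm_num)) one_ne_zero
    (by rw [one_smul]; exact le_sup_left) (sup_le hL ?_)
  rw [Submodule.span_le]
  intro z hz
  rw [Set.mem_singleton_iff] at hz
  rw [hz]
  exact hu

theorem Two.mk' (h : IsLat L) {u : ℂ} (hu : u ∈ half L) (hu' : u ∉ L) :
    Two L (L ⊔ Submodule.span ℤ {u}) := by
  refine ⟨h, tw5_lat h hu, le_sup_left, u, ?_, hu', ?_⟩
  · exact (le_sup_right : Submodule.span ℤ {u} ≤ _) (Submodule.mem_span_singleton_self u)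
  · intro z hz
    obtain ⟨l, hl, y, hy, rfl⟩ := Submodule.mem_sup.1 hz
    obtain ⟨n, rfl⟩ := Submodule.mem_span_singleton.1 hy
    obtain ⟨m, hm | hm⟩ := Int.even_or_odd' n
    · left
      have h1 := add_mem hl (L.smul_mem m (mem_half.1 hu))
      have e : l + m • (2 * u) = l + n • u := by
        rw [hm]; simp only [zsmul_eq_mul]; push_cast; ring
      rwa [e] at h1
    · right
      have h1 := add_mem hl (L.smul_mem m (mem_half.1 hu))
      have e : l + m • (2 * u) = l + n • u - u := by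
        rw [hm]; simp only [zsmul_eq_mul]; push_cast; ring
      rwa [e] at h1

theorem Two.ev_ne {A B : Submodule ℤ ℂ} (hA : Two L A) (hB : Two L B) (hne : A ≠ B) :
    ev L A ≠ ev L B := by
  intro he
  obtain ⟨a, ha, ha', -⟩ := hA.ex
  obtain ⟨b, hb, hb', -⟩ := hB.ex
  rw [← hA.ev_eq ha ha', ← hB.ev_eq hb hb'] at he
  apply hne
  rcases hA.lat.inj ha' hb' he with h1 | h1
  · have h2 := _root_.sub_mem ha (hA.le h1)
    have e : a - (a - b) = b := by ring
    rw [e] at h2
    exact hA.eq_of_mem hB h2 hb hb'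
  · have h2 := _root_.sub_mem (hA.le h1) ha
    have e : a + b - a = b := by ring
    rw [e] at h2
    exact hA.eq_of_mem hB h2 hb hb'

private theorem tw5_ne {A : Submodule ℤ ℂ} (hA : Two L A) {w v : ℂ} (hw : w ∈ A)
    (hw' : w ∉ L) (hv' : v ∉ L) (hvw : v + w ∉ L) :
    L ⊔ Submodule.span ℤ {v} ≠ A := by
  intro he
  have h1 : v ∈ A := by
    rw [← he]
    exact (le_sup_right : Submodule.span ℤ {v} ≤ _) (Submodule.mem_span_singleton_self v)
  have h2 := add_mem (hA.sub_mem h1 hv' hw hw') (hA.two_mem hw)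
  have e : v - w + 2 * w = v + w := by ring
  rw [e] at h2
  exact hvw h2

theorem Two.third {A B : Submodule ℤ ℂ} (hA : Two L A) (hB : Two L B) (hne : A ≠ B) :
    ∃ C : Submodule ℤ ℂ, Two L C ∧ C ≠ A ∧ C ≠ B := by
  obtain ⟨a, ha, ha', -⟩ := hA.ex
  obtain ⟨b, hb, hb', -⟩ := hB.ex
  have hah := mem_half.2 (hA.two_mem ha)
  have hbh := mem_half.2 (hB.two_mem hb)
  have hbA : b ∉ A := fun h1 => hne (hA.eq_of_mem hB h1 hb hb')
  have hab : a + b ∉ L := fun h1 => hbA (by simpa using _root_.sub_mem (hA.le h1) ha)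
  refine ⟨L ⊔ Submodule.span ℤ {a + b}, Two.mk' hA.lat (add_mem hah hbh) hab, ?_, ?_⟩
  · refine tw5_ne hA ha ha' hab ?_
    intro h1
    have h2 := _root_.sub_mem h1 (hA.two_mem ha)
    have e : a + b + a - 2 * a = b := by ring
    rw [e] at h2
    exact hb' h2
  · refine tw5_ne hB hb hb' hab ?_
    intro h1
    have h2 := _root_.sub_mem h1 (hB.two_mem hb)
    have e : a + b + b - 2 * b = a := by ring
    rw [e] at h2
    exact ha' h2

theorem IsLat.exists_two (h : IsLat L) (A : Submodule ℤ ℂ) :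
    ∃ B : Submodule ℤ ℂ, Two L B ∧ B ≠ A := by
  obtain ⟨p, v, hp, hv, hp', hv', hpv, -⟩ := h.quad0
  have hvw : v + p ∉ L := by rwa [add_comm]
  have h1 := Two.mk' h hp hp'
  have h2 := Two.mk' h hv hv'
  have h3 : L ⊔ Submodule.span ℤ {v} ≠ L ⊔ Submodule.span ℤ {p} :=
    tw5_ne h1 ((le_sup_right : Submodule.span ℤ {p} ≤ _) (Submodule.mem_span_singleton_self p))
      hp' hv' hvw
  by_cases hA : L ⊔ Submodule.span ℤ {v} = A
  · exact ⟨_, h1, fun h4 => h3 (hA.trans h4.symm)⟩
  · exact ⟨_, h2, hA⟩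

theorem Two.ev_sum {A B D : Submodule ℤ ℂ} (hA : Two L A) (hB : Two L B) (hD : Two L D)
    (hAB : A ≠ B) (hBD : B ≠ D) (hDA : D ≠ A) : ev L A + ev L B + ev L D = 0 := by
  have n1 := sub_ne_zero.2 (Two.ev_ne hA hB hAB)
  have n2 := sub_ne_zero.2 (Two.ev_ne hB hD hBD)
  have n3 := sub_ne_zero.2 (Two.ev_ne hD hA hDA)
  have c1 := hA.cubic
  have c2 := hB.cubic
  have c3 := hD.cubic
  have s1 : 4 * (ev L A ^ 2 + ev L A * ev L B + ev L B ^ 2) - g2 L = 0 := by
    have : (ev L A - ev L B) * (4 * (ev L A ^ 2 + ev L A * ev L B + ev L B ^ 2) - g2 L) = 0 := by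
      linear_combination c1 - c2
    exact (mul_eq_zero.1 this).resolve_left n1
  have s2 : 4 * (ev L D ^ 2 + ev L D * ev L A + ev L A ^ 2) - g2 L = 0 := by
    have : (ev L D - ev L A) * (4 * (ev L D ^ 2 + ev L D * ev L A + ev L A ^ 2) - g2 L) = 0 := by
      linear_combination c3 - c1
    exact (mul_eq_zero.1 this).resolve_left n3
  have : (ev L B - ev L D) * (ev L A + ev L B + ev L D) = 0 := by
    linear_combination (s1 - s2) / 4
  exact (mul_eq_zero.1 this).resolve_left n2

end Pool.Agent.Work.CM
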