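import Mathlib
import Pool.Agent.Work.CM.Tw5

/-!
# Module CHN: chains of isogenies of degree two

`x0 = ev L0 L1`, `x1 = ev L1 L2`, `x2 = ev L2 L3`.

* `chain_step`: `(x2 - x1)^2 = 12 x1^2 - g2 L1` (`Two.next`). `x1` and `-2 x0 = ev L1 (half L0)`
  (`Two.ev_half`, `Two.half_two`) are different (`Two.ev_ne`) roots of `4 X^3 - g2 X - g3` for `L1`
  (`Two.cubic`), so `g2 L1 = 4 (x1^2 + x1 (-2 x0) + 4 x0^2)` and
  `12 x1^2 - g2 L1 = 8 (x1 + 2 x0) (x1 - x0)`, nonzero by `Two.ne0`.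
* `chain_choice`: take `L3` with `Two L2 L3`, `L3 ≠ half L1` (`IsLat.exists_two`); then
  `(ev L2 L3 - x1)^2 = t^2`. If `ev L2 L3 = x1 - t`, take the third superlattice `L3'` of `L2` different
  from `half L1` and `L3` (`Two.third`): `ev L2 L3' = - ev L2 (half L1) - ev L2 L3 = 2 x1 - (x1 - t)`
  (`Two.ev_sum`).
-/

set_option autoImplicit false

namespace Pool.Agent.Work.CM

open Filter Topology Polynomial
open scoped Pointwise

variable {L L' : Submodule ℤ ℂ}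

private theorem chain_aux {L0 L1 L2 : Submodule ℤ ℂ} (h0 : Two L0 L1) (h1 : Two L1 L2)
    (n1 : L2 ≠ half L0) :
    12 * ev L1 L2 ^ 2 - g2 L1 = 8 * (ev L1 L2 + 2 * ev L0 L1) * (ev L1 L2 - ev L0 L1) := by
  have hn := sub_ne_zero.2 (Two.ev_ne h1 h0.half_two n1)
  have c1 := h1.cubic
  have c2 := h0.half_two.cubic
  rw [h0.ev_half] at hn c2
  have s1 : 4 * (ev L1 L2 ^ 2 + ev L1 L2 * (-2 * ev L0 L1) + (-2 * ev L0 L1) ^ 2) - g2 L1 = 0 := by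
    have : (ev L1 L2 - -2 * ev L0 L1) *
        (4 * (ev L1 L2 ^ 2 + ev L1 L2 * (-2 * ev L0 L1) + (-2 * ev L0 L1) ^ 2) - g2 L1) = 0 := by
      linear_combination c1 - c2
    exact (mul_eq_zero.1 this).resolve_left hn
  linear_combination s1

theorem chain_step {L0 L1 L2 L3 : Submodule ℤ ℂ} (h0 : Two L0 L1) (h1 : Two L1 L2)
    (h2 : Two L2 L3) (n1 : L2 ≠ half L0) (n2 : L3 ≠ half L1) :
    (ev L2 L3 - ev L1 L2) ^ 2 = 8 * (ev L1 L2 + 2 * ev L0 L1) * (ev L1 L2 - ev L0 L1) := by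
  rw [h1.next h2 n2, chain_aux h0 h1 n1]

theorem chain_ne {L0 L1 L2 : Submodule ℤ ℂ} (h0 : Two L0 L1) (h1 : Two L1 L2)
    (n1 : L2 ≠ half L0) : ev L1 L2 + 2 * ev L0 L1 ≠ 0 ∧ ev L1 L2 ≠ ev L0 L1 := by
  have h := h1.ne0
  rw [chain_aux h0 h1 n1] at h
  refine ⟨fun h' => h ?_, fun h' => h ?_⟩
  · rw [h']; ring
  · rw [h']; ring

theorem chain_choice {L0 L1 L2 : Submodule ℤ ℂ} (h0 : Two L0 L1) (h1 : Two L1 L2)
    (n1 : L2 ≠ half L0) {t : ℂ}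
    (ht : t ^ 2 = 8 * (ev L1 L2 + 2 * ev L0 L1) * (ev L1 L2 - ev L0 L1)) :
    ∃ L3 : Submodule ℤ ℂ, Two L2 L3 ∧ L3 ≠ half L1 ∧ ev L2 L3 = ev L1 L2 + t := by
  obtain ⟨L3, h3, n3⟩ := h1.lat'.exists_two (half L1)
  have hs := chain_step h0 h1 h3 n1 n3
  rw [← ht] at hs
  rcases sq_eq_sq_iff_eq_or_eq_neg.1 hs with h4 | h4
  · exact ⟨L3, h3, n3, by linear_combination h4⟩
  · obtain ⟨L3', h3', n3', n4'⟩ := Two.third h1.half_two h3 n3.symm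
    refine ⟨L3', h3', n3', ?_⟩
    have h5 := Two.ev_sum h1.half_two h3 h3' n3.symm n4'.symm n3'
    rw [h1.ev_half] at h5
    linear_combination h5 - h4

end Pool.Agent.Work.CM
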