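import Mathlib
import Pool.Agent.Work.CM.Inj
import Pool.Agent.Work.CM.Sur

/-!
# Module DISC: the discriminant does not vanish

* `simple`: if `4 x^3 - g2 x - g3 = 0` then `12 x^2 - g2 ≠ 0`: take `z ∉ L` with `wp L z = x`
  (`IsLat.surj`); `wpd L z ^ 2 = 0` (`IsLat.ode`), then `IsLat.nondeg`.
* `disc`: if `g2^3 = 27 g3^2` then the cubic has a double root: `x = 0` if `g2 = 0` (then `g3 = 0`),
  else `x = -3 g3 / (2 g2)`: `12 x^2 = 27 g3^2 / g2^2 = g2`, `4 x^3 - g2 x - g3 = 0`.
-/

set_option autoImplicit false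

namespace Pool.Agent.Work.CM

open Filter Topology Polynomial
open scoped Pointwise

variable {L L' : Submodule ℤ ℂ}

theorem IsLat.simple (h : IsLat L) {x : ℂ} (hx : 4 * x ^ 3 - g2 L * x - g3 L = 0) :
    12 * x ^ 2 - g2 L ≠ 0 := by
  obtain ⟨z, hz, rfl⟩ := h.surj x
  have h1 : wpd L z = 0 := by
    have h2 := h.ode hz
    rw [hx] at h2
    exact pow_eq_zero_iff (two_ne_zero) |>.1 h2
  have h3 := h.nondeg hz h1
  intro h4
  apply h3
  linear_combination h4 / 2

theorem IsLat.disc (h : IsLat L) : g2 L ^ 3 ≠ 27 * g3 L ^ 2 := by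
  intro hd
  by_cases h0 : g2 L = 0
  · have h1 : g3 L = 0 := by
      rw [h0] at hd
      have : g3 L ^ 2 = 0 := by linear_combination -hd / 27
      exact pow_eq_zero_iff (two_ne_zero) |>.1 this
    apply h.simple (x := 0)
    · rw [h1]
      ring
    · rw [h0]
      ring
  · apply h.simple (x := -3 * g3 L / (2 * g2 L))
    · field_simp
      linear_combination 4 * g3 L * hd
    · field_simp
      linear_combination -4 * hd

end Pool.Agent.Work.CM
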