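import Mathlib
import Pool.Agent.Work.CM.Lio

/-!
# Module EVP: even elliptic functions with poles in the lattice only

Induction on `N`. `N = 0`: `f` is bounded near `0`, so constant off `L` (`IsLat.const_of_bounded`).
Step: `z^(2N+2) f(z)` is bounded near `0` and analytic in a punctured neighbourhood, so it extends
analytically at `0` by some `g`, with value `c` at `0`. Put `f1 = f - c * wp^(N+1)`. With
`wp L z = 1/z^2 + φ z` (`IsLat.exists_local`), `z^(2N+2) f1(z) = g(z) - c (1 + z^2 φ(z))^(N+1)` has an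
analytic extension which vanishes at `0`; it is an even function, so it vanishes to order 2; so
`z^(2N) f1(z)` is bounded near `0`. By induction `f1 = P1(wp)` off `L`, and `P = P1 + C c * X^(N+1)`.
-/

set_option autoImplicit false

namespace Pool.Agent.Work.CM

open Filter Topology Polynomial
open scoped Pointwise

variable {L L' : Submodule ℤ ℂ}

private theorem evp_div {H : ℂ → ℂ} (hH : AnalyticAt ℂ H 0) (h0 : H 0 = 0) :
    ∃ H1 : ℂ → ℂ, AnalyticAt ℂ H1 0 ∧ ∀ z, H z = z * H1 z := by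
  obtain ⟨p, hp⟩ := hH
  refine ⟨dslope H 0, ⟨_, hp.has_fpower_series_dslope_fslope⟩, fun z => ?_⟩
  have := sub_smul_dslope H 0 z
  rw [sub_zero, smul_eq_mul, h0, sub_zero] at this
  exact this.symm

private theorem evp_even {H : ℂ → ℂ} (hH : AnalyticAt ℂ H 0) (h0 : H 0 = 0)
    (he : ∀ᶠ z in 𝓝[≠] (0 : ℂ), H (-z) = H z) :
    ∃ C : ℝ, ∀ᶠ z in 𝓝[≠] (0 : ℂ), ‖H z‖ ≤ ‖z ^ 2‖ * C := by
  obtain ⟨H1, hH1, hz1⟩ := evp_div hH h0
  have h1 : H1 0 = 0 := by
    have h2 : ∀ᶠ z in 𝓝[≠] (0 : ℂ), H1 (-z) + H1 z = 0 := by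
      filter_upwards [he, self_mem_nhdsWithin] with z hz hz0
      rw [hz1, hz1] at hz
      have hz0' : z ≠ 0 := hz0
      have h3 : z * (H1 (-z) + H1 z) = 0 := by linear_combination -hz
      exact (mul_eq_zero.1 h3).resolve_left hz0'
    have h4 : Tendsto (fun z => H1 (-z) + H1 z) (𝓝[≠] (0 : ℂ)) (𝓝 (H1 (-0) + H1 0)) := by
      have h5 : ContinuousAt (fun z => H1 (-z) + H1 z) 0 := by
        refine ContinuousAt.add ?_ hH1.continuousAt
        refine ContinuousAt.comp (g := H1) (f := fun z : ℂ => -z) ?_ (by fun_prop)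
        simpa using hH1.continuousAt
      exact h5.tendsto.mono_left nhdsWithin_le_nhds
    have h6 : H1 (-0) + H1 0 = 0 := by
      refine tendsto_nhds_unique h4 ?_
      refine (tendsto_const_nhds (x := (0 : ℂ))).congr' ?_
      filter_upwards [h2] with z hz
      exact hz.symm
    rw [neg_zero] at h6
    have h7 : (2 : ℂ) * H1 0 = 0 := by linear_combination h6
    simpa using h7
  obtain ⟨H2, hH2, hz2⟩ := evp_div hH1 h1
  refine ⟨‖H2 0‖ + 1, ?_⟩
  have h8 : ∀ᶠ z in 𝓝 (0 : ℂ), ‖H2 z‖ < ‖H2 0‖ + 1 :=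
    hH2.continuousAt.norm.eventually (gt_mem_nhds (lt_add_one _))
  filter_upwards [mem_nhdsWithin_of_mem_nhds h8] with z hz
  rw [hz1, hz2]
  have h9 : z * (z * H2 z) = z ^ 2 * H2 z := by ring
  rw [h9, norm_mul]
  exact mul_le_mul_of_nonneg_left (le_of_lt hz) (norm_nonneg _)

private theorem evp_ext {F : ℂ → ℂ} (hd : ∀ᶠ z in 𝓝[≠] (0 : ℂ), DifferentiableAt ℂ F z) {C : ℝ}
    (hb : ∀ᶠ z in 𝓝[≠] (0 : ℂ), ‖F z‖ ≤ C) :
    ∃ G : ℂ → ℂ, AnalyticAt ℂ G 0 ∧ ∀ᶠ z in 𝓝[≠] (0 : ℂ), G z = F z := by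
  obtain ⟨s, hs, hs'⟩ := mem_nhdsWithin_iff_exists_mem_nhds_inter.1 (hd.and hb)
  have h2 : DifferentiableOn ℂ (Function.update F 0 (limUnder (𝓝[≠] (0 : ℂ)) F)) s := by
    refine Complex.differentiableOn_update_limUnder_of_bddAbove hs ?_ ?_
    · intro z hz
      exact (hs' ⟨hz.1, hz.2⟩).1.differentiableWithinAt
    · refine ⟨C, ?_⟩
      rintro _ ⟨z, hz, rfl⟩
      exact (hs' ⟨hz.1, hz.2⟩).2
  refine ⟨_, h2.analyticAt hs, ?_⟩
  filter_upwards [self_mem_nhdsWithin] with z hz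
  exact Function.update_of_ne hz _ _

theorem IsLat.even_poly (h : IsLat L) {f : ℂ → ℂ} (hf : AnalyticOnNhd ℂ f (L : Set ℂ)ᶜ)
    (hper : ∀ z, ∀ l ∈ L, f (z + l) = f z) (heven : ∀ z, f (-z) = f z) {N : ℕ} {C : ℝ}
    (hb : ∀ᶠ z in 𝓝[≠] (0 : ℂ), ‖z ^ (2 * N) * f z‖ ≤ C) :
    ∃ P : ℂ[X], ∀ z ∉ L, f z = P.eval (wp L z) := by
  induction N generalizing f C with
  | zero =>
    obtain ⟨c, hc⟩ := h.const_of_bounded hf hper (C := C) (by
      filter_upwards [hb] with z hz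
      simpa using hz)
    exact ⟨Polynomial.C c, fun z hz => by rw [hc z hz, Polynomial.eval_C]⟩
  | succ N ih =>
    obtain ⟨G, hG, hGz⟩ := evp_ext (F := fun z => z ^ (2 * (N + 1)) * f z) (by
      filter_upwards [h.compl_mem_nhdsNE 0] with z hz
      exact (differentiableAt_id.pow _).mul (hf z hz).differentiableAt) hb
    obtain ⟨φ, hφ, hφ0, hφz⟩ := h.exists_local
    set c : ℂ := G 0 with hc
    let f1 : ℂ → ℂ := fun z => f z - c * wp L z ^ (N + 1)
    have hf1 : AnalyticOnNhd ℂ f1 (L : Set ℂ)ᶜ := fun z hz =>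
      (hf z hz).sub (analyticAt_const.mul ((h.analyticOnNhd z hz).pow _))
    let H : ℂ → ℂ := fun z => G z - c * (1 + z ^ 2 * φ z) ^ (N + 1)
    have hH : AnalyticAt ℂ H 0 := hG.sub (analyticAt_const.mul
      ((analyticAt_const.add ((analyticAt_id.pow 2).mul hφ)).pow _))
    have hH0 : H 0 = 0 := by simp [H, hc]
    have hHz : ∀ᶠ z in 𝓝[≠] (0 : ℂ), H z = z ^ (2 * (N + 1)) * f1 z := by
      filter_upwards [hGz, self_mem_nhdsWithin] with z hz hz0
      have hz0' : z ≠ 0 := hz0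
      simp only [H, f1, hz, hφz z]
      have : (1 + z ^ 2 * φ z) ^ (N + 1) = z ^ (2 * (N + 1)) * (1 / z ^ 2 + φ z) ^ (N + 1) := by
        rw [pow_mul, ← mul_pow]
        congr 1
        field_simp
      rw [this]
      ring
    have hHe : ∀ᶠ z in 𝓝[≠] (0 : ℂ), H (-z) = H z := by
      have h1 : Tendsto (fun z : ℂ => -z) (𝓝[≠] (0 : ℂ)) (𝓝[≠] (0 : ℂ)) := by
        refine tendsto_nhdsWithin_of_tendsto_nhds_of_eventually_within _ ?_ ?_
        · have : Tendsto (fun z : ℂ => -z) (𝓝 0) (𝓝 (-0)) := (continuous_neg.tendsto 0)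
          rw [neg_zero] at this
          exact this.mono_left nhdsWithin_le_nhds
        · filter_upwards [self_mem_nhdsWithin] with z hz
          simpa using hz
      filter_upwards [hHz, h1.eventually hHz] with z hz hz'
      rw [hz, hz']
      simp only [f1]
      rw [heven, h.wp_neg, Even.neg_pow ⟨N + 1, by ring⟩]
    obtain ⟨C', hC'⟩ := evp_even hH hH0 hHe
    obtain ⟨P1, hP1⟩ := ih (f := f1) (C := C') hf1
      (fun z l hl => by simp only [f1, hper z l hl, h.wp_add z hl])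
      (fun z => by simp only [f1, heven, h.wp_neg]) (by
        filter_upwards [hHz, hC', self_mem_nhdsWithin] with z hz hz' hz0
        have hz0' : z ≠ 0 := hz0
        rw [hz] at hz'
        have h2 : z ^ (2 * (N + 1)) * f1 z = z ^ 2 * (z ^ (2 * N) * f1 z) := by ring
        rw [h2, norm_mul] at hz'
        exact le_of_mul_le_mul_left hz' (norm_pos_iff.2 (pow_ne_zero 2 hz0')))
    refine ⟨P1 + Polynomial.C c * X ^ (N + 1), fun z hz => ?_⟩
    have h3 := hP1 z hz
    simp only [f1] at h3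
    rw [Polynomial.eval_add, ← h3]
    simp

end Pool.Agent.Work.CM
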