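import Mathlib
import Pool.Agent.Work.CM.Evp
import Pool.Agent.Work.CM.Rep
import Pool.Agent.Work.CM.Sur
import Pool.Agent.Work.CM.Inj

/-!
# Module RAT: the Weierstrass function of a larger lattice is rational in that of `L`

`T` from `exists_reps`. `Q = ∏ t ∈ T, (X - C (wp L t))^2`, nonzero. `f z = Q(wp L z) * wp L' z`.
For `z ∉ L'` `f` is analytic. At a point `z0 ∈ L'`, `z0 ∉ L`, `z0 - t ∈ L` with `t ∈ T`:
`wp L' z = 1/(z - z0)^2 + analytic` (`IsLat.exists_local'`) and `(wp L z - wp L t)^2 =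
(wp L z - wp L z0)^2 = (z - z0)^2 * analytic`, so `f` agrees on a punctured neighbourhood of `z0` with a
function analytic at `z0`. So some function `F` which agrees with `f` off `L'` is analytic off `L` (for
instance `F z = if z ∈ L' ∧ z ∉ L then lim else f z`, `lim = limUnder (𝓝[≠] z) f`); `F` is even
and `L`-periodic since `f` is. Near `0`: `z^(4 card T + 2) f(z)` is bounded (`IsLat.exists_local`).
By `IsLat.even_poly`, `F = P(wp L)` off `L`.
-/

set_option autoImplicit false

namespace Pool.Agent.Work.CM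

open Filter Topology Polynomial
open scoped Pointwise

variable {L L' : Submodule ℤ ℂ}

/-- the product of the squares of `wp L z - wp L t` -/
private noncomputable def ratF (L L' : Submodule ℤ ℂ) (T : Finset ℂ) (z : ℂ) : ℂ :=
  (∏ t ∈ T, (wp L z - wp L t) ^ 2) * wp L' z

private theorem ratF_an (h : IsLat L) (h' : IsLat L') (hle : L ≤ L') (T : Finset ℂ) {z : ℂ}
    (hz : z ∉ L') : AnalyticAt ℂ (ratF L L' T) z := by
  have h1 : AnalyticAt ℂ (wp L) z := h.analyticOnNhd z fun h2 => hz (hle h2)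
  have h2 : AnalyticAt ℂ (fun z => ∏ t ∈ T, (wp L z - wp L t) ^ 2) z :=
    Finset.analyticAt_fun_prod T fun t _ => (h1.sub analyticAt_const).pow 2
  exact h2.mul (h'.analyticOnNhd z hz)

private theorem ratF_loc (h : IsLat L) (h' : IsLat L') (hle : L ≤ L') {T : Finset ℂ}
    (hT : ∀ z ∈ L', z ∈ L ∨ ∃ t ∈ T, z - t ∈ L) {z0 : ℂ} (hz0 : z0 ∉ L) :
    ∃ k : ℂ → ℂ, AnalyticAt ℂ k z0 ∧ ∀ᶠ z in 𝓝[≠] z0, ratF L L' T z = k z := by
  by_cases hz' : z0 ∈ L'
  · obtain ⟨t, ht, htL⟩ := (hT z0 hz').resolve_left hz0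
    obtain ⟨φ, hφ, -, hφz⟩ := h'.exists_local' hz'
    have h1 : AnalyticAt ℂ (wp L) z0 := h.analyticOnNhd z0 hz0
    have h2 : AnalyticAt ℂ (dslope (wp L) z0) z0 := by
      obtain ⟨p, hp⟩ := h1
      exact ⟨_, hp.has_fpower_series_dslope_fslope⟩
    have h3 : AnalyticAt ℂ (fun z => ∏ t ∈ T.erase t, (wp L z - wp L t) ^ 2) z0 :=
      Finset.analyticAt_fun_prod _ fun t _ => (h1.sub analyticAt_const).pow 2
    have h4 : AnalyticAt ℂ (fun z => 1 + (z - z0) ^ 2 * φ z) z0 :=
      analyticAt_const.add (((analyticAt_id.sub analyticAt_const).pow 2).mul hφ)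
    refine ⟨fun z => (dslope (wp L) z0 z ^ 2 * ∏ t ∈ T.erase t, (wp L z - wp L t) ^ 2) *
      (1 + (z - z0) ^ 2 * φ z), ((h2.pow 2).mul h3).mul h4, ?_⟩
    filter_upwards [self_mem_nhdsWithin] with z hz
    have hne : z - z0 ≠ 0 := sub_ne_zero.2 hz
    have h5 : wp L z - wp L t = (z - z0) * dslope (wp L) z0 z := by
      have h6 := sub_smul_dslope (wp L) z0 z
      rw [smul_eq_mul] at h6
      rw [h6]
      congr 1
      have h7 : z0 = t + (z0 - t) := by ring
      rw [h7, h.wp_add _ htL]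
    unfold ratF
    rw [← Finset.mul_prod_erase T (fun t => (wp L z - wp L t) ^ 2) ht, h5, hφz z]
    field_simp
  · exact ⟨ratF L L' T, ratF_an h h' hle T hz', Filter.Eventually.of_forall fun _ => rfl⟩

private theorem ratF_neg (h : IsLat L) (h' : IsLat L') (T : Finset ℂ) (z : ℂ) :
    ratF L L' T (-z) = ratF L L' T z := by
  unfold ratF
  rw [h.wp_neg, h'.wp_neg]

private theorem ratF_add (h : IsLat L) (h' : IsLat L') (hle : L ≤ L') (T : Finset ℂ) (z : ℂ)
    {l : ℂ} (hl : l ∈ L) : ratF L L' T (z + l) = ratF L L' T z := by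
  unfold ratF
  rw [h.wp_add z hl, h'.wp_add z (hle hl)]

private theorem ratF_lim (h : IsLat L) (h' : IsLat L') (T : Finset ℂ) :
    Tendsto (fun z => z ^ (2 * (2 * T.card + 1)) * ratF L L' T z) (𝓝[≠] 0) (𝓝 1) := by
  have hone : ∀ {M : Submodule ℤ ℂ}, IsLat M → ∀ a : ℂ,
      Tendsto (fun z => z ^ 2 * (wp M z - a)) (𝓝[≠] 0) (𝓝 1) := by
    intro M hM a
    obtain ⟨φ, hφ, -, hφz⟩ := hM.exists_local
    have h2 : ContinuousAt (fun z => 1 + z ^ 2 * (φ z - a)) 0 := by
      have := hφ.continuousAt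
      fun_prop
    have h3 := h2.tendsto
    simp only [ne_eq, OfNat.ofNat_ne_zero, not_false_eq_true, zero_pow, zero_mul, add_zero] at h3
    refine (h3.mono_left nhdsWithin_le_nhds).congr' ?_
    filter_upwards [self_mem_nhdsWithin] with z hz
    have hz' : z ≠ 0 := hz
    rw [hφz z]
    field_simp
    ring
  have h4 : Tendsto (fun z => ∏ t ∈ T, (z ^ 2 * (wp L z - wp L t)) ^ 2) (𝓝[≠] 0) (𝓝 1) := by
    have h5 := tendsto_finsetProd T
      (f := fun t z => (z ^ 2 * (wp L z - wp L t)) ^ 2) (a := fun _ => (1 : ℂ))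
      (x := 𝓝[≠] 0) fun t _ => by
        have h6 := (hone h (wp L t)).pow 2
        rwa [one_pow] at h6
    rwa [Finset.prod_const_one] at h5
  have h7 := h4.mul (hone h' 0)
  rw [one_mul] at h7
  refine h7.congr fun z => ?_
  unfold ratF
  rw [sub_zero]
  have h8 : ∏ t ∈ T, (z ^ 2 * (wp L z - wp L t)) ^ 2 =
      z ^ (4 * T.card) * ∏ t ∈ T, (wp L z - wp L t) ^ 2 := by
    rw [Finset.prod_congr rfl fun t _ => (by ring :
      (z ^ 2 * (wp L z - wp L t)) ^ 2 = z ^ 4 * (wp L z - wp L t) ^ 2), Finset.prod_mul_distrib,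
      Finset.prod_const, ← pow_mul]
  rw [h8]
  ring

theorem exists_rat (h : IsLat L) (h' : IsLat L') (hle : L ≤ L') :
    ∃ P Q : ℂ[X], Q ≠ 0 ∧ ∀ z ∉ L', Q.eval (wp L z) * wp L' z = P.eval (wp L z) := by
  classical
  obtain ⟨T, -, hT⟩ := exists_reps h h' hle
  set F : ℂ → ℂ := fun z => if z ∈ L then 0 else limUnder (𝓝[≠] z) (ratF L L' T) with hF
  have hFlim : ∀ {z c : ℂ}, z ∉ L → Tendsto (ratF L L' T) (𝓝[≠] z) (𝓝 c) → F z = c := by
    intro z c hz hc
    simp only [hF, if_neg hz]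
    exact hc.limUnder_eq
  have hFf : ∀ {z : ℂ}, z ∉ L' → F z = ratF L L' T z := by
    intro z hz
    exact hFlim (fun h2 => hz (hle h2))
      ((ratF_an h h' hle T hz).continuousAt.tendsto.mono_left nhdsWithin_le_nhds)
  have hloc : ∀ {z : ℂ}, z ∉ L → ∃ k : ℂ → ℂ, AnalyticAt ℂ k z ∧
      Tendsto (ratF L L' T) (𝓝[≠] z) (𝓝 (k z)) ∧ F =ᶠ[𝓝 z] k := by
    intro z hz
    obtain ⟨k, hk, hkz⟩ := ratF_loc h h' hle hT hz
    have h1 : Tendsto (ratF L L' T) (𝓝[≠] z) (𝓝 (k z)) := by
      refine Tendsto.congr' ?_ (hk.continuousAt.tendsto.mono_left nhdsWithin_le_nhds)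
      filter_upwards [hkz] with w hw using hw.symm
    refine ⟨k, hk, h1, ?_⟩
    have h2 : ∀ᶠ w in 𝓝[≠] z, F w = k w := by
      filter_upwards [hkz, h'.compl_mem_nhdsNE z] with w hw hw'
      rw [hFf hw', hw]
    rw [eventually_nhdsWithin_iff] at h2
    filter_upwards [h2] with w hw
    by_cases hwz : w = z
    · rw [hwz]
      exact hFlim hz h1
    · exact hw hwz
  obtain ⟨P, hP⟩ := h.even_poly (f := F) (N := 2 * T.card + 1) (C := 2)
    (fun z hz => by
      obtain ⟨k, hk, -, hFk⟩ := hloc hz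
      exact hk.congr hFk.symm)
    (fun z l hl => by
      by_cases hz : z ∈ L
      · simp only [hF, if_pos hz, if_pos (add_mem hz hl)]
      · obtain ⟨k, -, h1, -⟩ := hloc hz
        rw [hFlim hz h1]
        refine hFlim (fun h2 => hz ?_) ?_
        · simpa using _root_.sub_mem h2 hl
        · have h3 : Tendsto (fun w => w - l) (𝓝[≠] (z + l)) (𝓝[≠] z) := by
            refine tendsto_nhdsWithin_of_tendsto_nhds_of_eventually_within _ ?_ ?_
            · have h4 : Continuous fun w : ℂ => w - l := by fun_prop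
              have h5 := h4.tendsto (z + l)
              rw [add_sub_cancel_right] at h5
              exact h5.mono_left nhdsWithin_le_nhds
            · filter_upwards [self_mem_nhdsWithin] with w hw h6
              exact hw (by rw [← (h6 : w - l = z)]; simp)
          refine (h1.comp h3).congr fun w => ?_
          show ratF L L' T (w - l) = ratF L L' T w
          rw [← ratF_add h h' hle T (w - l) hl, sub_add_cancel])
    (fun z => by
      by_cases hz : z ∈ L
      · simp only [hF, if_pos hz, if_pos (neg_mem hz)]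
      · obtain ⟨k, -, h1, -⟩ := hloc hz
        rw [hFlim hz h1]
        refine hFlim (fun h2 => hz (by simpa using neg_mem h2)) ?_
        have h3 : Tendsto (fun w : ℂ => -w) (𝓝[≠] (-z)) (𝓝[≠] z) := by
          refine tendsto_nhdsWithin_of_tendsto_nhds_of_eventually_within _ ?_ ?_
          · have h5 := (continuous_neg (G := ℂ)).tendsto (-z)
            rw [neg_neg] at h5
            exact h5.mono_left nhdsWithin_le_nhds
          · filter_upwards [self_mem_nhdsWithin] with w hw h6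
            exact hw (by rw [← (h6 : -w = z)]; simp)
        refine (h1.comp h3).congr fun w => ?_
        exact ratF_neg h h' T w)
    (by
      have h5 := (ratF_lim h h' T).norm.eventually
        (eventually_lt_nhds (b := (2 : ℝ)) (by simp))
      filter_upwards [h5, h'.compl_mem_nhdsNE 0] with z hz hz'
      rw [hFf hz']
      exact hz.le)
  refine ⟨P, ∏ t ∈ T, (X - C (wp L t)) ^ 2,
    Finset.prod_ne_zero_iff.2 fun t _ => pow_ne_zero 2 (X_sub_C_ne_zero _), fun z hz => ?_⟩
  rw [← hP z fun h2 => hz (hle h2), hFf hz]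
  unfold ratF
  rw [Polynomial.eval_prod]
  simp

end Pool.Agent.Work.CM
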