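import Mathlib
import Pool.Agent.Work.CM.Rat
import Pool.Agent.Work.CM.Rof
import Pool.Agent.Work.CM.Hom

/-!
# Module EXR: an inclusion `m L ≤ L'` gives a relation

`L ≤ m⁻¹ • L'`, `exists_rat` for `L` and `m⁻¹ • L'`; `wp (m⁻¹ • L') z = m^2 wp L' (m z)` (`wp_smul`);
multiply `Q` by the constant `m^2` and use `rel_of_fun`.
-/

set_option autoImplicit false

namespace Pool.Agent.Work.CM

open Filter Topology Polynomial
open scoped Pointwise

variable {L L' : Submodule ℤ ℂ}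

theorem exists_rel (h : IsLat L) (h' : IsLat L') {m : ℂ} (hm : m ≠ 0)
    (hmap : ∀ l ∈ L, m * l ∈ L') : ∃ P Q : ℂ[X], Rel m (g2 L) (g3 L) (g2 L') (g3 L') P Q := by
  have hm' : m⁻¹ ≠ 0 := inv_ne_zero hm
  have hmem : ∀ z : ℂ, z ∈ m⁻¹ • L' ↔ m * z ∈ L' := by
    intro z
    have := mem_smul_iff (L := L') hm' (z := m * z)
    rwa [← mul_assoc, inv_mul_cancel₀ hm, one_mul] at this
  obtain ⟨P, Q, hQ, hPQ⟩ := exists_rat h (h'.smul hm') (fun l hl => (hmem l).2 (hmap l hl))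
  refine ⟨P, C (m ^ 2) * Q, rel_of_fun h h' hm hmap ?_ ?_⟩
  · exact mul_ne_zero (by simpa using hm) hQ
  · intro z hz
    rw [← hPQ z (fun h1 => hz ((hmem z).1 h1))]
    have h2 := wp_smul (L := L') hm' (m * z)
    rw [← mul_assoc, inv_mul_cancel₀ hm, one_mul] at h2
    rw [h2]
    simp only [eval_mul, eval_C, inv_pow, inv_inv]
    ring

end Pool.Agent.Work.CM
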