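import Mathlib
import Pool.Agent.Work.CM.Inj
import Pool.Agent.Work.CM.Sur
import Pool.Agent.Work.CM.Ode
import Pool.Agent.Work.CM.Ident

/-!
# Module FOR1: the functional relation from the algebraic relation, local step

`R = P / Q`, `f z = P(wp L z) / Q(wp L z)`. There is `z0 ∉ L` with `Q(wp L z0) ≠ 0` and
`(P' Q - P Q')(wp L z0) * wpd L z0 ≠ 0`: the polynomial `P' Q - P Q'` is nonzero since
`deg Q < deg P` (leading coefficient `(deg P - deg Q) * lc P * lc Q`), so there are only finitely many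
bad values of `x = wp L z0`, also exclude the roots of `4 X^3 - a X - b` (then `wpd L z0 ≠ 0` by
`IsLat.ode`), and use `IsLat.surj`.
Near `z0`, `f` is analytic, `f' = R'(wp) wpd`, and `f'^2 = m^2 (4 f^3 - a' f - b')` by the relation.
Since `f' z0 ≠ 0`, differentiating gives `f'' = m^2 (6 f^2 - a' / 2)` near `z0`.
Choose `z1 ∉ L'` with `wp L' z1 = f z0` (`IsLat.surj`); `(m wpd L' z1)^2 = f'(z0)^2` (`IsLat.ode`), so after
changing `z1` to `-z1` if necessary `m wpd L' z1 = f' z0`. The function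
`g z = wp L' (m (z - z0) + z1)` satisfies the same equation near `z0`, so `f = g` near `z0`
(`ode_unique` with `A = 6 m^2`, `B = -m^2 a' / 2`).
Put `c = z1 - m z0`.
-/

set_option autoImplicit false

namespace Pool.Agent.Work.CM

open Filter Topology Polynomial
open scoped Pointwise

variable {L L' : Submodule ℤ ℂ}

private theorem wronsk_ne {m a b a' b' : ℂ} (hm : m ≠ 0) {P Q : ℂ[X]}
    (hR : Rel m a b a' b' P Q) : derivative P * Q - P * derivative Q ≠ 0 := by
  intro h0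
  have h1 := hR.eq
  rw [h0, zero_pow two_ne_zero, zero_mul] at h1
  have hC : (C (m ^ 2) : ℂ[X]) ≠ 0 := C_ne_zero.2 (pow_ne_zero 2 hm)
  have h2 : 4 * P ^ 3 - C a' * P * Q ^ 2 - C b' * Q ^ 3 = 0 := by
    rcases mul_eq_zero.1 h1 with h | h
    · rcases mul_eq_zero.1 h with h | h
      · exact absurd h hC
      · exact h
    · exact absurd h hR.ne
  have h3 : C 4 * P ^ 3 = C a' * (P * Q ^ 2) + C b' * Q ^ 3 := by
    have h4 : (C 4 : ℂ[X]) = 4 := rfl
    rw [h4]
    linear_combination h2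
  have h5 : (C 4 * P ^ 3).natDegree = 3 * P.natDegree := by
    rw [natDegree_C_mul (by norm_num), natDegree_pow]
  have hdeg := hR.deg
  have h6 : (C a' * (P * Q ^ 2) + C b' * Q ^ 3).natDegree < 3 * P.natDegree := by
    refine lt_of_le_of_lt (natDegree_add_le _ _) (max_lt ?_ ?_)
    · refine lt_of_le_of_lt (natDegree_C_mul_le _ _) ?_
      refine lt_of_le_of_lt natDegree_mul_le ?_
      rw [natDegree_pow]
      omega
    · refine lt_of_le_of_lt (natDegree_C_mul_le _ _) ?_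
      rw [natDegree_pow]
      omega
  rw [← h3, h5] at h6
  exact lt_irrefl _ h6

private theorem cubic_ne (a b : ℂ) : (4 * X ^ 3 - C a * X - C b : ℂ[X]) ≠ 0 := by
  intro h
  have h1 : (4 * X ^ 3 - C a * X - C b : ℂ[X]).coeff 3 = 4 := by
    have h4 : (4 : ℂ[X]) = C 4 := rfl
    rw [h4]
    simp
  rw [h] at h1
  simp at h1

private theorem exists_good (h : IsLat L) {m a' b' : ℂ} (hm : m ≠ 0) {P Q : ℂ[X]}
    (hR : Rel m (g2 L) (g3 L) a' b' P Q) :
    ∃ z0, z0 ∉ L ∧ Q.eval (wp L z0) ≠ 0 ∧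
      (derivative P * Q - P * derivative Q).eval (wp L z0) ≠ 0 ∧ wpd L z0 ≠ 0 := by
  have h1 : Q * (derivative P * Q - P * derivative Q) * (4 * X ^ 3 - C (g2 L) * X - C (g3 L)) ≠ 0 :=
    mul_ne_zero (mul_ne_zero hR.ne (wronsk_ne hm hR)) (cubic_ne _ _)
  have h2 : ∃ x : ℂ, (Q * (derivative P * Q - P * derivative Q) *
      (4 * X ^ 3 - C (g2 L) * X - C (g3 L))).eval x ≠ 0 := by
    by_contra hcon
    push Not at hcon
    exact h1 (Polynomial.funext fun x => by rw [hcon x, eval_zero])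
  obtain ⟨x, hx⟩ := h2
  rw [eval_mul, eval_mul] at hx
  obtain ⟨z0, hz0, hx0⟩ := h.surj x
  have hx1 := left_ne_zero_of_mul (left_ne_zero_of_mul hx)
  have hx2 := right_ne_zero_of_mul (left_ne_zero_of_mul hx)
  have hx3 := right_ne_zero_of_mul hx
  refine ⟨z0, hz0, by rw [hx0]; exact hx1, by rw [hx0]; exact hx2, ?_⟩
  intro h0
  have h3 := h.ode hz0
  rw [h0, hx0] at h3
  apply hx3
  have h4 : (4 * X ^ 3 - C (g2 L) * X - C (g3 L) : ℂ[X]).eval x = 4 * x ^ 3 - g2 L * x - g3 L := by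
    simp
  rw [h4, ← h3]
  ring

/-- the second derivative from the first integral -/
private theorem second {f f' : ℂ → ℂ} {z0 M a' b' : ℂ} (hf : ∀ᶠ z in 𝓝 z0, HasDerivAt f (f' z) z)
    (hf' : AnalyticAt ℂ f' z0) (h0 : f' z0 ≠ 0)
    (hE : ∀ᶠ z in 𝓝 z0, f' z ^ 2 = M * (4 * f z ^ 3 - a' * f z - b')) :
    ∀ᶠ z in 𝓝 z0, HasDerivAt f' (6 * M * f z ^ 2 + -M * a' / 2) z := by
  filter_upwards [hf, hf'.eventually_analyticAt, hE.eventually_nhds,
    hf'.continuousAt.eventually_ne h0] with z h1 h2 h3 h4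
  have h5 := h2.differentiableAt.hasDerivAt
  have h6 : HasDerivAt (fun w => f' w ^ 2) (2 * f' z * deriv f' z) z := by
    have := h5.fun_pow 2
    have e : ((2 : ℕ) : ℂ) * f' z ^ (2 - 1) * deriv f' z = 2 * f' z * deriv f' z := by
      norm_num
    rwa [e] at this
  have h7 : HasDerivAt (fun w => M * (4 * f w ^ 3 - a' * f w - b'))
      (M * (12 * f z ^ 2 * f' z - a' * f' z)) z := by
    have h8 := ((((h1.fun_pow 3).const_mul 4).fun_sub (h1.const_mul a')).sub_const b').const_mul M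
    have e : M * (4 * (((3 : ℕ) : ℂ) * f z ^ (3 - 1) * f' z) - a' * f' z) =
        M * (12 * f z ^ 2 * f' z - a' * f' z) := by
      push_cast
      ring
    rwa [e] at h8
  have h9 := h6.unique (h7.congr_of_eventuallyEq h3)
  have h10 : deriv f' z = 6 * M * f z ^ 2 + -M * a' / 2 := by
    have h11 : f' z * (2 * deriv f' z - M * (12 * f z ^ 2 - a')) = 0 := by
      linear_combination h9
    rcases mul_eq_zero.1 h11 with h12 | h12
    · exact absurd h12 h4
    · linear_combination h12 / 2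
  rw [← h10]
  exact h5

theorem for_local (h : IsLat L) (h' : IsLat L') {m : ℂ} (hm : m ≠ 0) {P Q : ℂ[X]}
    (hR : Rel m (g2 L) (g3 L) (g2 L') (g3 L') P Q) :
    ∃ z0 c : ℂ, z0 ∉ L ∧ m * z0 + c ∉ L' ∧ Q.eval (wp L z0) ≠ 0 ∧
      ∀ᶠ z in 𝓝 z0, P.eval (wp L z) = Q.eval (wp L z) * wp L' (m * z + c) := by
  obtain ⟨z0, hz0, hQ0, hW0, hd0⟩ := exists_good h hm hR
  set W : ℂ[X] := derivative P * Q - P * derivative Q with hW
  set f : ℂ → ℂ := fun z => P.eval (wp L z) / Q.eval (wp L z) with hf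
  set f' : ℂ → ℂ := fun z => W.eval (wp L z) / Q.eval (wp L z) ^ 2 * wpd L z with hf'
  have hwp := h.analyticOnNhd z0 hz0
  have hwpd := h.analyticOnNhd' z0 hz0
  have hpol : ∀ p : ℂ[X], AnalyticAt ℂ (fun z => p.eval (wp L z)) z0 := fun p =>
    AnalyticAt.fun_comp (g := fun x => p.eval x) (p.differentiable.analyticAt _) hwp
  have hfa : AnalyticAt ℂ f z0 := (hpol P).fun_div (hpol Q) hQ0
  have hf'a : AnalyticAt ℂ f' z0 :=
    (((hpol W).fun_div ((hpol Q).fun_pow 2) (pow_ne_zero 2 hQ0)).fun_mul hwpd)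
  have hev : ∀ᶠ z in 𝓝 z0, z ∉ L ∧ Q.eval (wp L z) ≠ 0 := by
    filter_upwards [h.compl_mem_nhds hz0, (hpol Q).continuousAt.eventually_ne hQ0] with z h1 h2
    exact ⟨h1, h2⟩
  have hf1 : ∀ᶠ z in 𝓝 z0, HasDerivAt f (f' z) z := by
    filter_upwards [hev] with z hz
    have h1 := h.hasDerivAt hz.1
    have h2 : HasDerivAt (fun z => P.eval (wp L z)) ((derivative P).eval (wp L z) * wpd L z) z :=
      (P.hasDerivAt (wp L z)).comp z h1
    have h3 : HasDerivAt (fun z => Q.eval (wp L z)) ((derivative Q).eval (wp L z) * wpd L z) z :=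
      (Q.hasDerivAt (wp L z)).comp z h1
    have h4 := h2.fun_div h3 hz.2
    have e : f' z = ((derivative P).eval (wp L z) * wpd L z * Q.eval (wp L z) -
        P.eval (wp L z) * ((derivative Q).eval (wp L z) * wpd L z)) / Q.eval (wp L z) ^ 2 := by
      rw [hf', hW]
      simp only [eval_sub, eval_mul]
      ring
    rw [e]
    exact h4
  have hfE : ∀ᶠ z in 𝓝 z0, f' z ^ 2 = m ^ 2 * (4 * f z ^ 3 - g2 L' * f z - g3 L') := by
    filter_upwards [hev] with z hz
    have h1 := congrArg (eval (wp L z)) hR.eq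
    rw [← hW] at h1
    simp only [eval_mul, eval_sub, eval_pow, eval_C, eval_X, eval_ofNat] at h1
    rw [← h.ode hz.1] at h1
    have hq := hz.2
    simp only [hf, hf']
    field_simp
    linear_combination -h1
  have hf0 : f' z0 ≠ 0 := mul_ne_zero (div_ne_zero hW0 (pow_ne_zero 2 hQ0)) hd0
  have hf2 := second hf1 hf'a hf0 hfE
  -- the point z1
  obtain ⟨z1, hz1, he1, he2⟩ : ∃ z1, z1 ∉ L' ∧ wp L' z1 = f z0 ∧ m * wpd L' z1 = f' z0 := by
    obtain ⟨z1, hz1, he1⟩ := h'.surj (f z0)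
    have h1 := h'.ode hz1
    rw [he1] at h1
    have h2 : (m * wpd L' z1) ^ 2 = f' z0 ^ 2 := by
      rw [hfE.self_of_nhds, mul_pow, h1]
    rcases sq_eq_sq_iff_eq_or_eq_neg.1 h2 with h3 | h3
    · exact ⟨z1, hz1, he1, h3⟩
    · refine ⟨-z1, ?_, ?_, ?_⟩
      · rwa [neg_mem_iff]
      · rw [h'.wp_neg, he1]
      · rw [h'.wpd_neg, mul_neg, h3, neg_neg]
  set c : ℂ := z1 - m * z0 with hc
  have hmz : m * z0 + c = z1 := by rw [hc]; ring
  have hlin : ∀ z, HasDerivAt (fun z : ℂ => m * z + c) m z := fun z => by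
    simpa using ((hasDerivAt_id z).const_mul m).add_const c
  have hevg : ∀ᶠ z in 𝓝 z0, m * z + c ∉ L' := by
    have h1 : ContinuousAt (fun z : ℂ => m * z + c) z0 := (hlin z0).continuousAt
    have h2 : (L' : Set ℂ)ᶜ ∈ 𝓝 (m * z0 + c) := by
      rw [hmz]
      exact h'.compl_mem_nhds hz1
    exact h1 h2
  have hg1 : ∀ᶠ z in 𝓝 z0, HasDerivAt (fun z => wp L' (m * z + c)) (m * wpd L' (m * z + c)) z := by
    filter_upwards [hevg] with z hz
    have h1 := (h'.hasDerivAt hz).comp z (hlin z)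
    rw [mul_comm] at h1
    exact h1
  have hg2 : ∀ᶠ z in 𝓝 z0, HasDerivAt (fun z => m * wpd L' (m * z + c))
      (6 * m ^ 2 * wp L' (m * z + c) ^ 2 + -m ^ 2 * g2 L' / 2) z := by
    filter_upwards [hevg] with z hz
    have h1 := ((h'.hasDerivAt' hz).comp z (hlin z)).const_mul m
    have e : m * ((6 * wp L' (m * z + c) ^ 2 - g2 L' / 2) * m) =
        6 * m ^ 2 * wp L' (m * z + c) ^ 2 + -m ^ 2 * g2 L' / 2 := by ring
    rw [e] at h1
    exact h1
  have hga : AnalyticAt ℂ (fun z => wp L' (m * z + c)) z0 := by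
    refine AnalyticAt.fun_comp (g := wp L') (f := fun z => m * z + c) ?_ (by fun_prop)
    exact h'.analyticOnNhd _ (by show m * z0 + c ∉ L'; rw [hmz]; exact hz1)
  have hfg := ode_unique (A := 6 * m ^ 2) (B := -m ^ 2 * g2 L' / 2) hfa hga hf1 hf2 hg1 hg2
    (by show f z0 = wp L' (m * z0 + c); rw [hmz, he1])
    (by show f' z0 = m * wpd L' (m * z0 + c); rw [hmz, he2])
  refine ⟨z0, c, hz0, by rw [hmz]; exact hz1, hQ0, ?_⟩
  filter_upwards [hfg, hev] with z h1 h2
  rw [← h1, hf]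
  show _ = Q.eval (wp L z) * (P.eval (wp L z) / Q.eval (wp L z))
  rw [mul_div_cancel₀ _ h2.2]

end Pool.Agent.Work.CM
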