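import Mathlib
import Pool.Agent.Work.CM.For1
import Pool.Agent.Work.CM.Ratio

/-!
# Module FOR: the functional relation from the algebraic relation

From `for_local` and `ident` (with `S = L ∪ {z | m z + c ∈ L'}`, countable; both sides of
`P(wp L z) = Q(wp L z) wp L' (m z + c)` are analytic off `S`): the relation holds off `S`.
As `z → 0`, `z ≠ 0`: `wp L z → ∞` so `P(wp L z) / Q(wp L z) → ∞` (`deg Q < deg P`), hence
`wp L' (m z + c) → ∞`, so `c ∈ L'` (otherwise it is continuous at `0`). So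
`wp L' (m z + c) = wp L' (m z)` (`fun_of_rel`).
`map_of_rel`: let `l ∈ L`; as `z → l`, `z ≠ l`: again `wp L z → ∞`, so `wp L' (m z) → ∞`, so
`m l ∈ L'`. If `z ∉ L` and `m z ∈ L'` then as `y → z`, `y ≠ z`: `wp L' (m y) → ∞` and
`P(wp L y)` is bounded, so `Q(wp L y) → 0`, and `Q(wp L z) = 0` by continuity.
-/

set_option autoImplicit false

namespace Pool.Agent.Work.CM

open Filter Topology Polynomial
open scoped Pointwise

variable {L L' : Submodule ℤ ℂ}

/-- near a point of `L` a relation with a continuous right hand side is impossible -/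
private theorem no_lim (h : IsLat L) {P Q : ℂ[X]} (hQ : Q ≠ 0) (hdeg : Q.natDegree < P.natDegree)
    {l : ℂ} (hl : l ∈ L) {F : ℂ → ℂ} (hF : ContinuousAt F l)
    (hE : ∀ᶠ z in 𝓝[≠] l, P.eval (wp L z) = Q.eval (wp L z) * F z) : False := by
  have h1 : Tendsto (fun z => P.eval (wp L z) / Q.eval (wp L z)) (𝓝[≠] l)
      (Bornology.cobounded ℂ) := (ratio_tendsto hQ hdeg).comp (h.tendsto hl)
  have h2 : ∀ᶠ z in 𝓝[≠] l, Q.eval (wp L z) ≠ 0 :=
    (h.tendsto hl).eventually (eventually_eval_ne hQ)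
  have h3 : F =ᶠ[𝓝[≠] l] fun z => P.eval (wp L z) / Q.eval (wp L z) := by
    filter_upwards [hE, h2] with z h4 h5
    rw [h4, mul_div_cancel_left₀ _ h5]
  have h4 : Tendsto F (𝓝[≠] l) (𝓝 (F l)) := hF.tendsto.mono_left nhdsWithin_le_nhds
  exact h1.not_tendsto (Metric.disjoint_nhds_cobounded _).symm (h4.congr' h3)

private theorem cont_lin (m c : ℂ) : Continuous fun z : ℂ => m * z + c := by fun_prop

private theorem inj_lin {m : ℂ} (hm : m ≠ 0) (c : ℂ) :
    Function.Injective fun z : ℂ => m * z + c := by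
  intro x y hxy
  exact mul_left_cancel₀ hm (add_right_cancel hxy)

/-- the relation everywhere with a shift -/
private theorem rel_shift (h : IsLat L) (h' : IsLat L') {m : ℂ} (hm : m ≠ 0) {P Q : ℂ[X]}
    (hR : Rel m (g2 L) (g3 L) (g2 L') (g3 L') P Q) : ∃ c : ℂ,
    ∀ z, z ∉ L → m * z + c ∉ L' → P.eval (wp L z) = Q.eval (wp L z) * wp L' (m * z + c) := by
  obtain ⟨z0, c, hz0, hz0', -, hloc⟩ := for_local h h' hm hR
  refine ⟨c, ?_⟩
  have hS : ((L : Set ℂ) ∪ {z : ℂ | m * z + c ∈ L'}).Countable :=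
    h.countable.union (h'.countable.preimage (inj_lin hm c))
  have hpol : ∀ p : ℂ[X], ∀ z ∉ L, AnalyticAt ℂ (fun z => p.eval (wp L z)) z := fun p z hz =>
    AnalyticAt.fun_comp (g := fun x => p.eval x) (p.differentiable.analyticAt _)
      (h.analyticOnNhd z hz)
  have hglob := ident hS (f := fun z => P.eval (wp L z))
    (g := fun z => Q.eval (wp L z) * wp L' (m * z + c))
    (fun z hz => hpol P z fun hc => hz (Or.inl hc))
    (fun z hz => (hpol Q z fun hc => hz (Or.inl hc)).fun_mul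
      (AnalyticAt.fun_comp (g := wp L') (f := fun z => m * z + c)
        (h'.analyticOnNhd _ fun hc => hz (Or.inr hc)) (by fun_prop)))
    (z0 := z0) (by
      rintro (hc | hc)
      · exact hz0 hc
      · exact hz0' hc) hloc
  intro z hz hz'
  apply hglob
  rintro (hc | hc)
  · exact hz hc
  · exact hz' hc

private theorem near_lin (h' : IsLat L') {m c z : ℂ} (hz : m * z + c ∉ L') :
    ∀ᶠ y in 𝓝 z, m * y + c ∉ L' :=
  ((cont_lin m c).tendsto z).eventually (h'.compl_mem_nhds hz)

private theorem cont_wp (h' : IsLat L') {m c z : ℂ} (hz : m * z + c ∉ L') :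
    ContinuousAt (fun y => wp L' (m * y + c)) z :=
  ContinuousAt.comp (g := wp L') (f := fun y => m * y + c)
    (h'.analyticOnNhd _ hz).continuousAt (cont_lin m c).continuousAt

theorem fun_of_rel (h : IsLat L) (h' : IsLat L') {m : ℂ} (hm : m ≠ 0) {P Q : ℂ[X]}
    (hR : Rel m (g2 L) (g3 L) (g2 L') (g3 L') P Q) {z : ℂ} (hz : z ∉ L) (hz' : m * z ∉ L') :
    Q.eval (wp L z) * wp L' (m * z) = P.eval (wp L z) := by
  obtain ⟨c, hc⟩ := rel_shift h h' hm hR
  have hcL : c ∈ L' := by
    by_contra hcL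
    have h0 : m * 0 + c ∉ L' := by rwa [mul_zero, zero_add]
    refine no_lim h hR.ne hR.deg (zero_mem L) (cont_wp h' h0) ?_
    filter_upwards [h.compl_mem_nhdsNE 0, nhdsWithin_le_nhds (near_lin h' h0)] with y h1 h2
    exact hc y h1 h2
  have h1 : m * z + c ∉ L' := fun h2 => hz' (by simpa using sub_mem h2 hcL)
  rw [hc z hz h1, h'.wp_add _ hcL]

theorem map_of_rel (h : IsLat L) (h' : IsLat L') {m : ℂ} (hm : m ≠ 0) {P Q : ℂ[X]}
    (hR : Rel m (g2 L) (g3 L) (g2 L') (g3 L') P Q) :
    (∀ l ∈ L, m * l ∈ L') ∧ ∀ z ∉ L, m * z ∈ L' → Q.eval (wp L z) = 0 := by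
  constructor
  · intro l hl
    by_contra hcL
    have h0 : m * l + 0 ∉ L' := by rwa [add_zero]
    refine no_lim h hR.ne hR.deg hl (cont_wp h' h0) ?_
    filter_upwards [h.compl_mem_nhdsNE l, nhdsWithin_le_nhds (near_lin h' h0)] with y h1 h2
    rw [add_zero] at h2 ⊢
    exact (fun_of_rel h h' hm hR h1 h2).symm
  · intro z hz hmz
    by_contra hQz
    have hpol : ∀ p : ℂ[X], ContinuousAt (fun z => p.eval (wp L z)) z := fun p =>
      ContinuousAt.comp (g := fun x => p.eval x) p.continuous.continuousAt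
        (h.analyticOnNhd z hz).continuousAt
    have h1 : ContinuousAt (fun y => P.eval (wp L y) / Q.eval (wp L y)) z :=
      (hpol P).div (hpol Q) hQz
    have h2 : Tendsto (fun y => m * y) (𝓝[≠] z) (𝓝[≠] (m * z)) := by
      rw [tendsto_nhdsWithin_iff]
      constructor
      · have : Continuous fun y : ℂ => m * y := by fun_prop
        exact (this.tendsto z).mono_left nhdsWithin_le_nhds
      · filter_upwards [self_mem_nhdsWithin] with y hy hc
        exact hy (mul_left_cancel₀ hm hc)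
    have h3 : Tendsto (fun y => wp L' (m * y)) (𝓝[≠] z) (Bornology.cobounded ℂ) :=
      (h'.tendsto hmz).comp h2
    have h4 : (fun y => P.eval (wp L y) / Q.eval (wp L y)) =ᶠ[𝓝[≠] z]
        fun y => wp L' (m * y) := by
      filter_upwards [nhdsWithin_le_nhds (h.compl_mem_nhds hz),
        h2.eventually (h'.compl_mem_nhdsNE (m * z)),
        nhdsWithin_le_nhds ((hpol Q).eventually_ne hQz)] with y h5 h6 h7
      rw [← fun_of_rel h h' hm hR h5 h6, mul_div_cancel_left₀ _ h7]
    have h5 : Tendsto (fun y => P.eval (wp L y) / Q.eval (wp L y)) (𝓝[≠] z)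
        (𝓝 (P.eval (wp L z) / Q.eval (wp L z))) :=
      h1.tendsto.mono_left nhdsWithin_le_nhds
    exact h3.not_tendsto (Metric.disjoint_nhds_cobounded _).symm (h5.congr' h4)

private theorem le_of_inv (h : IsLat L) (h' : IsLat L') (h2 : g2 L = g2 L') (h3 : g3 L = g3 L') :
    L ≤ L' := by
  have hR : Rel 1 (g2 L) (g3 L) (g2 L') (g3 L') X 1 := by
    refine ⟨one_ne_zero, by simp, ?_⟩
    rw [h2, h3]
    simp
  intro l hl
  have := (map_of_rel h h' one_ne_zero hR).1 l hl
  rwa [one_mul] at this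

/-- a lattice is determined by its invariants -/
theorem eq_of_inv (h : IsLat L) (h' : IsLat L') (h2 : g2 L = g2 L') (h3 : g3 L = g3 L') :
    L = L' :=
  le_antisymm (le_of_inv h h' h2 h3) (le_of_inv h' h h2.symm h3.symm)

end Pool.Agent.Work.CM
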