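import Mathlib
import Pool.Agent.Work.CM.Bas
import Pool.Agent.Work.CM.Hom

/-!
# Module EIS: the invariants of the lattice generated by `τ` and 1

Reindex `∑' l : tauLat τ, (l^k)⁻¹` by `v : Fin 2 → ℤ ↦ v 0 * τ + v 1` (a bijection onto the lattice,
`PeriodPair.latticeEquivProd` for the pair `(τ, 1)`), which gives
`∑' v, EisensteinSeries.eisSummand k v τ`; then
`tsum_eisSummand_eq_riemannZeta_mul_eisensteinSeries` and `E hk = 1/2 • eisensteinSeries`
(see `EisensteinSeries.q_expansion_riemannZeta` in Mathlib for the unfolding of `E`). `ζ(4) = π^4/90`,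
`ζ(6) = π^6/945` (`riemannZeta_four`, `riemannZeta_two_mul_nat`).
-/

set_option autoImplicit false

namespace Pool.Agent.Work.CM

open Filter Topology Polynomial UpperHalfPlane ModularForm EisensteinSeries
open scoped Pointwise

variable {L L' : Submodule ℤ ℂ}

/-- the lattice generated by `τ` and 1 -/
noncomputable def tauLat (τ : ℍ) : Submodule ℤ ℂ := Submodule.span ℤ {(τ : ℂ), 1}

private theorem eis_indep (τ : ℍ) : LinearIndependent ℝ ![(τ : ℂ), 1] := by
  rw [LinearIndependent.pair_iff]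
  intro s t h
  have h1 := congrArg Complex.im h
  have h2 := congrArg Complex.re h
  simp at h1 h2
  have h3 : s = 0 := by
    rcases h1 with h1 | h1
    · exact h1
    · exact absurd h1 τ.im_ne_zero
  subst h3
  exact ⟨rfl, by simpa using h2⟩

private noncomputable def eisPair (τ : ℍ) : PeriodPair := ⟨(τ : ℂ), 1, eis_indep τ⟩

private theorem eisPair_lattice (τ : ℍ) : (eisPair τ).lattice = tauLat τ := rfl

theorem tauLat_isLat (τ : ℍ) : IsLat (tauLat τ) := ⟨eisPair τ, eisPair_lattice τ⟩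

theorem tsum_tauLat {k : ℕ} (hk : 3 ≤ k) (τ : ℍ) :
    ∑' l : tauLat τ, ((l : ℂ) ^ k)⁻¹ = 2 * riemannZeta k * E hk τ := by
  have hE : E hk τ = (1 / 2 : ℂ) * eisensteinSeries (N := 1) 0 k τ := rfl
  have h1 := tsum_eisSummand_eq_riemannZeta_mul_eisensteinSeries hk τ
  have h2 : ∑' l : tauLat τ, ((l : ℂ) ^ k)⁻¹ = ∑' v : Fin 2 → ℤ, eisSummand k v τ := by
    let e : (Fin 2 → ℤ) ≃ (eisPair τ).lattice :=
      (finTwoArrowEquiv ℤ).trans (eisPair τ).latticeEquivProd.symm.toEquiv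
    have h3 : ∑' l : tauLat τ, ((l : ℂ) ^ k)⁻¹ =
        ∑' v : Fin 2 → ℤ, (((e v : ℂ)) ^ k)⁻¹ :=
      (e.tsum_eq (fun l : (eisPair τ).lattice => ((l : ℂ) ^ k)⁻¹)).symm
    rw [h3]
    refine tsum_congr fun v => ?_
    have h4 : (e v : ℂ) = v 0 * τ + v 1 := by
      have h5 := (eisPair τ).latticeEquiv_symm_apply (v 0, v 1)
      have h6 : (e v : ℂ) = ((eisPair τ).latticeEquivProd.symm (v 0, v 1)).1 := rfl
      rw [h6, h5]
      simp [eisPair]
    rw [h4, eisSummand, zpow_neg, zpow_natCast]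
  rw [h2, h1, hE]
  ring

theorem g2_tauLat (τ : ℍ) : g2 (tauLat τ) = 4 * Real.pi ^ 4 / 3 * E₄ τ := by
  have h1 := tsum_tauLat (k := 4) (by norm_num) τ
  have h2 : riemannZeta ((4 : ℕ) : ℂ) = Real.pi ^ 4 / 90 := by
    rw [← riemannZeta_four]
    norm_num
  rw [g2, h1, h2]
  ring

theorem g3_tauLat (τ : ℍ) : g3 (tauLat τ) = 8 * Real.pi ^ 6 / 27 * E₆ τ := by
  have h1 := tsum_tauLat (k := 6) (by norm_num) τ
  have h2 : riemannZeta ((6 : ℕ) : ℂ) = Real.pi ^ 6 / 945 := by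
    have h3 := riemannZeta_two_mul_nat (k := 3) (by norm_num)
    have h4 : _root_.bernoulli 6 = 1 / 42 := by decide +kernel
    have h5 : ((6 : ℕ) : ℂ) = 2 * ((3 : ℕ) : ℂ) := by norm_num
    rw [h5, h3, show 2 * 3 = 6 from rfl, h4]
    norm_num [Nat.factorial]
    ring
  rw [g3, h1, h2]
  ring

end Pool.Agent.Work.CM
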