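import Mathlib
import Pool.Agent.Work.CM.Defs

/-!
# Module JSU: the modular invariant is surjective

Suppose `E₄ τ ^ 3 ≠ c Δ τ` for all `τ`. The function `F = E₄^3 - c Δ` is a modular form of weight 12
and level one without zeros, with limit 1 at infinity (`E₄` tends to 1, `Δ` is a cusp form), so `1 / F`
is holomorphic, bounded at infinity, and a modular form of weight `-12` (cusps: one only, as in the
constructions of Mathlib, for instance `CuspForm.discriminantEquiv` in
`NumberTheory/ModularForms/LevelOne/DimensionFormula.lean`, which divides by `Δ`). By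
`ModularFormClass.levelOne_neg_weight_eq_zero` it is zero, absurd.
-/

set_option autoImplicit false

namespace Pool.Agent.Work.CM

open Filter Topology Polynomial UpperHalfPlane ModularForm EisensteinSeries
open scoped Pointwise MatrixGroups

variable {L L' : Submodule ℤ ℂ}

/-- the form without zeros -/
private noncomputable def jsuF (c : ℂ) : ModularForm 𝒮ℒ 12 :=
  ModularForm.mcast (by decide) (E₄.pow 3) - c • (CuspForm.discriminant : ModularForm 𝒮ℒ 12)

private theorem jsuF_apply (c : ℂ) (τ : ℍ) :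
    jsuF c τ = E₄ τ ^ 3 - c * ModularForm.discriminant τ := by
  simp only [jsuF, coe_mcast, ModularForm.coe_pow, sub_apply, Pi.pow_apply]
  rfl

private theorem jsuF_coeff (c : ℂ) : (qExpansion 1 (jsuF c)).coeff 0 = 1 := by
  have h0 : (qExpansion 1 ((CuspForm.discriminant : ModularForm 𝒮ℒ 12) : ℍ → ℂ)).coeff 0 = 0 := by
    simpa using CuspFormClass.qExpansion_coeff_zero CuspForm.discriminant one_pos
      one_mem_strictPeriods_SL
  have h1 : qExpansion 1 (jsuF c) = qExpansion 1 E₄ ^ 3 -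
      c • qExpansion 1 ((CuspForm.discriminant : ModularForm 𝒮ℒ 12) : ℍ → ℂ) := by
    have e1 : (⇑(jsuF c) : ℍ → ℂ) = ⇑(ModularForm.mcast (by decide) (E₄.pow 3) : ModularForm 𝒮ℒ 12) -
        ⇑(c • (CuspForm.discriminant : ModularForm 𝒮ℒ 12)) := rfl
    have e2 : (⇑(ModularForm.mcast (by decide) (E₄.pow 3) : ModularForm 𝒮ℒ 12) : ℍ → ℂ) =
        ⇑(E₄.pow 3) := rfl
    have e3 : (⇑(c • (CuspForm.discriminant : ModularForm 𝒮ℒ 12)) : ℍ → ℂ) =
        c • ⇑(CuspForm.discriminant : ModularForm 𝒮ℒ 12) := rfl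
    rw [e1, ModularForm.qExpansion_sub one_pos one_mem_strictPeriods_SL, e2,
      ModularForm.qExpansion_pow one_pos one_mem_strictPeriods_SL, e3,
      ModularForm.qExpansion_smul one_pos one_mem_strictPeriods_SL]
  have h2 : (qExpansion 1 E₄).coeff 0 = 1 := E_qExpansion_coeff_zero _ ⟨2, rfl⟩
  rw [h1, map_sub, PowerSeries.coeff_smul, h0, smul_zero, sub_zero]
  rw [PowerSeries.coeff_zero_eq_constantCoeff] at h2 ⊢
  rw [map_pow, h2, one_pow]

private theorem jsuF_tendsto (c : ℂ) : Tendsto (jsuF c) atImInfty (𝓝 1) := by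
  have hanal := ModularFormClass.analyticAt_cuspFunction_zero (jsuF c) one_pos one_mem_strictPeriods_SL
  have hper := SlashInvariantFormClass.periodic_comp_ofComplex (jsuF c) one_mem_strictPeriods_SL
  have h1 : (qExpansion 1 (jsuF c)).coeff 0 = cuspFunction 1 (jsuF c) 0 := by
    simp [qExpansion_coeff]
  rw [jsuF_coeff] at h1
  rw [h1]
  exact (hanal.continuousAt.tendsto.comp (qParam_tendsto_atImInfty one_pos)).congr
    (fun τ ↦ SlashInvariantFormClass.eq_cuspFunction (jsuF c) τ one_mem_strictPeriods_SL one_ne_zero)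

private theorem jsu_slash {f : ModularForm 𝒮ℒ 12} (γ : SL(2, ℤ)) :
    ((⇑(ModularForm.const 1 : ModularForm 𝒮ℒ 0) / ⇑f) : ℍ → ℂ) ∣[(-12 : ℤ)] γ =
      (⇑(ModularForm.const 1 : ModularForm 𝒮ℒ 0) / ⇑f) := by
  have hγ : (γ : GL (Fin 2) ℝ) ∈ 𝒮ℒ := ⟨γ, rfl⟩
  have h1 : (-12 : ℤ) = 0 - 12 := by norm_num
  rw [h1, div_slash_SL2]
  simp_rw [SL_slash]
  rw [SlashInvariantForm.slash_action_eqn _ _ hγ, SlashInvariantForm.slash_action_eqn _ _ hγ]

theorem exists_j (c : ℂ) : ∃ τ : ℍ, E₄ τ ^ 3 = c * ModularForm.discriminant τ := by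
  by_contra hcon
  push Not at hcon
  have hne : ∀ τ, jsuF c τ ≠ 0 := fun τ => by
    rw [jsuF_apply]
    exact sub_ne_zero.2 (hcon τ)
  have hbd : IsBoundedAtImInfty (⇑(ModularForm.const 1 : ModularForm 𝒮ℒ 0) / ⇑(jsuF c)) := by
    have h1 : Tendsto (⇑(ModularForm.const 1 : ModularForm 𝒮ℒ 0) / ⇑(jsuF c)) atImInfty
        (𝓝 (1 / 1)) :=
      Tendsto.div tendsto_const_nhds (jsuF_tendsto c) one_ne_zero
    exact h1.isBigO_one ℝ
  let G : ModularForm 𝒮ℒ (-12) :=
    { toFun := ⇑(ModularForm.const 1 : ModularForm 𝒮ℒ 0) / ⇑(jsuF c)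
      slash_action_eq' := fun _ ⟨γ, hγ⟩ ↦ hγ ▸ jsu_slash γ
      holo' := (ModularForm.const 1 : ModularForm 𝒮ℒ 0).holo'.div (jsuF c).holo' hne
      bdd_at_cusps' := by
        intro c' hc
        rw [Subgroup.IsArithmetic.isCusp_iff_isCusp_SL2Z] at hc
        rw [OnePoint.isBoundedAt_iff_forall_SL2Z hc]
        intro γ _
        rw [jsu_slash]
        exact hbd }
  have h1 := ModularFormClass.levelOne_neg_weight_eq_zero (by norm_num) G
  have h2 := congrFun h1 UpperHalfPlane.I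
  have h3 : G UpperHalfPlane.I = 1 / jsuF c UpperHalfPlane.I := rfl
  rw [h3] at h2
  simp [hne] at h2

end Pool.Agent.Work.CM
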