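import Mathlib
import Pool.Agent.Work.CM.Eis
import Pool.Agent.Work.CM.Jsu

/-!
# Module UNIF: every pair of invariants with nonzero discriminant comes from a lattice

Let `D = a^3 - 27 b^2`. By `exists_j` with `c = 1728 a^3 / D` there is `τ` with `E₄^3 D = 1728 a^3 Δ`.
With `A = g2 (tauLat τ) = 4π^4/3 E₄`, `B = g3 (tauLat τ) = 8π^6/27 E₆` and
`Δ = (E₄^3 - E₆^2)/1728` (`discriminant_eq_E₄_cube_sub_E₆_sq`), `Δ ≠ 0` (`discriminant_ne_zero`):
`A^3 - 27 B^2 = (64 π^12/27) (E₄^3 - E₆^2) = (64 π^12/27) 1728 Δ ≠ 0` and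
`A^3 (a^3 - 27 b^2) = a^3 (A^3 - 27 B^2)`, i.e. `A^3 b^2 = a^3 B^2`.
It is enough to find `m ≠ 0` with `A = m^4 a`, `B = m^6 b`, then `L = m • tauLat τ` (`g2_smul`,
`g3_smul`). If `a = 0`: `b ≠ 0`, `A^3 b^2 = 0` so `A = 0`, `B ≠ 0`; `m^6 = B / b`. If `b = 0`: `a ≠ 0`,
`B = 0`, `A ≠ 0`, `m^4 = A / a`. Otherwise `A, B ≠ 0`: `m^2 = B a / (b A)`; then
`m^4 = B^2 a^2 / (b^2 A^2) = A / a` and `m^6 = m^2 m^4 = B / b`.
-/

set_option autoImplicit false

namespace Pool.Agent.Work.CM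

open Filter Topology Polynomial
open scoped Pointwise

variable {L L' : Submodule ℤ ℂ}

private theorem unif_alg {a b A B : ℂ} (h : a ^ 3 ≠ 27 * b ^ 2) (hAB : A ^ 3 ≠ 27 * B ^ 2)
    (hr : A ^ 3 * b ^ 2 = a ^ 3 * B ^ 2) :
    ∃ m : ℂ, m ≠ 0 ∧ A = m ^ 4 * a ∧ B = m ^ 6 * b := by
  by_cases ha : a = 0
  · subst ha
    have hb : b ≠ 0 := by
      rintro rfl
      exact h (by norm_num)
    have hA : A = 0 := by
      have h1 : A ^ 3 * b ^ 2 = 0 := by rw [hr]; ring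
      rcases mul_eq_zero.1 h1 with h2 | h2
      · exact (pow_eq_zero_iff (by norm_num)).1 h2
      · exact absurd ((pow_eq_zero_iff (by norm_num)).1 h2) hb
    subst hA
    have hB : B ≠ 0 := by
      rintro rfl
      exact hAB (by norm_num)
    obtain ⟨m, hm⟩ := IsAlgClosed.exists_pow_nat_eq (B / b) (n := 6) (by norm_num)
    refine ⟨m, ?_, by ring, ?_⟩
    · rintro rfl
      have h1 : B / b = 0 := by rw [← hm]; norm_num
      exact div_ne_zero hB hb h1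
    · rw [hm]
      field_simp
  by_cases hb : b = 0
  · subst hb
    have hB : B = 0 := by
      have h1 : a ^ 3 * B ^ 2 = 0 := by rw [← hr]; ring
      rcases mul_eq_zero.1 h1 with h2 | h2
      · exact absurd ((pow_eq_zero_iff (by norm_num)).1 h2) ha
      · exact (pow_eq_zero_iff (by norm_num)).1 h2
    subst hB
    have hA : A ≠ 0 := by
      rintro rfl
      exact hAB (by norm_num)
    obtain ⟨m, hm⟩ := IsAlgClosed.exists_pow_nat_eq (A / a) (n := 4) (by norm_num)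
    refine ⟨m, ?_, ?_, by ring⟩
    · rintro rfl
      have h1 : A / a = 0 := by rw [← hm]; norm_num
      exact div_ne_zero hA ha h1
    · rw [hm]
      field_simp
  have hA : A ≠ 0 := by
    rintro rfl
    have h1 : a ^ 3 * B ^ 2 = 0 := by rw [← hr]; ring
    rcases mul_eq_zero.1 h1 with h2 | h2
    · exact ha ((pow_eq_zero_iff (by norm_num)).1 h2)
    · apply hAB
      rw [h2]
      norm_num
  have hB : B ≠ 0 := by
    rintro rfl
    have h1 : A ^ 3 * b ^ 2 = 0 := by rw [hr]; ring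
    rcases mul_eq_zero.1 h1 with h2 | h2
    · exact hA ((pow_eq_zero_iff (by norm_num)).1 h2)
    · exact hb ((pow_eq_zero_iff (by norm_num)).1 h2)
  obtain ⟨m, hm⟩ := IsAlgClosed.exists_pow_nat_eq (B * a / (b * A)) (n := 2) (by norm_num)
  have h4 : m ^ 4 = A / a := by
    have h5 : m ^ 4 = (m ^ 2) ^ 2 := by ring
    rw [h5, hm]
    field_simp
    linear_combination (-1 : ℂ) * hr
  refine ⟨m, ?_, ?_, ?_⟩
  · rintro rfl
    have h1 : B * a / (b * A) = 0 := by rw [← hm]; norm_num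
    exact div_ne_zero (mul_ne_zero hB ha) (mul_ne_zero hb hA) h1
  · rw [h4]
    field_simp
  · have h5 : m ^ 6 = m ^ 2 * m ^ 4 := by ring
    rw [h5, hm, h4]
    field_simp

theorem exists_lattice {a b : ℂ} (h : a ^ 3 ≠ 27 * b ^ 2) :
    ∃ L : Submodule ℤ ℂ, IsLat L ∧ g2 L = a ∧ g3 L = b := by
  have hD : a ^ 3 - 27 * b ^ 2 ≠ 0 := sub_ne_zero.2 h
  obtain ⟨τ, hτ⟩ := exists_j (1728 * a ^ 3 / (a ^ 3 - 27 * b ^ 2))
  have h1 := ModularForm.discriminant_eq_E₄_cube_sub_E₆_sq τ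
  have h2 := ModularForm.discriminant_ne_zero τ
  have hA := g2_tauLat τ
  have hB := g3_tauLat τ
  set E4 : ℂ := ModularForm.E₄ τ
  set E6 : ℂ := ModularForm.E₆ τ
  have hpi : (Real.pi : ℂ) ≠ 0 := by exact_mod_cast Real.pi_ne_zero
  have h3 : E4 ^ 3 - E6 ^ 2 ≠ 0 := by
    intro h4
    apply h2
    rw [h1, h4]
    norm_num
  have h4 : 27 * b ^ 2 * E4 ^ 3 = a ^ 3 * E6 ^ 2 := by
    rw [h1] at hτ
    field_simp at hτ
    linear_combination (-1 : ℂ) * hτ
  obtain ⟨m, hm, h5, h6⟩ := unif_alg (A := g2 (tauLat τ)) (B := g3 (tauLat τ)) h (by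
    intro h5
    rw [hA, hB] at h5
    apply h3
    have h6 : (64 : ℂ) * Real.pi ^ 12 / 27 * (E4 ^ 3 - E6 ^ 2) = 0 := by
      linear_combination h5
    rcases mul_eq_zero.1 h6 with h7 | h7
    · exfalso
      exact div_ne_zero (mul_ne_zero (by norm_num) (pow_ne_zero _ hpi)) (by norm_num) h7
    · exact h7) (by
    rw [hA, hB]
    linear_combination (64 : ℂ) * Real.pi ^ 12 / 729 * h4)
  refine ⟨m • tauLat τ, (tauLat_isLat τ).smul hm, ?_, ?_⟩
  · rw [g2_smul hm, h5]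
    field_simp
  · rw [g3_smul hm, h6]
    field_simp

end Pool.Agent.Work.CM
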