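import Mathlib
import Pool.Agent.Work.CM.Unif
import Pool.Agent.Work.CM.Disc
import Pool.Agent.Work.CM.For
import Pool.Agent.Work.CM.Exr
import Pool.Agent.Work.CM.Hom

/-!
# Module CJ: the action of the automorphisms of the complex numbers on lattices

* `conj_spec`: `Classical.epsilon_spec` with `exists_lattice` for `σ (g2 L)`, `σ (g3 L)`
  (`IsLat.disc`, `σ` injective).
* `conj_eq_of`: `eq_of_inv`.
* `conj_mem`: `m = 0` is trivial; `m ≠ 0`: `exists_rel` for `(L, L', m)` gives `P, Q`; the polynomials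
  `P.map σ`, `Q.map σ` satisfy `Rel (σ m) ...` for the images of the invariants; `map_of_rel`.
* `conj_le`: `m = 1`.
* `conj_symm`, `conj_trans`, `conj_smul` (`g2_smul`, `g3_smul`): `conj_eq_of`.
-/

set_option autoImplicit false

namespace Pool.Agent.Work.CM

open Filter Topology Polynomial
open scoped Pointwise

variable {L L' : Submodule ℤ ℂ}

theorem conj_spec (σ : ℂ ≃+* ℂ) (h : IsLat L) :
    IsLat (conj σ L) ∧ g2 (conj σ L) = σ (g2 L) ∧ g3 (conj σ L) = σ (g3 L) := by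
  have hex : ∃ L' : Submodule ℤ ℂ, IsLat L' ∧ g2 L' = σ (g2 L) ∧ g3 L' = σ (g3 L) := by
    refine exists_lattice fun h1 => h.disc ?_
    have h2 : σ (g2 L ^ 3) = σ (27 * g3 L ^ 2) := by
      rw [map_mul, map_pow, map_pow, h1]
      congr 1
      exact (map_ofNat σ 27).symm
    exact σ.injective h2
  exact Classical.epsilon_spec hex

theorem conj_eq_of (σ : ℂ ≃+* ℂ) (h : IsLat L) (h' : IsLat L') (h2 : g2 L' = σ (g2 L))
    (h3 : g3 L' = σ (g3 L)) : conj σ L = L' := by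
  obtain ⟨a, b, c⟩ := conj_spec σ h
  exact eq_of_inv a h' (by rw [b, h2]) (by rw [c, h3])

theorem Rel.map (σ : ℂ ≃+* ℂ) {m a b a' b' : ℂ} {P Q : ℂ[X]} (h : Rel m a b a' b' P Q) :
    Rel (σ m) (σ a) (σ b) (σ a') (σ b') (P.map (σ : ℂ →+* ℂ)) (Q.map (σ : ℂ →+* ℂ)) := by
  have hinj : Function.Injective (σ : ℂ →+* ℂ) := σ.injective
  refine ⟨?_, ?_, ?_⟩
  · exact (Polynomial.map_ne_zero_iff hinj).2 h.ne
  · rw [Polynomial.natDegree_map_eq_of_injective hinj, Polynomial.natDegree_map_eq_of_injective hinj]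
    exact h.deg
  · have h1 := congrArg (Polynomial.map (σ : ℂ →+* ℂ)) h.eq
    simp only [Polynomial.map_mul, Polynomial.map_sub, Polynomial.map_pow, Polynomial.map_C,
      Polynomial.map_ofNat, Polynomial.map_X, ← Polynomial.derivative_map] at h1
    simpa using h1

theorem conj_mem (σ : ℂ ≃+* ℂ) (h : IsLat L) (h' : IsLat L') {m : ℂ}
    (hmap : ∀ l ∈ L, m * l ∈ L') : ∀ l ∈ conj σ L, σ m * l ∈ conj σ L' := by
  intro l hl
  by_cases hm : m = 0
  · rw [hm, map_zero, zero_mul]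
    exact zero_mem _
  obtain ⟨P, Q, hR⟩ := exists_rel h h' hm hmap
  obtain ⟨a, b, c⟩ := conj_spec σ h
  obtain ⟨a', b', c'⟩ := conj_spec σ h'
  have hR' := hR.map σ
  rw [← b, ← c, ← b', ← c'] at hR'
  exact (map_of_rel a a' ((map_ne_zero σ).2 hm) hR').1 l hl

theorem conj_le (σ : ℂ ≃+* ℂ) (h : IsLat L) (h' : IsLat L') (hle : L ≤ L') :
    conj σ L ≤ conj σ L' := by
  intro l hl
  have h1 := conj_mem σ h h' (m := 1) (fun l hl => by rw [one_mul]; exact hle hl) l hl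
  rwa [map_one, one_mul] at h1

theorem conj_trans (σ τ : ℂ ≃+* ℂ) (h : IsLat L) : conj σ (conj τ L) = conj (τ.trans σ) L := by
  obtain ⟨a, b, c⟩ := conj_spec τ h
  obtain ⟨a', b', c'⟩ := conj_spec (τ.trans σ) h
  exact conj_eq_of σ a a' (by rw [b', b]; rfl) (by rw [c', c]; rfl)

theorem conj_refl (h : IsLat L) : conj (RingEquiv.refl ℂ) L = L :=
  conj_eq_of _ h h rfl rfl

theorem conj_smul (σ : ℂ ≃+* ℂ) (h : IsLat L) {m : ℂ} (hm : m ≠ 0) :
    conj σ (m • L) = σ m • conj σ L := by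
  obtain ⟨a, b, c⟩ := conj_spec σ h
  have hm' : σ m ≠ 0 := (map_ne_zero σ).2 hm
  refine conj_eq_of σ (h.smul hm) (a.smul hm') ?_ ?_
  · rw [g2_smul hm', g2_smul hm, b]
    simp
  · rw [g3_smul hm', g3_smul hm, c]
    simp

end Pool.Agent.Work.CM
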