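import Mathlib
import Pool.Agent.Work.CM.Cj
import Pool.Agent.Work.CM.Rep

/-!
# Module KL1: automorphisms over `K` and lattices in `K`, I

`InK K L`: the elements of `L` are in the image of `K`. `σ` fixes the elements of the image of `K`.

`conj_mul`: for `m ∈ L`: `m B ≤ L`, so `m (conj σ B) ≤ conj σ L` (`conj_mem`, `σ m = m`). So
`X := L * conj σ B ≤ conj σ L` (`Submodule.mul_le`). `X` is a lattice (`isLat_of_sandwich`, `m ∈ L`
nonzero). For `m ∈ L`: `m (conj σ B) ≤ X`, so with `σ.symm`: `m B ≤ conj σ.symm X`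
(`conj_trans`, `conj_refl`), and `1 ∈ B`, so `L ≤ conj σ.symm X`; `conj_le` gives `conj σ L ≤ X`.
-/

set_option autoImplicit false

namespace Pool.Agent.Work.CM

open Filter Topology Polynomial
open scoped Pointwise

variable {L L' : Submodule ℤ ℂ}

/-- the elements of `L` are in the image of `K` -/
def InK (K : Type*) [Field K] [Algebra K ℂ] (L : Submodule ℤ ℂ) : Prop :=
  ∀ l ∈ L, ∃ x : K, algebraMap K ℂ x = l

variable {K : Type*} [Field K] [Algebra K ℂ]

private theorem kl1_fix (σ : ℂ ≃ₐ[K] ℂ) (hK : InK K L) {l : ℂ} (hl : l ∈ L) :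
    (σ : ℂ ≃+* ℂ) l = l := by
  obtain ⟨x, rfl⟩ := hK l hl
  exact σ.commutes x

private theorem kl1_fix' (σ : ℂ ≃ₐ[K] ℂ) (hK : InK K L) {l : ℂ} (hl : l ∈ L) :
    (σ : ℂ ≃+* ℂ).symm l = l := by
  rw [RingEquiv.symm_apply_eq]
  exact (kl1_fix σ hK hl).symm

private theorem kl1_ne (h : IsLat L) : ∃ m ∈ L, m ≠ 0 := by
  obtain ⟨P, rfl⟩ := h
  refine ⟨P.ω₁, PeriodPair.mem_lattice.2 ⟨1, 0, by push_cast; ring⟩, ?_⟩
  exact P.indep.ne_zero 0

theorem conj_mul (σ : ℂ ≃ₐ[K] ℂ) {B : Submodule ℤ ℂ} (hB : IsLat B) (h : IsLat L)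
    (hK : InK K L) (h1 : (1 : ℂ) ∈ B) (hBL : B * L ≤ L) :
    conj (σ : ℂ ≃+* ℂ) L = L * conj (σ : ℂ ≃+* ℂ) B := by
  set s : ℂ ≃+* ℂ := (σ : ℂ ≃+* ℂ) with hs
  have hmB : ∀ m ∈ L, ∀ b ∈ B, m * b ∈ L := fun m hm b hb => by
    rw [mul_comm]
    exact hBL (Submodule.mul_mem_mul hb hm)
  have hle : L * conj s B ≤ conj s L := by
    rw [Submodule.mul_le]
    intro m hm n hn
    have h2 := conj_mem s hB h (hmB m hm) n hn
    rwa [hs, kl1_fix σ hK hm] at h2
  have hcB := (conj_spec s hB).1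
  have hcL := (conj_spec s h).1
  obtain ⟨m0, hm0, hm0'⟩ := kl1_ne h
  have hX : IsLat (L * conj s B) := by
    refine isLat_of_sandwich hcB hcL hm0' ?_ hle
    intro z hz
    obtain ⟨b, hb, rfl⟩ := Submodule.mem_smul_pointwise_iff_exists _ _ _ |>.1 hz
    exact Submodule.mul_mem_mul hm0 hb
  have hback : ∀ {A : Submodule ℤ ℂ}, IsLat A → conj s.symm (conj s A) = A := by
    intro A hA
    rw [conj_trans s.symm s hA]
    have e : s.trans s.symm = RingEquiv.refl ℂ := by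
      ext x
      simp
    rw [e, conj_refl hA]
  have hfor : ∀ {A : Submodule ℤ ℂ}, IsLat A → conj s (conj s.symm A) = A := by
    intro A hA
    rw [conj_trans s s.symm hA]
    have e : s.symm.trans s = RingEquiv.refl ℂ := by
      ext x
      simp
    rw [e, conj_refl hA]
  refine le_antisymm ?_ hle
  have h3 : L ≤ conj s.symm (L * conj s B) := by
    intro m hm
    have h4 := conj_mem s.symm hcB hX (m := m) (fun l hl => Submodule.mul_mem_mul hm hl) 1
      (by rw [hback hB]; exact h1)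
    rwa [hs, kl1_fix' σ hK hm, mul_one] at h4
  have h5 := conj_le s h (conj_spec s.symm hX).1 h3
  rwa [hfor hX] at h5

end Pool.Agent.Work.CM
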