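import Mathlib
import Pool.Agent.Work.CM.Kl1
import Pool.Agent.Work.CM.Hom

/-!
# Module KL2: automorphisms over `K` and lattices in `K`, II

`B` is a lattice in `K` which is a ring. `D = conj σ B`: `B * D ≤ D` by `conj_mem` (for `b ∈ B`,
`b B ≤ B`, `σ b = b`). Take `μ ∈ D`, `μ ≠ 0`, `C = μ⁻¹ • D`: `1 ∈ C`, `B * C ≤ C`, so `B ≤ C`; every
`c ∈ C` has a multiple `N c ∈ B` (`exists_mul_mem`), so `c` is in the image of `K`. Then `conj_mul`: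
`conj σ L = L * (μ • C) = μ • (L * C)`.

`conj_comm`: with `(μ, C)` for `σ` and `(μ', C')` for `τ`:
`conj σ (conj τ L) = conj σ (μ' • (L * C')) = σ μ' • μ • (L * C' * C)` and
`conj τ (conj σ L) = τ μ • μ' • (L * C * C')`. (`L * C'` is a lattice in `K` stable by `B`:
it is `μ'⁻¹ • conj τ L`.)
-/

set_option autoImplicit false

namespace Pool.Agent.Work.CM

open Filter Topology Polynomial
open scoped Pointwise

variable {L L' : Submodule ℤ ℂ}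

variable {K : Type*} [Field K] [Algebra K ℂ]

private theorem kl2_mem {m : ℂ} (hm : m ≠ 0) {z : ℂ} : z ∈ m⁻¹ • L ↔ m * z ∈ L := by
  have := mem_smul_iff (L := L) (inv_ne_zero hm) (z := m * z)
  rwa [← mul_assoc, inv_mul_cancel₀ hm, one_mul] at this

private theorem kl2_ne (h : IsLat L) : ∃ m ∈ L, m ≠ 0 := by
  obtain ⟨P, rfl⟩ := h
  exact ⟨P.ω₁, PeriodPair.mem_lattice.2 ⟨1, 0, by push_cast; ring⟩, P.indep.ne_zero 0⟩

private theorem kl2_mul_smul (A C : Submodule ℤ ℂ) {μ : ℂ} (hμ : μ ≠ 0) :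
    A * (μ • C) = μ • (A * C) := by
  apply le_antisymm
  · rw [Submodule.mul_le]
    intro a ha z hz
    obtain ⟨c, hc, rfl⟩ := (Submodule.mem_smul_pointwise_iff_exists _ _ _).1 hz
    have h1 : a * (μ • c) = μ * (a * c) := by
      rw [smul_eq_mul]
      ring
    rw [h1, mem_smul_iff hμ]
    exact Submodule.mul_mem_mul ha hc
  · intro z hz
    obtain ⟨w, hw, rfl⟩ := (Submodule.mem_smul_pointwise_iff_exists _ _ _).1 hz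
    rw [smul_eq_mul]
    refine Submodule.mul_induction_on (C := fun w => μ * w ∈ A * (μ • C)) hw ?_ ?_
    · intro a ha c hc
      have h1 : μ * (a * c) = a * (μ * c) := by ring
      rw [h1]
      exact Submodule.mul_mem_mul ha ((mem_smul_iff hμ).2 hc)
    · intro x y hx hy
      rw [mul_add]
      exact add_mem hx hy

theorem conj_eq (σ : ℂ ≃ₐ[K] ℂ) {B : Submodule ℤ ℂ} (hB : IsLat B) (hBK : InK K B)
    (h1 : (1 : ℂ) ∈ B) (hBB : B * B ≤ B) :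
    ∃ (μ : ℂ) (D : Submodule ℤ ℂ), μ ≠ 0 ∧ IsLat D ∧ InK K D ∧ B * D ≤ D ∧
      ∀ L : Submodule ℤ ℂ, IsLat L → InK K L → B * L ≤ L →
        conj (σ : ℂ ≃+* ℂ) L = μ • (L * D) := by
  have hD := (conj_spec (σ : ℂ ≃+* ℂ) hB).1
  obtain ⟨μ, hμ, hμ0⟩ := kl2_ne hD
  have hfix : ∀ b ∈ B, (σ : ℂ ≃+* ℂ) b = b := by
    intro b hb
    obtain ⟨x, rfl⟩ := hBK b hb
    exact σ.commutes x
  have hBD : ∀ b ∈ B, ∀ d ∈ conj (σ : ℂ ≃+* ℂ) B, b * d ∈ conj (σ : ℂ ≃+* ℂ) B := by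
    intro b hb d hd
    have h2 := conj_mem (σ : ℂ ≃+* ℂ) hB hB (m := b)
      (fun l hl => hBB (Submodule.mul_mem_mul hb hl)) d hd
    rwa [hfix b hb] at h2
  have hC : IsLat (μ⁻¹ • conj (σ : ℂ ≃+* ℂ) B) := hD.smul (inv_ne_zero hμ0)
  have hBC : ∀ b ∈ B, ∀ c ∈ μ⁻¹ • conj (σ : ℂ ≃+* ℂ) B, b * c ∈ μ⁻¹ • conj (σ : ℂ ≃+* ℂ) B := by
    intro b hb c hc
    rw [kl2_mem hμ0] at hc ⊢
    have e : μ * (b * c) = b * (μ * c) := by ring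
    rw [e]
    exact hBD b hb _ hc
  have h1C : (1 : ℂ) ∈ μ⁻¹ • conj (σ : ℂ ≃+* ℂ) B := by
    rw [kl2_mem hμ0, mul_one]
    exact hμ
  have hle : B ≤ μ⁻¹ • conj (σ : ℂ ≃+* ℂ) B := by
    intro b hb
    have := hBC b hb 1 h1C
    rwa [mul_one] at this
  refine ⟨μ, μ⁻¹ • conj (σ : ℂ ≃+* ℂ) B, hμ0, hC, ?_, ?_, ?_⟩
  · intro c hc
    obtain ⟨N, hN, hNc⟩ := exists_mul_mem hB hC hle hc
    obtain ⟨x, hx⟩ := hBK _ hNc
    refine ⟨x / N, ?_⟩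
    have hN' : (N : ℂ) ≠ 0 := Nat.cast_ne_zero.2 hN
    rw [map_div₀, map_natCast, hx]
    field_simp
  · rw [Submodule.mul_le]
    exact hBC
  · intro L hL hLK hBL
    rw [conj_mul σ hB hL hLK h1 hBL, ← kl2_mul_smul _ _ hμ0, smul_smul, mul_inv_cancel₀ hμ0,
      one_smul]

theorem conj_comm (σ τ : ℂ ≃ₐ[K] ℂ) {B : Submodule ℤ ℂ} (hB : IsLat B) (hBK : InK K B)
    (h1 : (1 : ℂ) ∈ B) (hBB : B * B ≤ B) :
    ∃ ν : ℂ, ν ≠ 0 ∧ ∀ L : Submodule ℤ ℂ, IsLat L → InK K L → B * L ≤ L →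
      conj (σ : ℂ ≃+* ℂ) (conj (τ : ℂ ≃+* ℂ) L) =
        ν • conj (τ : ℂ ≃+* ℂ) (conj (σ : ℂ ≃+* ℂ) L) := by
  obtain ⟨μ, C, hμ, hC, hCK, hBC, hall⟩ := conj_eq σ hB hBK h1 hBB
  obtain ⟨μ', C', hμ', hC', hCK', hBC', hall'⟩ := conj_eq τ hB hBK h1 hBB
  have hlat : ∀ (σ : ℂ ≃ₐ[K] ℂ) (μ : ℂ) (C : Submodule ℤ ℂ), μ ≠ 0 → InK K C →
      (∀ L : Submodule ℤ ℂ, IsLat L → InK K L → B * L ≤ L →
        conj (σ : ℂ ≃+* ℂ) L = μ • (L * C)) →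
      ∀ L : Submodule ℤ ℂ, IsLat L → InK K L → B * L ≤ L →
        IsLat (L * C) ∧ InK K (L * C) ∧ B * (L * C) ≤ L * C := by
    intro σ μ C hμ hCK hall L hL hLK hBL
    refine ⟨?_, ?_, ?_⟩
    · have h2 := (conj_spec (σ : ℂ ≃+* ℂ) hL).1
      rw [hall L hL hLK hBL] at h2
      have h3 := h2.smul (inv_ne_zero hμ)
      rwa [smul_smul, inv_mul_cancel₀ hμ, one_smul] at h3
    · intro z hz
      refine Submodule.mul_induction_on (C := fun z => ∃ x : K, algebraMap K ℂ x = z) hz ?_ ?_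
      · intro a ha c hc
        obtain ⟨x, rfl⟩ := hLK a ha
        obtain ⟨y, rfl⟩ := hCK c hc
        exact ⟨x * y, map_mul _ _ _⟩
      · rintro x y ⟨a, rfl⟩ ⟨b, rfl⟩
        exact ⟨a + b, map_add _ _ _⟩
    · rw [← mul_assoc]
      exact mul_le_mul' hBL le_rfl
  have hsm : ∀ (σ : ℂ ≃ₐ[K] ℂ) {x : ℂ}, x ≠ 0 → (σ : ℂ ≃+* ℂ) x ≠ 0 := fun σ x hx =>
    (map_ne_zero_iff _ (σ : ℂ ≃+* ℂ).injective).2 hx
  refine ⟨((σ : ℂ ≃+* ℂ) μ' * μ) * ((τ : ℂ ≃+* ℂ) μ * μ')⁻¹,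
    mul_ne_zero (mul_ne_zero (hsm σ hμ') hμ) (inv_ne_zero (mul_ne_zero (hsm τ hμ) hμ')), ?_⟩
  intro L hL hLK hBL
  obtain ⟨a1, a2, a3⟩ := hlat σ μ C hμ hCK hall L hL hLK hBL
  obtain ⟨b1, b2, b3⟩ := hlat τ μ' C' hμ' hCK' hall' L hL hLK hBL
  rw [hall' L hL hLK hBL, hall L hL hLK hBL, conj_smul (σ : ℂ ≃+* ℂ) b1 hμ',
    conj_smul (τ : ℂ ≃+* ℂ) a1 hμ, hall _ b1 b2 b3, hall' _ a1 a2 a3, smul_smul, smul_smul,
    smul_smul, mul_right_comm L C' C]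
  congr 1
  have n1 := hsm τ hμ
  field_simp

end Pool.Agent.Work.CM
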