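import Mathlib
import Pool.Agent.Work.CM.Tw2
import Pool.Agent.Work.CM.Cj

/-!
# Module TW3: automorphisms and homotheties

`Two.conj`: `conj σ L ≤ conj σ L'` (`conj_le`); they differ, since otherwise `L' = L` (apply `conj` of
`σ.symm`, `conj_trans`, `conj_refl`). By `(Two.rel h).map σ` and `map_of_rel` every `z ∈ conj σ L'`,
`z ∉ conj σ L` has `wp (conj σ L) z = σ (ev L L')`. Take such a `u`. Since `σ (ev L L')` is a root of the
cubic (`Two.cubic`), `wpd (conj σ L) u = 0` (`IsLat.ode`), so `2u ∈ conj σ L` (`IsLat.crit`); for another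
such `z`, `IsLat.inj` gives `z - u ∈ conj σ L` or `z + u ∈ conj σ L`, so `z - u ∈ conj σ L` in both
cases. `Two.smul`: `wp_smul`.
-/

set_option autoImplicit false

namespace Pool.Agent.Work.CM

open Filter Topology Polynomial
open scoped Pointwise

variable {L L' : Submodule ℤ ℂ}

theorem Two.conj (σ : ℂ ≃+* ℂ) (h : Two L L') :
    Two (conj σ L) (conj σ L') ∧ ev (CM.conj σ L) (CM.conj σ L') = σ (ev L L') := by
  obtain ⟨a, b, c⟩ := conj_spec σ h.lat
  obtain ⟨a', b', c'⟩ := conj_spec σ h.lat'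
  have hle : CM.conj σ L ≤ CM.conj σ L' := conj_le σ h.lat h.lat' h.le
  have hinv : ∀ {K : Submodule ℤ ℂ}, IsLat K → CM.conj σ.symm (CM.conj σ K) = K := by
    intro K hK
    rw [conj_trans _ _ hK]
    have h1 : σ.trans σ.symm = RingEquiv.refl ℂ := by
      ext x
      simp
    rw [h1, conj_refl hK]
  have hex : ∃ u, u ∈ CM.conj σ L' ∧ u ∉ CM.conj σ L := by
    by_contra hcon
    push Not at hcon
    have h1 : CM.conj σ L = CM.conj σ L' := le_antisymm hle fun z hz => hcon z hz
    have h2 : L = L' := by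
      rw [← hinv h.lat, ← hinv h.lat', h1]
    obtain ⟨u, hu, hu', -⟩ := h.ex
    exact hu' (h2 ▸ hu)
  have hR := (Two.rel h).map σ
  rw [← b, ← c, ← b', ← c', map_one] at hR
  have hval : ∀ z ∈ CM.conj σ L', z ∉ CM.conj σ L → wp (CM.conj σ L) z = σ (ev L L') := by
    intro z hz hz'
    have h1 := (map_of_rel a a' one_ne_zero hR).2 z hz' (by rw [one_mul]; exact hz)
    simp only [Polynomial.map_sub, Polynomial.map_X, Polynomial.map_C, Polynomial.eval_sub,
      Polynomial.eval_X, Polynomial.eval_C, RingEquiv.coe_toRingHom] at h1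
    exact sub_eq_zero.1 h1
  obtain ⟨u, hu, hu'⟩ := hex
  have hcub : wpd (CM.conj σ L) u = 0 := by
    have h1 := a.ode hu'
    rw [hval u hu hu', b, c] at h1
    have h2 := congrArg σ h.cubic
    simp only [map_sub, map_mul, map_pow, map_ofNat, map_zero] at h2
    rw [h2] at h1
    exact pow_eq_zero_iff (two_ne_zero) |>.1 h1
  have h2u : 2 * u ∈ CM.conj σ L := a.crit hu' hcub
  have hT : Two (CM.conj σ L) (CM.conj σ L') := by
    refine ⟨a, a', hle, u, hu, hu', fun z hz => ?_⟩
    by_cases hz' : z ∈ CM.conj σ L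
    · exact Or.inl hz'
    · right
      rcases a.inj hz' hu' (by rw [hval z hz hz', hval u hu hu']) with h1 | h1
      · exact h1
      · have h3 : z - u = z + u - 2 * u := by ring
        rw [h3]
        exact _root_.sub_mem h1 h2u
  exact ⟨hT, by rw [← hT.ev_eq hu hu', hval u hu hu']⟩

theorem Two.smul {m : ℂ} (hm : m ≠ 0) (h : Two L L') :
    Two (m • L) (m • L') ∧ ev (m • L) (m • L') = (m ^ 2)⁻¹ * ev L L' := by
  obtain ⟨u, hu, hu', hx⟩ := h.ex
  have hz0 : ∀ z : ℂ, m * (m⁻¹ * z) = z := fun z => by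
    rw [← mul_assoc, mul_inv_cancel₀ hm, one_mul]
  have hT : Two (m • L) (m • L') := by
    refine ⟨h.lat.smul hm, h.lat'.smul hm, ?_, m * u, (mem_smul_iff hm).2 hu,
      fun h1 => hu' ((mem_smul_iff hm).1 h1), ?_⟩
    · intro z hz
      rw [← hz0 z] at hz ⊢
      exact (mem_smul_iff hm).2 (h.le ((mem_smul_iff hm).1 hz))
    · intro z hz
      rw [← hz0 z] at hz ⊢
      rcases hx _ ((mem_smul_iff hm).1 hz) with h1 | h1
      · exact Or.inl ((mem_smul_iff hm).2 h1)
      · right
        rw [← mul_sub]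
        exact (mem_smul_iff hm).2 h1
  refine ⟨hT, ?_⟩
  rw [← hT.ev_eq ((mem_smul_iff hm).2 hu) (fun h1 => hu' ((mem_smul_iff hm).1 h1)), wp_smul hm,
    h.ev_eq hu hu']

end Pool.Agent.Work.CM
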