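import Mathlib
import Pool.Agent.Work.CM.Kl2
import Pool.Agent.Work.CM.Tw3

/-!
# Module KL3: the values commute up to a common factor

`Two.conj` twice on both sides, `conj_comm` for `L` and `L'`, `Two.smul`. The factor is `(ν^2)⁻¹`.
-/

set_option autoImplicit false

namespace Pool.Agent.Work.CM

open Filter Topology Polynomial
open scoped Pointwise

variable {L L' : Submodule ℤ ℂ}

variable {K : Type*} [Field K] [Algebra K ℂ]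

theorem ev_comm (σ τ : ℂ ≃ₐ[K] ℂ) {B : Submodule ℤ ℂ} (hB : IsLat B) (hBK : InK K B)
    (h1 : (1 : ℂ) ∈ B) (hBB : B * B ≤ B) :
    ∃ ν : ℂ, ν ≠ 0 ∧ ∀ L L' : Submodule ℤ ℂ, Two L L' → InK K L' → B * L ≤ L → B * L' ≤ L' →
      σ (τ (ev L L')) = ν * τ (σ (ev L L')) := by
  obtain ⟨ν, hν, hall⟩ := conj_comm σ τ hB hBK h1 hBB
  refine ⟨(ν ^ 2)⁻¹, inv_ne_zero (pow_ne_zero 2 hν), ?_⟩
  intro L L' h hK hBL hBL'
  have hKL : InK K L := fun l hl => hK l (h.le hl)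
  obtain ⟨a1, a2⟩ := Two.conj (τ : ℂ ≃+* ℂ) h
  obtain ⟨a3, a4⟩ := Two.conj (σ : ℂ ≃+* ℂ) a1
  obtain ⟨b1, b2⟩ := Two.conj (σ : ℂ ≃+* ℂ) h
  obtain ⟨b3, b4⟩ := Two.conj (τ : ℂ ≃+* ℂ) b1
  obtain ⟨c1, c2⟩ := Two.smul hν b3
  rw [← hall L h.lat hKL hBL, ← hall L' h.lat' hK hBL', a4, a2, b4, b2] at c2
  exact c2

end Pool.Agent.Work.CM
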