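import Mathlib
import Pool.Agent.Work.CM.Defs

/-!
# Module EXT1: automorphisms of an algebraic closure extend to the complex numbers

`ℂ` is an algebraically closed extension of `Ω` in two ways: by `ψ` and by `ψ ∘ σ`. Take a
transcendence basis `B` of `ℂ` over `ψ(Ω)`; it is a transcendence basis for both structures (same image
of `Ω`). By `IsAlgClosed.equivOfTranscendenceBasis` (or its `AlgEquiv` version) applied to `ℂ` with the
algebra structure `ψ` and `ℂ` with the algebra structure `ψ ∘ σ` there is a ring isomorphism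
`τ : ℂ → ℂ` with `τ (ψ x) = ψ (σ x)`. It fixes the image of `K`.
(Alternatively extend step by step: `σ` extends to the purely transcendental extension
`ψ(Ω)(B)` and then to its algebraic closure `ℂ`, `IsAlgClosure.equivOfEquiv`.)
-/

set_option autoImplicit false

namespace Pool.Agent.Work.CM

open Filter Topology Polynomial
open scoped Pointwise

variable {L L' : Submodule ℤ ℂ}

private theorem ext1_aux {Ω : Type*} [Field Ω] [Algebra Ω ℂ] (σ : Ω ≃+* Ω) :
    ∃ τ : ℂ ≃+* ℂ, ∀ x : Ω, τ (algebraMap Ω ℂ x) = algebraMap Ω ℂ (σ x) := by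
  obtain ⟨ι, v, hv⟩ := exists_isTranscendenceBasis' Ω ℂ
  have := IsAlgClosed.isAlgClosure_of_transcendence_basis v hv
  let e : Algebra.adjoin Ω (Set.range v) ≃+* Algebra.adjoin Ω (Set.range v) :=
    (hv.1.aevalEquiv.symm.toRingEquiv.trans (MvPolynomial.mapEquiv ι σ)).trans
      hv.1.aevalEquiv.toRingEquiv
  refine ⟨IsAlgClosure.equivOfEquiv ℂ ℂ e, fun x => ?_⟩
  have h1 : algebraMap Ω ℂ x =
      algebraMap (Algebra.adjoin Ω (Set.range v)) ℂ (algebraMap Ω _ x) := rfl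
  have h2 : e (algebraMap Ω _ x) = algebraMap Ω _ (σ x) := by
    show hv.1.aevalEquiv (MvPolynomial.mapEquiv ι σ (hv.1.aevalEquiv.symm (algebraMap Ω _ x))) = _
    rw [AlgEquiv.commutes]
    show hv.1.aevalEquiv (MvPolynomial.map (σ : Ω →+* Ω) (MvPolynomial.C x)) = _
    rw [MvPolynomial.map_C]
    exact hv.1.aevalEquiv.commutes (σ x)
  rw [h1, IsAlgClosure.equivOfEquiv_algebraMap, h2]
  rfl

theorem exists_extension {K Ω : Type*} [Field K] [Field Ω] [Algebra K Ω] [IsAlgClosed Ω]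
    [Algebra K ℂ] (ψ : Ω →ₐ[K] ℂ) (σ : Ω ≃ₐ[K] Ω) :
    ∃ τ : ℂ ≃ₐ[K] ℂ, ∀ x : Ω, τ (ψ x) = ψ (σ x) := by
  let _ : Algebra Ω ℂ := ψ.toRingHom.toAlgebra
  obtain ⟨τ, hτ⟩ := ext1_aux σ.toRingEquiv
  have hτ' : ∀ x : Ω, τ (ψ x) = ψ (σ x) := hτ
  refine ⟨AlgEquiv.ofRingEquiv (f := τ) fun c => ?_, hτ'⟩
  rw [← ψ.commutes c, hτ', σ.commutes]

end Pool.Agent.Work.CM
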