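import Mathlib
import Pool.Agent.Work.CM.Defs

/-!
# Module EXT2: a complex number with finitely many conjugates is algebraic

Suppose `z` is transcendental over `K`. Then `{z}` extends to a transcendence basis `B` of `ℂ` over `K`,
and replacing `z` by `z + 1` gives again a transcendence basis, indexed by the same set; by
`IsAlgClosed.equivOfTranscendenceBasis` (or its `AlgEquiv` version) there is a `K`-automorphism `σ` of `ℂ`
with `σ z = z + 1`. Then `σ^n z = z + n`, infinitely many values.
-/

set_option autoImplicit false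

namespace Pool.Agent.Work.CM

open Filter Topology Polynomial
open scoped Pointwise

variable {L L' : Submodule ℤ ℂ}

private theorem ext2_aux {K : Type*} [Field K] [Algebra K ℂ] {ι : Type*} {v : ι → ℂ}
    (hv : IsTranscendenceBasis K v) (s : MvPolynomial ι K ≃ₐ[K] MvPolynomial ι K) :
    ∃ τ : ℂ ≃ₐ[K] ℂ, ∀ p, τ (MvPolynomial.aeval v p) = MvPolynomial.aeval v (s p) := by
  have := IsAlgClosed.isAlgClosure_of_transcendence_basis v hv
  let e : Algebra.adjoin K (Set.range v) ≃ₐ[K] Algebra.adjoin K (Set.range v) :=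
    (hv.1.aevalEquiv.symm.trans s).trans hv.1.aevalEquiv
  let τ := IsAlgClosure.equivOfEquiv ℂ ℂ e.toRingEquiv
  have h1 : ∀ p, τ (MvPolynomial.aeval v p) = MvPolynomial.aeval v (s p) := by
    intro p
    have h2 : MvPolynomial.aeval v p =
      algebraMap (Algebra.adjoin K (Set.range v)) ℂ (hv.1.aevalEquiv p) := rfl
    have h3 : e (hv.1.aevalEquiv p) = hv.1.aevalEquiv (s p) := by
      show hv.1.aevalEquiv (s (hv.1.aevalEquiv.symm (hv.1.aevalEquiv p))) = _
      rw [AlgEquiv.symm_apply_apply]
    rw [h2]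
    show IsAlgClosure.equivOfEquiv ℂ ℂ e.toRingEquiv (algebraMap _ ℂ _) = _
    rw [IsAlgClosure.equivOfEquiv_algebraMap]
    show algebraMap _ ℂ (e (hv.1.aevalEquiv p)) = _
    rw [h3]
    rfl
  refine ⟨AlgEquiv.ofRingEquiv (f := τ) fun c => ?_, h1⟩
  have h2 := h1 (MvPolynomial.C c)
  have h3 : s (MvPolynomial.C c) = MvPolynomial.C c := s.commutes c
  rw [h3, MvPolynomial.aeval_C] at h2
  exact h2

theorem algebraic_of_finite {K : Type*} [Field K] [Algebra K ℂ] {z : ℂ}
    (h : (Set.range fun σ : ℂ ≃ₐ[K] ℂ => σ z).Finite) : IsAlgebraic K z := by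
  classical
  by_contra hz
  have hz' : Transcendental K z := hz
  have hs : AlgebraicIndepOn K id ({z} : Set ℂ) :=
    algebraicIndependent_unique_type_iff.2 hz'
  obtain ⟨t, hst, ht⟩ := exists_isTranscendenceBasis_superset hs
  have hzt : z ∈ t := hst rfl
  let i₀ : t := ⟨z, hzt⟩
  let f : MvPolynomial t K →ₐ[K] MvPolynomial t K :=
    MvPolynomial.aeval (fun i => if i = i₀ then MvPolynomial.X i + 1 else MvPolynomial.X i)
  let g : MvPolynomial t K →ₐ[K] MvPolynomial t K :=
    MvPolynomial.aeval (fun i => if i = i₀ then MvPolynomial.X i - 1 else MvPolynomial.X i)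
  have hfg : f.comp g = AlgHom.id K _ := by
    ext i
    simp only [AlgHom.comp_apply, f, g, MvPolynomial.aeval_X]
    split_ifs with h1 <;> simp [h1]
  have hgf : g.comp f = AlgHom.id K _ := by
    ext i
    simp only [AlgHom.comp_apply, f, g, MvPolynomial.aeval_X]
    split_ifs with h1 <;> simp [h1]
  obtain ⟨τ, hτ⟩ := ext2_aux ht (AlgEquiv.ofAlgHom f g hfg hgf)
  have h1 : τ z = z + 1 := by
    have h2 := hτ (MvPolynomial.X i₀)
    rw [MvPolynomial.aeval_X] at h2
    have h3 : (AlgEquiv.ofAlgHom f g hfg hgf) (MvPolynomial.X i₀) = MvPolynomial.X i₀ + 1 := by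
      show f (MvPolynomial.X i₀) = _
      simp [f]
    rw [h3, map_add, MvPolynomial.aeval_X, map_one] at h2
    exact h2
  have h2 : ∀ n : ℕ, (τ ^ n) z = z + n := by
    intro n
    induction n with
    | zero => simp
    | succ n ih =>
      rw [pow_succ, AlgEquiv.mul_apply, h1, map_add, ih, map_one]
      push_cast
      ring
  refine Set.infinite_range_of_injective (f := fun n : ℕ => z + (n : ℂ)) ?_
    (h.subset ?_)
  · intro a b hab
    simpa using hab
  · rintro _ ⟨n, rfl⟩
    exact ⟨τ ^ n, h2 n⟩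

end Pool.Agent.Work.CM
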